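import Mathlib

/-!
# Commutative differential graded algebras over ℚ, their dg-modules and semi-trivial mapping cones

Gradings are by `ℤ` (cohomological: the differential has degree `+1`).
A CDGA is *non-negatively graded* if all its components of negative degree vanish (`CDGA.IsNonneg`).

To avoid transports along equalities of degrees, products and differentials take a proof of the
relation between the degrees involved: `A.mul (h : i + j = k) : A i → A j → A k` and
`A.d (h : i + 1 = j) : A i → A j`. The sign `(-1)^n` is `sgn n`.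
-/

set_option autoImplicit false

namespace Pool.Agent.Lib.MP_43ef35_gt

universe u

/-- The sign `(-1)^n`, as a rational number. -/
def sgn (n : ℤ) : ℚ := (-1) ^ n

/-! ### CDGAs -/

/-- A (`ℤ`-graded) commutative differential graded algebra over `ℚ`. -/
structure CDGA where
  /-- the component of degree `i` -/
  A : ℤ → Type u
  [grp : ∀ i, AddCommGroup (A i)]
  [mod : ∀ i, Module ℚ (A i)]
  /-- the unit -/
  one : A 0
  /-- the product -/
  mul : ∀ {i j k : ℤ}, i + j = k → A i → A j → A k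
  /-- the differential -/
  d : ∀ {i j : ℤ}, i + 1 = j → A i → A j
  add_mul : ∀ {i j k : ℤ} (h : i + j = k) (a a' : A i) (b : A j),
    mul h (a + a') b = mul h a b + mul h a' b
  smul_mul : ∀ {i j k : ℤ} (h : i + j = k) (c : ℚ) (a : A i) (b : A j),
    mul h (c • a) b = c • mul h a b
  one_mul : ∀ {i : ℤ} (h : 0 + i = i) (a : A i), mul h one a = a
  mul_assoc : ∀ {i j k ij jk l : ℤ} (h₁ : i + j = ij) (h₂ : ij + k = l)
    (h₃ : j + k = jk) (h₄ : i + jk = l) (a : A i) (b : A j) (c : A k),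
    mul h₂ (mul h₁ a b) c = mul h₄ a (mul h₃ b c)
  mul_comm : ∀ {i j k : ℤ} (h : i + j = k) (h' : j + i = k) (a : A i) (b : A j),
    mul h a b = sgn (i * j) • mul h' b a
  d_add : ∀ {i j : ℤ} (h : i + 1 = j) (a a' : A i), d h (a + a') = d h a + d h a'
  d_smul : ∀ {i j : ℤ} (h : i + 1 = j) (c : ℚ) (a : A i), d h (c • a) = c • d h a
  d_d : ∀ {i j k : ℤ} (h : i + 1 = j) (h' : j + 1 = k) (a : A i), d h' (d h a) = 0
  leibniz : ∀ {i j k i' j' k' : ℤ} (h : i + j = k) (hi : i + 1 = i') (hj : j + 1 = j')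
    (hk : k + 1 = k') (h₁ : i' + j = k') (h₂ : i + j' = k') (a : A i) (b : A j),
    d hk (mul h a b) = mul h₁ (d hi a) b + sgn i • mul h₂ a (d hj b)

attribute [instance] CDGA.grp CDGA.mod

namespace CDGA

/-- `A` is non-negatively graded. -/
def IsNonneg (A : CDGA.{u}) : Prop := ∀ i : ℤ, i < 0 → Subsingleton (A.A i)

theorem mul_mem_Z {A : CDGA.{u}} {i j k : ℤ} (h : i + j = k) {a : A.A i} {b : A.A j}
    (ha : A.d rfl a = 0) (hb : A.d rfl b = 0) : A.d rfl (A.mul h a b) = 0 := by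
  have h0 : ∀ {i j k : ℤ} (h : i + j = k) (b : A.A j), A.mul h (0 : A.A i) b = 0 := by
    intro i j k h b
    have := A.smul_mul h 0 (0 : A.A i) b
    rwa [zero_smul, zero_smul] at this
  have h1 : ∀ {i j k : ℤ} (h : i + j = k) (a : A.A i), A.mul h a (0 : A.A j) = 0 := by
    intro i j k h a
    rw [A.mul_comm h (by omega), h0, smul_zero]
  rw [A.leibniz h rfl rfl rfl (by omega) (by omega) a b, ha, hb, h0, h1, smul_zero, add_zero]

/-- The differential as a linear map. -/
def dL (A : CDGA.{u}) {i j : ℤ} (h : i + 1 = j) : A.A i →ₗ[ℚ] A.A j :=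
  ⟨⟨A.d h, A.d_add h⟩, A.d_smul h⟩

/-- Cocycles of degree `i`. -/
def Z (A : CDGA.{u}) (i : ℤ) : Submodule ℚ (A.A i) := LinearMap.ker (A.dL (j := i + 1) rfl)

/-- Coboundaries of degree `i`. -/
def B (A : CDGA.{u}) (i : ℤ) : Submodule ℚ (A.A i) := LinearMap.range (A.dL (sub_add_cancel i 1))

/-- Cohomology `H^i(A)`: cocycles modulo coboundaries. -/
def H (A : CDGA.{u}) (i : ℤ) : Type u := A.Z i ⧸ (A.B i).submoduleOf (A.Z i)

instance (A : CDGA.{u}) (i : ℤ) : AddCommGroup (A.H i) :=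
  Submodule.Quotient.addCommGroup ((A.B i).submoduleOf (A.Z i))

instance (A : CDGA.{u}) (i : ℤ) : Module ℚ (A.H i) :=
  Submodule.Quotient.module ((A.B i).submoduleOf (A.Z i))

/-- The class in `H^i(A)` of a cocycle `a` of degree `i`. -/
def cls (A : CDGA.{u}) {i : ℤ} (a : A.A i) (ha : A.d rfl a = 0) : A.H i :=
  Submodule.Quotient.mk (p := (A.B i).submoduleOf (A.Z i)) ⟨a, ha⟩

theorem d_one {A : CDGA.{u}} {j : ℤ} (h : 0 + 1 = j) : A.d h A.one = 0 := by
  have h1 := A.leibniz (show (0 : ℤ) + 0 = 0 by ring) h h h (by omega) (by omega) A.one A.one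
  rw [A.one_mul (by ring)] at h1
  have h2 : A.mul (show (0 : ℤ) + j = j by ring) A.one (A.d h A.one) = A.d h A.one :=
    A.one_mul _ _
  have h3 : A.mul (show j + 0 = j by ring) (A.d h A.one) A.one = A.d h A.one := by
    rw [A.mul_comm (show j + 0 = j by ring) (show (0 : ℤ) + j = j by ring), h2]
    simp [sgn]
  have h4 : A.d h A.one = A.d h A.one + sgn 0 • A.d h A.one := by
    refine h1.trans ?_
    rw [h3]
    exact congrArg _ (congrArg _ h2)
  simpa [sgn] using h4

end CDGA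

/-! ### Morphisms and quasi-isomorphisms -/

/-- A morphism of CDGAs. -/
structure Hom (A B : CDGA.{u}) where
  /-- the component of degree `i` -/
  f : ∀ i : ℤ, A.A i →ₗ[ℚ] B.A i
  map_one : f 0 A.one = B.one
  map_mul : ∀ {i j k : ℤ} (h : i + j = k) (a : A.A i) (b : A.A j),
    f k (A.mul h a b) = B.mul h (f i a) (f j b)
  map_d : ∀ {i j : ℤ} (h : i + 1 = j) (a : A.A i), f j (A.d h a) = B.d h (f i a)

/-- `φ` is a quasi-isomorphism: `H^i(φ) : H^i(A) → H^i(B)` is injective and surjective for all `i`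
(spelled out on cocycles). -/
def Hom.IsQuasiIso {A B : CDGA.{u}} (φ : Hom A B) : Prop :=
  ∀ i : ℤ, (∀ a ∈ A.Z i, φ.f i a ∈ B.B i → a ∈ A.B i) ∧
    (∀ b ∈ B.Z i, ∃ a ∈ A.Z i, b - φ.f i a ∈ B.B i)

/-- Two CDGAs are quasi-isomorphic if they are joined by a zigzag of quasi-isomorphisms. -/
def QuasiIsomorphic (A B : CDGA.{u}) : Prop :=
  Relation.EqvGen (fun X Y : CDGA.{u} => ∃ φ : Hom X Y, φ.IsQuasiIso) A B

/-! ### Poincaré duality and signature -/

/-- The cohomology algebra `H = H(A)` satisfies Poincaré duality in dimension `m`: it is connected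
(`H^0 = ℚ · 1` and `1 ≠ 0`), finite-dimensional, and there is an isomorphism of `H`-modules
`H ≅ s^{-m} #H`. Such an isomorphism is the same thing as a linear form `ε` on `H^m` (the image of
`1`) for which all pairings `H^i × H^j → ℚ`, `(a, b) ↦ ε(a b)`, `i + j = m`, are nondegenerate. -/
structure PoincareDuality (A : CDGA.{u}) (m : ℤ) : Prop where
  one_ne_zero : A.cls A.one (A.d_one rfl) ≠ 0
  connected : ∀ x : A.H 0, ∃ c : ℚ, x = c • A.cls A.one (A.d_one rfl)
  finite : ∀ i : ℤ, Module.Finite ℚ (A.H i)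
  bounded : {i : ℤ | Nontrivial (A.H i)}.Finite
  duality : ∃ ε : A.H m →ₗ[ℚ] ℚ, ∀ {i j : ℤ} (h : i + j = m) (a : A.A i) (ha : A.d rfl a = 0),
    (∀ (b : A.A j) (hb : A.d rfl b = 0), ε (A.cls (A.mul h a b) (CDGA.mul_mem_Z h ha hb)) = 0) →
      A.cls a ha = 0

/-- The signature of `A` in dimension `m` is zero: if `m = 4k`, then for every isomorphism
`ε : H^{4k} ≅ ℚ` the form `(a, b) ↦ ε(a b)` on `H^{2k}` has signature zero, that is, there are
pairwise orthogonal cocycles `v s`, `s ∈ Fin r ⊕ Fin r`, whose classes form a basis of `H^{2k}`, with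
`ε(v²) > 0` for the first `r` of them and `ε(v²) < 0` for the last `r` of them. (If `4 ∤ m` the
signature is zero by convention.) -/
def SignatureZero (A : CDGA.{u}) (m : ℤ) : Prop :=
  ∀ (k : ℤ) (h : 2 * k + 2 * k = m) (ε : A.H m →ₗ[ℚ] ℚ), Function.Bijective ε →
    ∃ (r : ℕ) (v : Fin r ⊕ Fin r → A.A (2 * k)) (hv : ∀ s, A.d rfl (v s) = 0)
      (b : Module.Basis (Fin r ⊕ Fin r) ℚ (A.H (2 * k))),
      (∀ s, b s = A.cls (v s) (hv s)) ∧
      (∀ s t, s ≠ t → ε (A.cls (A.mul h (v s) (v t)) (CDGA.mul_mem_Z h (hv s) (hv t))) = 0) ∧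
      (∀ i, 0 < ε (A.cls (A.mul h (v (.inl i)) (v (.inl i))) (CDGA.mul_mem_Z h (hv _) (hv _)))) ∧
      (∀ i, ε (A.cls (A.mul h (v (.inr i)) (v (.inr i))) (CDGA.mul_mem_Z h (hv _) (hv _))) < 0)

/-! ### dg-modules and the dual -/

/-- A (left) dg-module over the CDGA `Q`. -/
structure DGMod (Q : CDGA.{u}) where
  /-- the component of degree `i` -/
  M : ℤ → Type u
  [grp : ∀ i, AddCommGroup (M i)]
  [mod : ∀ i, Module ℚ (M i)]
  /-- the action of `Q` -/
  act : ∀ {i j k : ℤ}, i + j = k → Q.A i → M j → M k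
  /-- the differential -/
  d : ∀ {i j : ℤ}, i + 1 = j → M i → M j
  add_act : ∀ {i j k : ℤ} (h : i + j = k) (a a' : Q.A i) (x : M j),
    act h (a + a') x = act h a x + act h a' x
  smul_act : ∀ {i j k : ℤ} (h : i + j = k) (c : ℚ) (a : Q.A i) (x : M j),
    act h (c • a) x = c • act h a x
  act_add : ∀ {i j k : ℤ} (h : i + j = k) (a : Q.A i) (x x' : M j),
    act h a (x + x') = act h a x + act h a x'
  act_smul : ∀ {i j k : ℤ} (h : i + j = k) (c : ℚ) (a : Q.A i) (x : M j),
    act h a (c • x) = c • act h a x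
  one_act : ∀ {i : ℤ} (h : 0 + i = i) (x : M i), act h Q.one x = x
  mul_act : ∀ {i j k ij jk l : ℤ} (h₁ : i + j = ij) (h₂ : ij + k = l)
    (h₃ : j + k = jk) (h₄ : i + jk = l) (a : Q.A i) (b : Q.A j) (x : M k),
    act h₂ (Q.mul h₁ a b) x = act h₄ a (act h₃ b x)
  d_add : ∀ {i j : ℤ} (h : i + 1 = j) (x x' : M i), d h (x + x') = d h x + d h x'
  d_smul : ∀ {i j : ℤ} (h : i + 1 = j) (c : ℚ) (x : M i), d h (c • x) = c • d h x
  d_d : ∀ {i j k : ℤ} (h : i + 1 = j) (h' : j + 1 = k) (x : M i), d h' (d h x) = 0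
  leibniz : ∀ {i j k i' j' k' : ℤ} (h : i + j = k) (hi : i + 1 = i') (hj : j + 1 = j')
    (hk : k + 1 = k') (h₁ : i' + j = k') (h₂ : i + j' = k') (a : Q.A i) (x : M j),
    d hk (act h a x) = act h₁ (Q.d hi a) x + sgn i • act h₂ a (d hj x)

attribute [instance] DGMod.grp DGMod.mod

/-! #### The module `s^{-n} #Q` -/

theorem sgn_add (a b : ℤ) : sgn (a + b) = sgn a * sgn b :=
  zpow_add₀ (by norm_num) a b

theorem sgn_cases (a : ℤ) : sgn a = 1 ∨ sgn a = -1 := by
  rcases Int.even_or_odd a with h | h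
  · exact Or.inl h.neg_one_zpow
  · exact Or.inr h.neg_one_zpow

section dual

variable (Q : CDGA.{u}) (n : ℤ)

/-- The component of degree `p` of `s^{-n} #Q`: linear forms on `Q^{n-p}`. -/
abbrev DualM (p : ℤ) : Type u := Q.A (n - p) →ₗ[ℚ] ℚ

variable {Q n}

/-- The action of `Q` on `s^{-n} #Q`: `(a · f)(q) = (-1)^{|a||f|} f(a q)`. -/
def dualAct {i j k : ℤ} (h : i + j = k) (a : Q.A i) (f : DualM Q n j) : DualM Q n k where
  toFun q := sgn (i * j) * f (Q.mul (show i + (n - k) = n - j by omega) a q)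
  map_add' q q' := by
    rw [Q.mul_comm _ (show (n - k) + i = n - j by omega), Q.add_mul, smul_add, map_add, mul_add,
      ← Q.mul_comm (show i + (n - k) = n - j by omega), ← Q.mul_comm]
  map_smul' c q := by
    rw [Q.mul_comm _ (show (n - k) + i = n - j by omega), Q.smul_mul, smul_comm, map_smul,
      ← Q.mul_comm (show i + (n - k) = n - j by omega), RingHom.id_apply, smul_eq_mul, smul_eq_mul]
    ring

/-- The differential of `s^{-n} #Q`: `(d f)(q) = -(-1)^{|f|} f(d q)`. -/
def dualD {i j : ℤ} (h : i + 1 = j) (f : DualM Q n i) : DualM Q n j where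
  toFun q := -(sgn i * f (Q.d (show n - j + 1 = n - i by omega) q))
  map_add' q q' := by
    rw [Q.d_add, map_add]
    ring
  map_smul' c q := by
    rw [Q.d_smul, map_smul, RingHom.id_apply, smul_eq_mul, smul_eq_mul]
    ring

theorem dualAct_apply {i j k : ℤ} (h : i + j = k) (a : Q.A i) (f : DualM Q n j)
    (q : Q.A (n - k)) : dualAct h a f q =
      sgn (i * j) * f (Q.mul (show i + (n - k) = n - j by omega) a q) := rfl

theorem dualD_apply {i j : ℤ} (h : i + 1 = j) (f : DualM Q n i) (q : Q.A (n - j)) :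
    dualD h f q = -(sgn i * f (Q.d (show n - j + 1 = n - i by omega) q)) := rfl

theorem add_dualAct {i j k : ℤ} (h : i + j = k) (a a' : Q.A i) (f : DualM Q n j) :
    dualAct h (a + a') f = dualAct h a f + dualAct h a' f := by
  ext q
  rw [LinearMap.add_apply, dualAct_apply, dualAct_apply, dualAct_apply, Q.add_mul, map_add]
  ring

theorem smul_dualAct {i j k : ℤ} (h : i + j = k) (c : ℚ) (a : Q.A i) (f : DualM Q n j) :
    dualAct h (c • a) f = c • dualAct h a f := by
  ext q
  rw [LinearMap.smul_apply, dualAct_apply, dualAct_apply, Q.smul_mul, map_smul, smul_eq_mul,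
    smul_eq_mul]
  ring

theorem dualAct_add {i j k : ℤ} (h : i + j = k) (a : Q.A i) (f f' : DualM Q n j) :
    dualAct h a (f + f') = dualAct h a f + dualAct h a f' := by
  ext q
  rw [LinearMap.add_apply, dualAct_apply, dualAct_apply, dualAct_apply, LinearMap.add_apply]
  ring

theorem dualAct_smul {i j k : ℤ} (h : i + j = k) (c : ℚ) (a : Q.A i) (f : DualM Q n j) :
    dualAct h a (c • f) = c • dualAct h a f := by
  ext q
  rw [LinearMap.smul_apply, dualAct_apply, dualAct_apply, LinearMap.smul_apply, smul_eq_mul,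
    smul_eq_mul]
  ring

theorem one_dualAct {i : ℤ} (h : 0 + i = i) (f : DualM Q n i) : dualAct h Q.one f = f := by
  ext q
  rw [dualAct_apply, Q.one_mul]
  simp [sgn]

theorem mul_dualAct {i j k ij jk l : ℤ} (h₁ : i + j = ij) (h₂ : ij + k = l)
    (h₃ : j + k = jk) (h₄ : i + jk = l) (a : Q.A i) (b : Q.A j) (f : DualM Q n k) :
    dualAct h₂ (Q.mul h₁ a b) f = dualAct h₄ a (dualAct h₃ b f) := by
  ext q
  rw [dualAct_apply, dualAct_apply, dualAct_apply]
  rw [Q.mul_comm h₁ (show j + i = ij by omega), Q.smul_mul, map_smul, smul_eq_mul]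
  rw [Q.mul_assoc (show j + i = ij by omega) (show ij + (n - l) = n - k by omega)
    (show i + (n - l) = n - jk by omega) (show j + (n - jk) = n - k by omega)]
  subst h₁ h₃
  have e1 : (i + j) * k = i * k + j * k := by ring
  have e2 : i * (j + k) = i * j + i * k := by ring
  rw [e1, e2, sgn_add, sgn_add]
  ring

theorem dualD_add {i j : ℤ} (h : i + 1 = j) (f f' : DualM Q n i) :
    dualD h (f + f') = dualD h f + dualD h f' := by
  ext q
  rw [LinearMap.add_apply, dualD_apply, dualD_apply, dualD_apply, LinearMap.add_apply]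
  ring

theorem dualD_smul {i j : ℤ} (h : i + 1 = j) (c : ℚ) (f : DualM Q n i) :
    dualD h (c • f) = c • dualD h f := by
  ext q
  rw [LinearMap.smul_apply, dualD_apply, dualD_apply, LinearMap.smul_apply, smul_eq_mul,
    smul_eq_mul]
  ring

theorem dualD_dualD {i j k : ℤ} (h : i + 1 = j) (h' : j + 1 = k) (f : DualM Q n i) :
    dualD h' (dualD h f) = 0 := by
  ext q
  rw [dualD_apply, dualD_apply, Q.d_d, map_zero]
  simp

theorem dual_leibniz {i j k i' j' k' : ℤ} (h : i + j = k) (hi : i + 1 = i') (hj : j + 1 = j')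
    (hk : k + 1 = k') (h₁ : i' + j = k') (h₂ : i + j' = k') (a : Q.A i) (f : DualM Q n j) :
    dualD hk (dualAct h a f) = dualAct h₁ (Q.d hi a) f + sgn i • dualAct h₂ a (dualD hj f) := by
  ext q
  rw [LinearMap.add_apply, LinearMap.smul_apply, dualD_apply, dualAct_apply, dualAct_apply,
    dualAct_apply, dualD_apply]
  have hL := Q.leibniz (show i + (n - k') = n - j' by omega) hi (show (n - k') + 1 = n - k by omega)
    (show (n - j') + 1 = n - j by omega) (show i' + (n - k') = n - j by omega)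
    (show i + (n - k) = n - j by omega) a q
  have hL' := congrArg f hL
  rw [map_add, map_smul, smul_eq_mul] at hL'
  rw [hL']
  subst h hi hj
  have e1 : (i + 1) * j = i * j + j := by ring
  have e2 : i * (j + 1) = i * j + i := by ring
  rw [e1, e2, sgn_add, sgn_add, sgn_add, smul_eq_mul]
  rcases sgn_cases i with hs | hs <;> rcases sgn_cases j with ht | ht <;> rw [hs, ht] <;> ring

end dual

/-- The `Q`-dg-module `s^{-n} #Q`: its component of degree `p` is `hom(Q^{n-p}, ℚ)`, with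
`(a · f)(q) = (-1)^{|a||f|} f(a q)` and `(d f)(q) = -(-1)^{|f|} f(d q)` (Koszul signs). -/
def shiftedDual (Q : CDGA.{u}) (n : ℤ) : DGMod Q where
  M := DualM Q n
  act := dualAct
  d := dualD
  add_act := add_dualAct
  smul_act := smul_dualAct
  act_add := dualAct_add
  act_smul := dualAct_smul
  one_act := one_dualAct
  mul_act := mul_dualAct
  d_add := dualD_add
  d_smul := dualD_smul
  d_d := dualD_dualD
  leibniz := dual_leibniz

/-! ### Balanced morphisms and semi-trivial mapping cones -/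

/-- A balanced morphism of `Q`-dg-modules `Ψ : M → Q`. Balanced means `Ψ(x) · y = x · Ψ(y)`, where
the right action on `M` is `x · a = (-1)^{|x||a|} a · x`. -/
structure BalancedMap {Q : CDGA.{u}} (M : DGMod Q) where
  /-- the component `M^i → Q^i`; it is written `Ψ (h : i = j) : M^i → Q^j` -/
  Ψ : ∀ {i j : ℤ}, i = j → M.M i → Q.A j
  map_add : ∀ {i : ℤ} (x x' : M.M i), Ψ rfl (x + x') = Ψ rfl x + Ψ rfl x'
  map_smul : ∀ {i : ℤ} (c : ℚ) (x : M.M i), Ψ rfl (c • x) = c • Ψ rfl x
  map_act : ∀ {i j k : ℤ} (h : i + j = k) (a : Q.A i) (x : M.M j),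
    Ψ rfl (M.act h a x) = Q.mul h a (Ψ rfl x)
  map_d : ∀ {i j : ℤ} (h : i + 1 = j) (x : M.M i), Ψ rfl (M.d h x) = Q.d h (Ψ rfl x)
  balanced : ∀ {i j k : ℤ} (h : i + j = k) (h' : j + i = k) (x : M.M i) (y : M.M j),
    M.act h (Ψ rfl x) y = sgn (i * j) • M.act h' (Ψ rfl y) x

section cone

variable {Q : CDGA.{u}} {M : DGMod Q}

/-- The component of degree `p` of `Q ⊕ sM`, which is `Q^p ⊕ M^{p+1}`. -/
abbrev ConeM (M : DGMod Q) (p : ℤ) : Type u := Q.A p × M.M (p + 1)

/-- The product of `Q ⊕ sM`: it extends the product of `Q` and the action `a · s m = (-1)^{|a|} s (a m)`,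
`s m · a = (-1)^{|sm||a|} a · s m`, and `(s m)(s m') = 0`. -/
def coneMul {i j k : ℤ} (h : i + j = k) (x : ConeM M i) (y : ConeM M j) : ConeM M k :=
  (Q.mul h x.1 y.1,
    sgn i • M.act (show i + (j + 1) = k + 1 by omega) x.1 y.2 +
      sgn (i * j) • sgn j • M.act (show j + (i + 1) = k + 1 by omega) y.1 x.2)

/-- The differential `δ(q, s m) = (d q + Ψ m, - s (d m))`. -/
def coneD (Ψ : BalancedMap M) {i j : ℤ} (h : i + 1 = j) (x : ConeM M i) : ConeM M j :=
  (Q.d h x.1 + Ψ.Ψ h x.2, -M.d (show i + 1 + 1 = j + 1 by omega) x.2)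

theorem Ψ_add (Ψ : BalancedMap M) {i j : ℤ} (h : i = j) (x x' : M.M i) :
    Ψ.Ψ h (x + x') = Ψ.Ψ h x + Ψ.Ψ h x' := by subst h; exact Ψ.map_add x x'

theorem Ψ_smul (Ψ : BalancedMap M) {i j : ℤ} (h : i = j) (c : ℚ) (x : M.M i) :
    Ψ.Ψ h (c • x) = c • Ψ.Ψ h x := by subst h; exact Ψ.map_smul c x

theorem Ψ_neg (Ψ : BalancedMap M) {i j : ℤ} (h : i = j) (x : M.M i) :
    Ψ.Ψ h (-x) = -Ψ.Ψ h x := by
  rw [← neg_one_smul ℚ, Ψ_smul, neg_one_smul]

theorem Ψ_d (Ψ : BalancedMap M) {i j i' j' : ℤ} (hi : i + 1 = j) (h : i = i') (hi' : i' + 1 = j')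
    (h' : j = j') (x : M.M i) : Ψ.Ψ h' (M.d hi x) = Q.d hi' (Ψ.Ψ h x) := by
  subst h h'; exact Ψ.map_d hi x

theorem Ψ_act (Ψ : BalancedMap M) {i j k j' k' : ℤ} (h : i + j = k) (h' : i + j' = k')
    (hj : j = j') (hk : k = k') (a : Q.A i) (x : M.M j) :
    Ψ.Ψ hk (M.act h a x) = Q.mul h' a (Ψ.Ψ hj x) := by
  subst hj hk; exact Ψ.map_act h a x

theorem Ψ_balanced (Ψ : BalancedMap M) {i j i' j' k : ℤ} (hi : i = i') (hj : j = j')
    (h : i' + j = k) (h' : j' + i = k) (x : M.M i) (y : M.M j) :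
    M.act h (Ψ.Ψ hi x) y = sgn (i * j) • M.act h' (Ψ.Ψ hj y) x := by
  subst hi hj; exact Ψ.balanced h h' x y

theorem CDGA.mul_add {i j k : ℤ} (h : i + j = k) (a : Q.A i) (b b' : Q.A j) :
    Q.mul h a (b + b') = Q.mul h a b + Q.mul h a b' := by
  rw [Q.mul_comm h (show j + i = k by omega), Q.add_mul, smul_add,
    ← Q.mul_comm h (show j + i = k by omega), ← Q.mul_comm h (show j + i = k by omega)]

theorem CDGA.mul_smul {i j k : ℤ} (h : i + j = k) (c : ℚ) (a : Q.A i) (b : Q.A j) :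
    Q.mul h a (c • b) = c • Q.mul h a b := by
  rw [Q.mul_comm h (show j + i = k by omega), Q.smul_mul, smul_comm,
    ← Q.mul_comm h (show j + i = k by omega)]

theorem CDGA.d_zero {i j : ℤ} (h : i + 1 = j) : Q.d h (0 : Q.A i) = 0 := by
  have := Q.d_smul h 0 (0 : Q.A i)
  rwa [zero_smul, zero_smul] at this

theorem DGMod.d_zero {i j : ℤ} (h : i + 1 = j) : M.d h (0 : M.M i) = 0 := by
  have := M.d_smul h 0 (0 : M.M i)
  rwa [zero_smul, zero_smul] at this

theorem DGMod.d_neg {i j : ℤ} (h : i + 1 = j) (x : M.M i) : M.d h (-x) = -M.d h x := by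
  rw [← neg_one_smul ℚ, M.d_smul, neg_one_smul]

theorem DGMod.act_neg {i j k : ℤ} (h : i + j = k) (a : Q.A i) (x : M.M j) :
    M.act h a (-x) = -M.act h a x := by
  rw [← neg_one_smul ℚ, M.act_smul, neg_one_smul]

theorem cone_add_mul {i j k : ℤ} (h : i + j = k) (x x' : ConeM M i) (y : ConeM M j) :
    coneMul h (x + x') y = coneMul h x y + coneMul h x' y := by
  refine Prod.ext (Q.add_mul h _ _ _) ?_
  simp only [coneMul, Prod.fst_add, Prod.snd_add, M.add_act, M.act_add, smul_add]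
  abel

theorem cone_smul_mul {i j k : ℤ} (h : i + j = k) (c : ℚ) (x : ConeM M i) (y : ConeM M j) :
    coneMul h (c • x) y = c • coneMul h x y := by
  refine Prod.ext (Q.smul_mul h _ _ _) ?_
  simp only [coneMul, Prod.smul_fst, Prod.smul_snd, M.smul_act, M.act_smul, smul_add,
    smul_comm c]

theorem cone_one_mul {i : ℤ} (h : 0 + i = i) (x : ConeM M i) :
    coneMul h ((Q.one, 0) : ConeM M 0) x = x := by
  refine Prod.ext (Q.one_mul h _) ?_
  simp only [coneMul, M.one_act]
  have h0 : M.act (show i + (0 + 1) = i + 1 by omega) x.1 (0 : M.M (0 + 1)) = 0 := by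
    have := M.act_smul (show i + (0 + 1) = i + 1 by omega) 0 x.1 0
    rwa [zero_smul, zero_smul] at this
  rw [h0]
  simp [sgn]

theorem cone_mul_assoc {i j k ij jk l : ℤ} (h₁ : i + j = ij) (h₂ : ij + k = l)
    (h₃ : j + k = jk) (h₄ : i + jk = l) (x : ConeM M i) (y : ConeM M j) (z : ConeM M k) :
    coneMul h₂ (coneMul h₁ x y) z = coneMul h₄ x (coneMul h₃ y z) := by
  refine Prod.ext (Q.mul_assoc h₁ h₂ h₃ h₄ _ _ _) ?_
  simp only [coneMul, M.act_add, M.act_smul, smul_add]
  have e0 := M.mul_act h₁ (show ij + (k + 1) = l + 1 by omega)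
    (show j + (k + 1) = jk + 1 by omega) (show i + (jk + 1) = l + 1 by omega) x.1 y.1 z.2
  have e1 := M.mul_act (show k + i = i + k by ring) (show (i + k) + (j + 1) = l + 1 by omega)
    (show i + (j + 1) = ij + 1 by omega) (show k + (ij + 1) = l + 1 by omega) z.1 x.1 y.2
  have e2 := M.mul_act (show i + k = i + k by ring) (show (i + k) + (j + 1) = l + 1 by omega)
    (show k + (j + 1) = jk + 1 by omega) (show i + (jk + 1) = l + 1 by omega) x.1 z.1 y.2
  rw [Q.mul_comm (show k + i = i + k by ring) (show i + k = i + k by ring), M.smul_act, e2] at e1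
  have e3 := M.mul_act (show k + j = jk by omega) (show jk + (i + 1) = l + 1 by omega)
    (show j + (i + 1) = ij + 1 by omega) (show k + (ij + 1) = l + 1 by omega) z.1 y.1 x.2
  rw [Q.mul_comm (show k + j = jk by omega) h₃, M.smul_act] at e3
  rw [e0, ← e1, ← e3]
  simp only [smul_smul]
  rw [add_assoc]
  congr 1
  · congr 1
    rw [← h₁, sgn_add]
  · congr 1
    · congr 1
      rw [← h₁, add_mul, sgn_add, mul_comm k i]
      rcases sgn_cases (i * k) with h | h <;> rcases sgn_cases (j * k) with h' | h' <;>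
        rcases sgn_cases i with h5 | h5 <;> rcases sgn_cases k with h6 | h6 <;>
        rw [h, h', h5, h6] <;> norm_num
    · congr 1
      rw [← h₁, ← h₃, add_mul, mul_add, sgn_add, sgn_add, sgn_add, mul_comm k j]
      rcases sgn_cases (i * k) with h | h <;> rcases sgn_cases (j * k) with h' | h' <;>
        rcases sgn_cases (i * j) with h5 | h5 <;> rcases sgn_cases k with h6 | h6 <;>
        rcases sgn_cases j with h4 | h4 <;>
        rw [h, h', h5, h6, h4] <;> norm_num

theorem cone_mul_comm {i j k : ℤ} (h : i + j = k) (h' : j + i = k) (x : ConeM M i)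
    (y : ConeM M j) : coneMul h x y = sgn (i * j) • coneMul h' y x := by
  refine Prod.ext (Q.mul_comm h h' _ _) ?_
  simp only [coneMul, Prod.smul_snd, smul_add, smul_smul]
  rw [mul_comm j i]
  refine (add_comm _ _).trans ?_
  congr 1
  congr 1
  rcases sgn_cases (i * j) with h | h <;> rcases sgn_cases i with h' | h' <;>
    rw [h, h'] <;> norm_num

theorem cone_d_add (Ψ : BalancedMap M) {i j : ℤ} (h : i + 1 = j) (x x' : ConeM M i) :
    coneD Ψ h (x + x') = coneD Ψ h x + coneD Ψ h x' := by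
  refine Prod.ext ?_ ?_
  · simp only [coneD, Prod.fst_add, Prod.snd_add, Q.d_add, Ψ_add]; abel
  · simp only [coneD, Prod.snd_add, M.d_add]; abel

theorem cone_d_smul (Ψ : BalancedMap M) {i j : ℤ} (h : i + 1 = j) (c : ℚ) (x : ConeM M i) :
    coneD Ψ h (c • x) = c • coneD Ψ h x := by
  refine Prod.ext ?_ ?_
  · simp only [coneD, Prod.smul_fst, Prod.smul_snd, Q.d_smul, Ψ_smul, smul_add]
  · simp only [coneD, Prod.smul_snd, M.d_smul, smul_neg]

theorem cone_d_d (Ψ : BalancedMap M) {i j k : ℤ} (h : i + 1 = j) (h' : j + 1 = k)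
    (x : ConeM M i) : coneD Ψ h' (coneD Ψ h x) = 0 := by
  refine Prod.ext ?_ ?_
  · simp only [coneD, Q.d_add, Q.d_d, Ψ_neg, Prod.fst_zero, zero_add]
    rw [Ψ_d Ψ (show i + 1 + 1 = j + 1 by omega) h h' h']
    abel
  · simp only [coneD, M.d_neg, M.d_d, neg_zero, Prod.snd_zero]

theorem cone_leibniz (Ψ : BalancedMap M) {i j k i' j' k' : ℤ} (h : i + j = k) (hi : i + 1 = i')
    (hj : j + 1 = j') (hk : k + 1 = k') (h₁ : i' + j = k') (h₂ : i + j' = k') (x : ConeM M i)
    (y : ConeM M j) : coneD Ψ hk (coneMul h x y) =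
      coneMul h₁ (coneD Ψ hi x) y + sgn i • coneMul h₂ x (coneD Ψ hj y) := by
  refine Prod.ext ?_ ?_
  · simp only [coneD, coneMul, Prod.fst_add, Prod.smul_fst, Q.add_mul, CDGA.mul_add, Ψ_add, Ψ_smul]
    rw [Q.leibniz h hi hj hk h₁ h₂, Ψ_act Ψ (show i + (j + 1) = k + 1 by omega) h₂ hj hk,
      Ψ_act Ψ (show j + (i + 1) = k + 1 by omega) (show j + i' = k' by omega) hi hk,
      Q.mul_comm (show j + i' = k' by omega) h₁]
    simp only [smul_smul, smul_add]
    have f1 : j * i' = i * j + j := by rw [← hi]; ring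
    rw [f1, sgn_add]
    rw [show sgn (i * j) * (sgn j * (sgn (i * j) * sgn j)) = 1 by
      rcases sgn_cases (i * j) with h | h <;> rcases sgn_cases j with h' | h' <;>
        rw [h, h'] <;> norm_num]
    rw [_root_.one_smul]
    abel
  · simp only [coneD, coneMul, Prod.snd_add, Prod.smul_snd, M.add_act, M.d_add, M.d_smul]
    rw [M.leibniz (show i + (j + 1) = k + 1 by omega) hi (show j + 1 + 1 = j' + 1 by omega)
        (show k + 1 + 1 = k' + 1 by omega) (show i' + (j + 1) = k' + 1 by omega)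
        (show i + (j' + 1) = k' + 1 by omega),
      M.leibniz (show j + (i + 1) = k + 1 by omega) hj (show i + 1 + 1 = i' + 1 by omega)
        (show k + 1 + 1 = k' + 1 by omega) (show j' + (i + 1) = k' + 1 by omega)
        (show j + (i' + 1) = k' + 1 by omega),
      Ψ_balanced Ψ hi hj (show i' + (j + 1) = k' + 1 by omega)
        (show j' + (i + 1) = k' + 1 by omega)]
    simp only [M.act_neg, smul_neg, smul_add, smul_smul, neg_add]
    generalize M.act _ (Q.d _ x.1) y.2 = t1
    generalize M.act _ x.1 (M.d _ y.2) = t2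
    generalize M.act _ (Q.d _ y.1) x.2 = t3
    generalize M.act _ y.1 (M.d _ x.2) = t4
    generalize M.act _ (Ψ.Ψ _ y.2) x.2 = t5
    have f1 : (i + 1) * (j + 1) = i * j + i + j + 1 := by ring
    have f2 : i' * j = i * j + j := by rw [← hi]; ring
    have f3 : i * j' = i * j + i := by rw [← hj]; ring
    rw [f1, f2, f3, ← hi, ← hj]
    have f4 : sgn 1 = -1 := by norm_num [sgn]
    simp only [sgn_add, f4]
    rcases sgn_cases (i * j) with h | h <;> rcases sgn_cases i with h' | h' <;>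
      rcases sgn_cases j with h5 | h5 <;> simp only [h, h', h5] <;> norm_num <;> abel

/-- The semi-trivial mapping cone `Q ⊕_Ψ sM`. -/
def cone (Ψ : BalancedMap M) : CDGA.{u} where
  A := ConeM M
  one := (Q.one, 0)
  mul := coneMul
  d := coneD Ψ
  add_mul := cone_add_mul
  smul_mul := cone_smul_mul
  one_mul := cone_one_mul
  mul_assoc := cone_mul_assoc
  mul_comm := cone_mul_comm
  d_add := cone_d_add Ψ
  d_smul := cone_d_smul Ψ
  d_d := cone_d_d Ψ
  leibniz := cone_leibniz Ψ

end cone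

end Pool.Agent.Lib.MP_43ef35_gt
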