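import Pool.Agent.Lib.MP_43ef35_gt.Transport

/-!
# The Poincaré duality algebra with middle form `x² - 2y²`
-/

set_option autoImplicit false

namespace Pool.Agent.Lib.MP_43ef35_gt

universe u

/-- The field `ℚ` in universe `u`. -/
abbrev K : Type u := ULift.{u} ℚ

/-- Quadruples `(a, x, y, t)`. -/
abbrev E : Type u := K.{u} × K.{u} × K.{u} × K.{u}

/-- The part of degree `i`: `a` has degree `0`, `x, y` have degree `2k`, `t` has degree `4k`. -/
def S (k i : ℤ) : Submodule ℚ E.{u} where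
  carrier := {v | (i ≠ 0 → v.1 = 0) ∧ (i ≠ 2 * k → v.2.1 = 0) ∧ (i ≠ 2 * k → v.2.2.1 = 0) ∧
    (i ≠ 4 * k → v.2.2.2 = 0)}
  add_mem' := by
    rintro v w ⟨h1, h2, h3, h4⟩ ⟨g1, g2, g3, g4⟩
    exact ⟨fun h => by simp [h1 h, g1 h], fun h => by simp [h2 h, g2 h],
      fun h => by simp [h3 h, g3 h], fun h => by simp [h4 h, g4 h]⟩
  zero_mem' := ⟨fun _ => rfl, fun _ => rfl, fun _ => rfl, fun _ => rfl⟩
  smul_mem' := by
    rintro c v ⟨h1, h2, h3, h4⟩
    exact ⟨fun h => by simp [h1 h], fun h => by simp [h2 h],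
      fun h => by simp [h3 h], fun h => by simp [h4 h]⟩

/-- The product `(a,x,y,t)(a',x',y',t') = (aa', ax'+a'x, ay'+a'y, at'+a't+xx'-2yy')`. -/
def pr (v w : E.{u}) : E.{u} :=
  (v.1 * w.1, v.1 * w.2.1 + v.2.1 * w.1, v.1 * w.2.2.1 + v.2.2.1 * w.1,
    v.1 * w.2.2.2 + v.2.2.2 * w.1 + v.2.1 * w.2.1 - 2 * v.2.2.1 * w.2.2.1)

theorem pr_comm (v w : E.{u}) : pr v w = pr w v := by
  simp only [pr]
  ext <;> simp <;> ring

theorem pr_assoc (v w z : E.{u}) : pr (pr v w) z = pr v (pr w z) := by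
  simp only [pr]
  ext <;> simp <;> ring

theorem pr_mem {k i j l : ℤ} (hk : 1 ≤ k) (h : i + j = l) {v w : E.{u}} (hv : v ∈ S k i)
    (hw : w ∈ S k j) : pr v w ∈ S k l := by
  obtain ⟨h1, h2, h3, h4⟩ := hv
  obtain ⟨g1, g2, g3, g4⟩ := hw
  refine ⟨fun hl => ?_, fun hl => ?_, fun hl => ?_, fun hl => ?_⟩
  · by_cases hi : i = 0
    · simp only [pr]; rw [g1 (by omega), mul_zero]
    · simp only [pr]; rw [h1 hi, zero_mul]
  · have e1 : v.1 * w.2.1 = 0 := by
      by_cases hi : i = 0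
      · rw [g2 (by omega), mul_zero]
      · rw [h1 hi, zero_mul]
    have e2 : v.2.1 * w.1 = 0 := by
      by_cases hj : j = 0
      · rw [h2 (by omega), zero_mul]
      · rw [g1 hj, mul_zero]
    simp only [pr]; rw [e1, e2, add_zero]
  · have e1 : v.1 * w.2.2.1 = 0 := by
      by_cases hi : i = 0
      · rw [g3 (by omega), mul_zero]
      · rw [h1 hi, zero_mul]
    have e2 : v.2.2.1 * w.1 = 0 := by
      by_cases hj : j = 0
      · rw [h3 (by omega), zero_mul]
      · rw [g1 hj, mul_zero]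
    simp only [pr]; rw [e1, e2, add_zero]
  · have e1 : v.1 * w.2.2.2 = 0 := by
      by_cases hi : i = 0
      · rw [g4 (by omega), mul_zero]
      · rw [h1 hi, zero_mul]
    have e2 : v.2.2.2 * w.1 = 0 := by
      by_cases hj : j = 0
      · rw [h4 (by omega), zero_mul]
      · rw [g1 hj, mul_zero]
    have e3 : v.2.1 * w.2.1 = 0 := by
      by_cases hi : i = 2 * k
      · rw [g2 (by omega), mul_zero]
      · rw [h2 hi, zero_mul]
    have e4 : 2 * v.2.2.1 * w.2.2.1 = 0 := by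
      by_cases hi : i = 2 * k
      · rw [g3 (by omega), mul_zero]
      · rw [h3 hi, mul_zero, zero_mul]
    simp only [pr]; rw [e1, e2, e3, e4]; simp

theorem eq_zero_of_odd {k i : ℤ} (hi : Odd i) {v : E.{u}} (hv : v ∈ S k i) : v = 0 := by
  obtain ⟨h1, h2, h3, h4⟩ := hv
  obtain ⟨r, hr⟩ := hi
  ext
  · simp [h1 (by omega)]
  · simp [h2 (by omega)]
  · simp [h3 (by omega)]
  · simp [h4 (by omega)]

/-- The CDGA `ℚ ⊕ ℚ²[-2k] ⊕ ℚ[-4k]` with zero differential and middle form `x² - 2y²`. -/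
def exA (k : ℤ) (hk : 1 ≤ k) : CDGA.{u} where
  A i := S.{u} k i
  one := ⟨(1, 0, 0, 0), fun h => absurd rfl h, fun _ => rfl, fun _ => rfl, fun _ => rfl⟩
  mul {i j l} h v w := ⟨pr v.1 w.1, pr_mem hk h v.2 w.2⟩
  add_mul {i j l} h v v' w := by
    apply Subtype.ext
    simp only [pr, Submodule.coe_add]
    ext <;> simp <;> ring
  smul_mul {i j l} h c v w := by
    apply Subtype.ext
    simp only [pr, Submodule.coe_smul]
    ext <;> simp <;> ring
  d {i j} _ _ := 0
  one_mul {i} h v := by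
    apply Subtype.ext
    simp only [pr]
    ext <;> simp
  mul_assoc {i j l ij jl ijl} h₁ h₂ h₃ h₄ a b c := by
    apply Subtype.ext
    exact pr_assoc _ _ _
  mul_comm {i j l} h h' a b := by
    apply Subtype.ext
    simp only [Submodule.coe_smul]
    rw [pr_comm]
    rcases Int.even_or_odd (i * j) with hij | hij
    · rw [sgn, hij.neg_one_zpow, one_smul]
    · rw [Int.odd_mul] at hij
      have : a.1 = 0 := eq_zero_of_odd hij.1 a.2
      rw [this]
      simp only [pr]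
      ext <;> simp
  d_add {i j} h a a' := (add_zero _).symm
  d_smul {i j} h c a := (smul_zero _).symm
  d_d {i j l} h h' a := rfl
  leibniz {i j l i' j' l'} h hi hj hl h₁ h₂ a b := by
    apply Subtype.ext
    simp only [pr, Submodule.coe_add, Submodule.coe_smul, Submodule.coe_zero]
    ext <;> simp

section

variable (k : ℤ) (hk : 1 ≤ k)

theorem exA_Z {i : ℤ} (a : (exA.{u} k hk).A i) : (exA.{u} k hk).d rfl a = 0 := rfl

/-- The class of an element (all elements are cocycles). -/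
def cl {i : ℤ} (a : (exA.{u} k hk).A i) : (exA.{u} k hk).H i :=
  (exA.{u} k hk).cls a (exA_Z k hk a)

theorem cl_surj {i : ℤ} (x : (exA.{u} k hk).H i) : ∃ a, cl k hk a = x := by
  obtain ⟨a, ha, h⟩ := CDGA.cls_surj x
  exact ⟨a, h⟩

theorem cl_eq_zero {i : ℤ} {a : (exA.{u} k hk).A i} : cl k hk a = 0 ↔ a = 0 := by
  rw [cl, CDGA.cls_eq_zero, CDGA.mem_B (show (i - 1) + 1 = i by ring)]
  constructor
  · rintro ⟨y, hy⟩
    exact hy.symm
  · rintro rfl
    exact ⟨0, rfl⟩

theorem cl_inj {i : ℤ} {a b : (exA.{u} k hk).A i} : cl k hk a = cl k hk b ↔ a = b := by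
  rw [← sub_eq_zero, ← sub_eq_zero (a := a)]
  exact cl_eq_zero k hk (a := a - b)

/-- `H^i` is isomorphic to `A^i`. -/
noncomputable def clEquiv (i : ℤ) : (exA.{u} k hk).A i ≃ₗ[ℚ] (exA.{u} k hk).H i :=
  LinearEquiv.ofBijective
    { toFun := cl k hk
      map_add' := fun _ _ => rfl
      map_smul' := fun _ _ => rfl }
    ⟨fun _ _ h => (cl_inj k hk).1 h, fun x => cl_surj k hk x⟩

theorem clEquiv_apply {i : ℤ} (a : (exA.{u} k hk).A i) : clEquiv k hk i a = cl k hk a := rfl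

theorem coe_mul {i j l : ℤ} (h : i + j = l) (a : (exA.{u} k hk).A i) (b : (exA.{u} k hk).A j) :
    ((exA.{u} k hk).mul h a b).1 = pr a.1 b.1 := rfl

/-- the coordinate `t` as a linear form on `A^i` -/
def tA (i : ℤ) : (exA.{u} k hk).A i →ₗ[ℚ] ℚ where
  toFun v := (v.1.2.2.2 : K).down
  map_add' _ _ := rfl
  map_smul' _ _ := rfl

/-- the orientation -/
noncomputable def orient (i : ℤ) : (exA.{u} k hk).H i →ₗ[ℚ] ℚ :=
  tA k hk i ∘ₗ (clEquiv k hk i).symm.toLinearMap

theorem orient_cl {i : ℤ} (a : (exA.{u} k hk).A i) :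
    orient k hk i (cl k hk a) = (a.1.2.2.2 : K).down := by
  rw [← clEquiv_apply, orient]
  simp only [LinearMap.comp_apply, LinearEquiv.coe_coe, LinearEquiv.symm_apply_apply]
  rfl

end

end Pool.Agent.Lib.MP_43ef35_gt
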