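import Pool.Agent.Lib.MP_43ef35_gt.Example

/-!
# Properties of the example
-/

set_option autoImplicit false

namespace Pool.Agent.Lib.MP_43ef35_gt

universe u

theorem eq_zero_of_ne {k i : ℤ} (h0 : i ≠ 0) (h1 : i ≠ 2 * k) (h2 : i ≠ 4 * k) {v : E.{u}}
    (hv : v ∈ S k i) : v = 0 := by
  obtain ⟨g1, g2, g3, g4⟩ := hv
  ext
  · simp [g1 h0]
  · simp [g2 h1]
  · simp [g3 h1]
  · simp [g4 h2]

variable (k : ℤ) (hk : 1 ≤ k)

theorem exA_subsingleton {i : ℤ} (h0 : i ≠ 0) (h1 : i ≠ 2 * k) (h2 : i ≠ 4 * k) :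
    Subsingleton ((exA.{u} k hk).A i) := by
  refine ⟨fun a b => Subtype.ext ?_⟩
  rw [eq_zero_of_ne h0 h1 h2 a.2, eq_zero_of_ne h0 h1 h2 b.2]

theorem exA_nonneg : (exA.{u} k hk).IsNonneg := by
  intro i hi
  exact exA_subsingleton k hk (by omega) (by omega) (by omega)

instance exA_finite (i : ℤ) : Module.Finite ℚ ((exA.{u} k hk).A i) := by
  have : Module.Finite ℚ K.{u} := Module.Finite.equiv (ULift.moduleEquiv (R := ℚ) (M := ℚ)).symm
  change Module.Finite ℚ (S.{u} k i)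
  infer_instance

/-- the element `x` -/
def eX {i : ℤ} (hi : i = 2 * k) : (exA.{u} k hk).A i :=
  ⟨(0, 1, 0, 0), fun _ => rfl, fun h => absurd hi h, fun _ => rfl, fun _ => rfl⟩

/-- the element `y` -/
def eY {i : ℤ} (hi : i = 2 * k) : (exA.{u} k hk).A i :=
  ⟨(0, 0, 1, 0), fun _ => rfl, fun _ => rfl, fun h => absurd hi h, fun _ => rfl⟩

/-- the element `t` -/
def eT {i : ℤ} (hi : i = 4 * k) : (exA.{u} k hk).A i :=
  ⟨(0, 0, 0, 1), fun _ => rfl, fun _ => rfl, fun _ => rfl, fun h => absurd hi h⟩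

theorem nondeg {i j : ℤ} (h : i + j = 4 * k) (a : (exA.{u} k hk).A i)
    (ha : ∀ b : (exA.{u} k hk).A j, (pr a.1 b.1).2.2.2 = 0) : a = 0 := by
  by_cases h0 : i = 0
  · have h1 := ha (eT k hk (by omega))
    have h2 : a.1.1 = 0 := by simpa [pr, eT] using h1
    obtain ⟨g1, g2, g3, g4⟩ := a.2
    apply Subtype.ext
    refine Prod.ext h2 (Prod.ext (g2 (by omega)) (Prod.ext (g3 (by omega)) (g4 (by omega))))
  by_cases h1 : i = 2 * k
  · have e1 := ha (eX k hk (by omega))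
    have e2 := ha (eY k hk (by omega))
    have f1 : a.1.2.1 = 0 := by simpa [pr, eX] using e1
    have f2 : a.1.2.2.1 = 0 := by
      have h5 : 2 * a.1.2.2.1 = 0 := by simpa [pr, eY] using e2
      have h6 := congrArg ULift.down h5
      apply ULift.ext
      simpa using h6
    obtain ⟨g1, g2, g3, g4⟩ := a.2
    apply Subtype.ext
    refine Prod.ext (g1 (by omega)) (Prod.ext f1 (Prod.ext f2 (g4 (by omega))))
  by_cases h2 : i = 4 * k
  · subst h2
    obtain rfl : j = 0 := by omega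
    have e1 := ha (exA.{u} k hk).one
    have f1 : a.1.2.2.2 = 0 := by simpa [pr, exA] using e1
    obtain ⟨g1, g2, g3, g4⟩ := a.2
    apply Subtype.ext
    refine Prod.ext (g1 (by omega)) (Prod.ext (g2 (by omega)) (Prod.ext (g3 (by omega)) f1))
  · exact Subtype.ext (eq_zero_of_ne h0 h1 h2 a.2)

theorem exA_pd : PoincareDuality (exA.{u} k hk) (4 * k) where
  one_ne_zero := by
    intro h
    have h1 : cl k hk (exA.{u} k hk).one = 0 := h
    rw [cl_eq_zero] at h1
    have h2 : (1 : K.{u}) = 0 := congrArg (fun v => v.1.1) h1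
    exact one_ne_zero h2
  connected := by
    intro x
    obtain ⟨a, rfl⟩ := cl_surj k hk x
    refine ⟨(a.1.1 : K).down, ?_⟩
    change cl k hk a = cl k hk ((a.1.1 : K).down • (exA.{u} k hk).one)
    rw [cl_inj]
    obtain ⟨g1, g2, g3, g4⟩ := a.2
    apply Subtype.ext
    refine Prod.ext ?_ (Prod.ext ?_ (Prod.ext ?_ ?_))
    · change a.1.1 = (a.1.1 : K).down • (1 : K)
      apply ULift.ext
      simp
    · change a.1.2.1 = (a.1.1 : K).down • (0 : K)
      rw [g2 (by omega), smul_zero]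
    · change a.1.2.2.1 = (a.1.1 : K).down • (0 : K)
      rw [g3 (by omega), smul_zero]
    · change a.1.2.2.2 = (a.1.1 : K).down • (0 : K)
      rw [g4 (by omega), smul_zero]
  finite := fun i => Module.Finite.equiv (clEquiv k hk i)
  bounded := by
    apply Set.Finite.subset (Set.toFinite {0, 2 * k, 4 * k})
    intro i hi
    by_contra hcon
    simp only [Set.mem_insert_iff, Set.mem_singleton_iff, not_or] at hcon
    have := exA_subsingleton.{u} k hk hcon.1 hcon.2.1 hcon.2.2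
    have h3 : Subsingleton ((exA.{u} k hk).H i) := (clEquiv k hk i).symm.toEquiv.subsingleton
    exact (not_subsingleton_iff_nontrivial.2 hi) h3
  duality := by
    refine ⟨orient k hk (4 * k), ?_⟩
    intro i j h a ha hb
    refine (cl_eq_zero k hk).2 (nondeg k hk h a fun b => ?_)
    have h1 := hb b (exA_Z k hk b)
    exact ULift.ext _ _ ((orient_cl k hk ((exA.{u} k hk).mul h a b)).symm.trans h1)

/-- coordinates on the middle degree -/
def midEquiv : (exA.{u} k hk).A (2 * k) ≃ₗ[ℚ] (Fin 1 ⊕ Fin 1 → ℚ) where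
  toFun v := Sum.elim (fun _ => (v.1.2.1 : K).down) (fun _ => (v.1.2.2.1 : K).down)
  map_add' v w := by
    ext i
    rcases i with i | i <;> rfl
  map_smul' c v := by
    ext i
    rcases i with i | i <;> rfl
  invFun f := ⟨(0, ULift.up (f (Sum.inl 0)), ULift.up (f (Sum.inr 0)), 0), fun _ => rfl,
    fun h => absurd rfl h, fun h => absurd rfl h, fun _ => rfl⟩
  left_inv v := by
    obtain ⟨g1, g2, g3, g4⟩ := v.2
    apply Subtype.ext
    refine Prod.ext (g1 (by omega)).symm (Prod.ext rfl (Prod.ext rfl (g4 (by omega)).symm))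
  right_inv f := by
    ext i
    rcases i with i | i
    · fin_cases i; rfl
    · fin_cases i; rfl

theorem mid_form {m : ℤ} (h : 2 * k + 2 * k = m) (ε : (exA.{u} k hk).H m →ₗ[ℚ] ℚ)
    (a b : (exA.{u} k hk).A (2 * k)) :
    ε (cl k hk ((exA.{u} k hk).mul h a b)) =
      ((a.1.2.1 : K).down * (b.1.2.1 : K).down - 2 * (a.1.2.2.1 : K).down * (b.1.2.2.1 : K).down) *
        ε (cl k hk (eT k hk (show m = 4 * k by omega))) := by
  refine Eq.trans ?_ (smul_eq_mul _ _)
  rw [← map_smul]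
  congr 1
  change _ = cl k hk (((a.1.2.1 : K).down * (b.1.2.1 : K).down -
    2 * (a.1.2.2.1 : K).down * (b.1.2.2.1 : K).down) • eT k hk (show m = 4 * k by omega))
  rw [cl_inj]
  apply Subtype.ext
  obtain ⟨g1, g2, g3, g4⟩ := a.2
  obtain ⟨f1, f2, f3, f4⟩ := b.2
  rw [coe_mul]
  refine Prod.ext ?_ (Prod.ext ?_ (Prod.ext ?_ ?_))
  · change a.1.1 * b.1.1 = _ • (0 : K)
    rw [g1 (by omega), zero_mul, smul_zero]
  · change a.1.1 * b.1.2.1 + a.1.2.1 * b.1.1 = _ • (0 : K)
    rw [g1 (by omega), f1 (by omega), zero_mul, mul_zero, smul_zero, add_zero]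
  · change a.1.1 * b.1.2.2.1 + a.1.2.2.1 * b.1.1 = _ • (0 : K)
    rw [g1 (by omega), f1 (by omega), zero_mul, mul_zero, smul_zero, add_zero]
  · change a.1.1 * b.1.2.2.2 + a.1.2.2.2 * b.1.1 + a.1.2.1 * b.1.2.1 - 2 * a.1.2.2.1 * b.1.2.2.1
      = _ • (1 : K)
    rw [g1 (by omega), f1 (by omega)]
    apply ULift.ext
    simp

theorem exA_signatureZero : SignatureZero (exA.{u} k hk) (4 * k) := by
  intro k' h ε hε
  obtain rfl : k' = k := by omega
  set c := ε (cl k' hk (eT k' hk rfl)) with hc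
  have hc0 : c ≠ 0 := by
    intro h0
    have h1 : cl k' hk (eT.{u} k' hk rfl) = 0 := hε.1 (by rw [← hc, h0, map_zero])
    rw [cl_eq_zero] at h1
    have h2 : (1 : K.{u}) = 0 := congrArg (fun v => v.1.2.2.2) h1
    exact one_ne_zero h2
  let b₀ : Module.Basis (Fin 1 ⊕ Fin 1) ℚ ((exA.{u} k' hk).H (2 * k')) :=
    (Module.Basis.ofEquivFun (midEquiv k' hk)).map (clEquiv k' hk (2 * k'))
  have hb₀ : ∀ i, b₀ i = cl k' hk ((midEquiv k' hk).symm (Pi.single i 1)) := by
    intro i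
    simp only [b₀, Module.Basis.map_apply, Module.Basis.coe_ofEquivFun, clEquiv_apply]
  let w : Fin 1 ⊕ Fin 1 → (exA.{u} k' hk).A (2 * k') :=
    fun i => (midEquiv k' hk).symm (Pi.single i 1)
  have hb₀' : ∀ s, b₀ s = (exA.{u} k' hk).cls (w s) (exA_Z k' hk (w s)) := fun s => hb₀ s
  have hform : ∀ i j, ε ((exA.{u} k' hk).cls ((exA.{u} k' hk).mul h (w i) (w j))
      (exA_Z k' hk _)) =
      ((Pi.single i 1 : Fin 1 ⊕ Fin 1 → ℚ) (Sum.inl 0) * (Pi.single j 1 : Fin 1 ⊕ Fin 1 → ℚ) (Sum.inl 0)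
        - 2 * (Pi.single i 1 : Fin 1 ⊕ Fin 1 → ℚ) (Sum.inr 0) *
          (Pi.single j 1 : Fin 1 ⊕ Fin 1 → ℚ) (Sum.inr 0)) * c := by
    intro i j
    exact mid_form k' hk h ε (w i) (w j)
  rcases lt_or_gt_of_ne hc0 with hneg | hpos
  · refine ⟨1, w ∘ Sum.swap, fun s => exA_Z k' hk _, b₀.reindex (Equiv.sumComm _ _),
      ?_, ?_, ?_, ?_⟩
    · intro s
      rw [Module.Basis.reindex_apply, hb₀']
      rcases s with s | s <;> rfl
    · intro i j hij
      refine (hform (Sum.swap i) (Sum.swap j)).trans ?_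
      rcases i with i | i <;> rcases j with j | j <;> fin_cases i <;> fin_cases j <;>
        simp at hij ⊢
    · intro i
      refine lt_of_lt_of_eq ?_ (hform (Sum.swap (Sum.inl i)) (Sum.swap (Sum.inl i))).symm
      fin_cases i
      simp
      linarith
    · intro i
      refine lt_of_eq_of_lt (hform (Sum.swap (Sum.inr i)) (Sum.swap (Sum.inr i))) ?_
      fin_cases i
      simp
      linarith
  · refine ⟨1, w, fun s => exA_Z k' hk _, b₀, hb₀', ?_, ?_, ?_⟩
    · intro i j hij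
      refine (hform i j).trans ?_
      rcases i with i | i <;> rcases j with j | j <;> fin_cases i <;> fin_cases j <;>
        simp at hij ⊢
    · intro i
      refine lt_of_lt_of_eq ?_ (hform (Sum.inl i) (Sum.inl i)).symm
      fin_cases i
      simp
      linarith
    · intro i
      refine lt_of_eq_of_lt (hform (Sum.inr i) (Sum.inr i)) ?_
      fin_cases i
      simp
      linarith

theorem rat_sq_eq {x y : ℚ} (h : x * x - 2 * y * y = 0) : x = 0 ∧ y = 0 := by
  by_cases hy : y = 0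
  · subst hy
    simp at h
    exact ⟨h, rfl⟩
  · exfalso
    have h1 : (x / y) ^ 2 = 2 := by
      field_simp
      linarith
    have h2 : ((x / y : ℚ) : ℝ) ^ 2 = 2 := by exact_mod_cast h1
    have h3 := irrational_sqrt_two
    apply h3
    refine ⟨|x / y|, ?_⟩
    rw [← h2]
    push_cast
    rw [Real.sqrt_sq_eq_abs]

theorem exA_aniso (a : (exA.{u} k hk).A (2 * k))
    (ha : cl k hk ((exA.{u} k hk).mul (show 2 * k + 2 * k = 4 * k by ring) a a) = 0) :
    cl k hk a = 0 := by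
  have h1 := mid_form k hk (show 2 * k + 2 * k = 4 * k by ring) (orient k hk (4 * k)) a a
  rw [ha, map_zero, orient_cl] at h1
  have h2 : (a.1.2.1 : K).down * (a.1.2.1 : K).down -
      2 * (a.1.2.2.1 : K).down * (a.1.2.2.1 : K).down = 0 := by
    have h3 : ((eT.{u} k hk (show 4 * k = 4 * k from rfl)).1.2.2.2 : K).down = 1 := rfl
    rw [h3, mul_one] at h1
    exact h1.symm
  obtain ⟨e1, e2⟩ := rat_sq_eq h2
  rw [cl_eq_zero]
  obtain ⟨g1, g2, g3, g4⟩ := a.2
  apply Subtype.ext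
  exact Prod.ext (g1 (by omega)) (Prod.ext (ULift.ext _ _ e1)
    (Prod.ext (ULift.ext _ _ e2) (g4 (by omega))))

theorem exA_mid_ne : cl k hk (eX.{u} k hk (show 2 * k = 2 * k from rfl)) ≠ 0 := by
  intro h
  rw [cl_eq_zero] at h
  have h2 : (1 : K.{u}) = 0 := congrArg (fun v => v.1.2.1) h
  exact one_ne_zero h2

theorem exA_top (x y : (exA.{u} k hk).H (4 * k)) (hx : x ≠ 0) : ∃ c : ℚ, y = c • x := by
  obtain ⟨a, rfl⟩ := cl_surj k hk x
  obtain ⟨b, rfl⟩ := cl_surj k hk y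
  obtain ⟨g1, g2, g3, g4⟩ := a.2
  obtain ⟨f1, f2, f3, f4⟩ := b.2
  have ha : (a.1.2.2.2 : K).down ≠ 0 := by
    intro h0
    apply hx
    rw [cl_eq_zero]
    apply Subtype.ext
    exact Prod.ext (g1 (by omega)) (Prod.ext (g2 (by omega)) (Prod.ext (g3 (by omega))
      (ULift.ext _ _ h0)))
  refine ⟨(b.1.2.2.2 : K).down / (a.1.2.2.2 : K).down, ?_⟩
  change cl k hk b = cl k hk (((b.1.2.2.2 : K).down / (a.1.2.2.2 : K).down) • a)
  rw [cl_inj]
  apply Subtype.ext
  refine Prod.ext ?_ (Prod.ext ?_ (Prod.ext ?_ ?_))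
  · change b.1.1 = _ • a.1.1
    rw [f1 (by omega), g1 (by omega), smul_zero]
  · change b.1.2.1 = _ • a.1.2.1
    rw [f2 (by omega), g2 (by omega), smul_zero]
  · change b.1.2.2.1 = _ • a.1.2.2.1
    rw [f3 (by omega), g3 (by omega), smul_zero]
  · change b.1.2.2.2 = ((b.1.2.2.2 : K).down / (a.1.2.2.2 : K).down) • a.1.2.2.2
    apply ULift.ext
    change (b.1.2.2.2 : K).down = ((b.1.2.2.2 : K).down / (a.1.2.2.2 : K).down) *
      (a.1.2.2.2 : K).down
    field_simp

end Pool.Agent.Lib.MP_43ef35_gt
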