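import Pool.Agent.Lib.MP_43ef35_gt.Defs

/-!
# Metabolic middle form
-/

set_option autoImplicit false

namespace Pool.Agent.Lib.MP_43ef35_gt

universe u

/-- The middle form of `A` in dimension `m` is metabolic: if `m = 4k`, there is a subspace `L` of
`H^{2k}(A)` with `L = L^⊥` for the product `H^{2k} × H^{2k} → H^{4k}`. (No condition if `4 ∤ m`.) If
`H(A)` satisfies Poincaré duality in dimension `m`, this says that the class of the middle form in the
Witt group of `ℚ` is zero. -/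
def Metabolic (A : CDGA.{u}) (m : ℤ) : Prop :=
  ∀ (k : ℤ) (h : 2 * k + 2 * k = m), ∃ L : Submodule ℚ (A.H (2 * k)),
    ∀ (a : A.A (2 * k)) (ha : A.d rfl a = 0), A.cls a ha ∈ L ↔
      ∀ (b : A.A (2 * k)) (hb : A.d rfl b = 0), A.cls b hb ∈ L →
        A.cls (A.mul h a b) (CDGA.mul_mem_Z h ha hb) = 0

/-- `A` is a Poincaré duality CDGA of dimension `m` in the strict sense, with orientation `ε`: it is
non-negatively graded, connected, of finite type, `ε ∘ d = 0` and the pairings
`(a, b) ↦ ε(a b)`, `A^i × A^{m-i} → ℚ`, are nondegenerate. -/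
structure StrictPD (A : CDGA.{u}) (m : ℤ) (ε : A.A m →ₗ[ℚ] ℚ) : Prop where
  nonneg : A.IsNonneg
  connected : ∀ a : A.A 0, ∃ c : ℚ, a = c • A.one
  finite : ∀ i : ℤ, Module.Finite ℚ (A.A i)
  closed : ∀ {i : ℤ} (h : i + 1 = m) (a : A.A i), ε (A.d h a) = 0
  nondeg : ∀ {i j : ℤ} (h : i + j = m) (a : A.A i), (∀ b : A.A j, ε (A.mul h a b) = 0) → a = 0

/-- `D` is non-negatively graded, connected (`D^0 = ℚ · 1`) and of finite type. -/
structure ConnFin (D : CDGA.{u}) : Prop where
  nonneg : D.IsNonneg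
  connected : ∀ a : D.A 0, ∃ c : ℚ, a = c • D.one
  finite : ∀ i : ℤ, Module.Finite ℚ (D.A i)

end Pool.Agent.Lib.MP_43ef35_gt
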