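import Pool.Agent.Lib.MP_43ef35_gt.Defs

/-!
# The Witt obstruction for semi-trivial mapping cones
-/

set_option autoImplicit false

namespace Pool.Agent.Lib.MP_43ef35_gt

universe u

theorem sgn_ne_zero (a : ℤ) : sgn a ≠ 0 := by
  rcases sgn_cases a with h | h <;> rw [h] <;> norm_num

namespace CDGA

variable {A : CDGA.{u}}

theorem zero_mul {i j k : ℤ} (h : i + j = k) (b : A.A j) : A.mul h (0 : A.A i) b = 0 := by
  have := A.smul_mul h 0 (0 : A.A i) b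
  rwa [zero_smul, zero_smul] at this

theorem mul_zero {i j k : ℤ} (h : i + j = k) (a : A.A i) : A.mul h a (0 : A.A j) = 0 := by
  rw [A.mul_comm h (by omega), zero_mul, smul_zero]

theorem mem_Z {i j : ℤ} (h : i + 1 = j) {a : A.A i} : a ∈ A.Z i ↔ A.d h a = 0 := by
  subst h; rfl

theorem mem_B {i j : ℤ} (h : j + 1 = i) {a : A.A i} : a ∈ A.B i ↔ ∃ y : A.A j, A.d h y = a := by
  obtain rfl : j = i - 1 := by omega
  rfl

theorem cls_eq_zero {i : ℤ} {a : A.A i} {ha : A.d rfl a = 0} : A.cls a ha = 0 ↔ a ∈ A.B i := by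
  refine (Submodule.Quotient.mk_eq_zero _).trans ?_
  exact Iff.rfl

theorem cls_surj {i : ℤ} (x : A.H i) : ∃ a, ∃ ha : A.d rfl a = 0, A.cls a ha = x := by
  obtain ⟨z, rfl⟩ := Submodule.Quotient.mk_surjective _ x
  exact ⟨z.1, z.2, rfl⟩

theorem cls_add {i : ℤ} {a b : A.A i} (ha : A.d rfl a = 0) (hb : A.d rfl b = 0) :
    A.cls a ha + A.cls b hb = A.cls (a + b) ((A.Z i).add_mem ha hb) := rfl

theorem cls_sub {i : ℤ} {a b : A.A i} (ha : A.d rfl a = 0) (hb : A.d rfl b = 0) :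
    A.cls a ha - A.cls b hb = A.cls (a - b) ((A.Z i).sub_mem ha hb) := rfl

theorem cls_smul {i : ℤ} (c : ℚ) {a : A.A i} (ha : A.d rfl a = 0) :
    c • A.cls a ha = A.cls (c • a) ((A.Z i).smul_mem c ha) := rfl

theorem cls_eq {i : ℤ} {a b : A.A i} (ha : A.d rfl a = 0) (hb : A.d rfl b = 0) :
    A.cls a ha = A.cls b hb ↔ a - b ∈ A.B i := by
  rw [← sub_eq_zero, cls_sub, cls_eq_zero]

theorem d_mem_Z {i j : ℤ} (h : i + 1 = j) (a : A.A i) : A.d h a ∈ A.Z j :=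
  (mem_Z rfl).2 (A.d_d h rfl a)

theorem mul_mem_B_left {i j k : ℤ} (h : i + j = k) {a : A.A i} {b : A.A j} (ha : a ∈ A.B i)
    (hb : b ∈ A.Z j) : A.mul h a b ∈ A.B k := by
  obtain ⟨y, rfl⟩ := (mem_B (show (i - 1) + 1 = i by ring)).1 ha
  rw [mem_B (show (k - 1) + 1 = k by ring)]
  refine ⟨A.mul (show (i - 1) + j = k - 1 by omega) y b, ?_⟩
  rw [A.leibniz (show (i - 1) + j = k - 1 by omega) (show (i - 1) + 1 = i by ring) rfl
    (show (k - 1) + 1 = k by ring) h (by omega) y b, (mem_Z rfl).1 hb, mul_zero, smul_zero,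
    add_zero]

theorem mul_mem_B_right {i j k : ℤ} (h : i + j = k) {a : A.A i} {b : A.A j} (ha : a ∈ A.Z i)
    (hb : b ∈ A.B j) : A.mul h a b ∈ A.B k := by
  rw [A.mul_comm h (by omega)]
  exact Submodule.smul_mem _ _ (mul_mem_B_left _ hb ha)

/-- The identity of `A` between components of equal degrees. -/
def deg (A : CDGA.{u}) {i j : ℤ} (h : i = j) : A.A i →ₗ[ℚ] A.A j := h ▸ LinearMap.id

@[simp] theorem deg_rfl {i : ℤ} (h : i = i) (a : A.A i) : A.deg h a = a := rfl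

theorem deg_deg {i j k : ℤ} (h : i = j) (h' : j = k) (z : A.A i) :
    A.deg h' (A.deg h z) = A.deg (h.trans h') z := by
  subst h h'
  rfl

theorem deg_d {i j j' : ℤ} (e : j = j') (h : i + 1 = j) (h' : i + 1 = j')
    (a : A.A i) : A.deg e (A.d h a) = A.d h' a := by
  subst e; rfl

theorem d_deg {i i' j : ℤ} (e : i = i') (h : i' + 1 = j) (h' : i + 1 = j)
    (a : A.A i) : A.d h (A.deg e a) = A.d h' a := by
  subst e; rfl

theorem mul_one_deg {i j k : ℤ} (h : i + j = k) (e : 0 = j) (e' : i = k)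
    (a : A.A i) : A.mul h a (A.deg e A.one) = A.deg e' a := by
  subst e
  subst e'
  rw [A.deg_rfl, A.mul_comm h (by omega), A.one_mul]
  simp [sgn]

theorem d_one_deg {i j : ℤ} (e : 0 = i) (h : i + 1 = j) :
    A.d h (A.deg e A.one) = 0 := by
  subst e
  rw [A.deg_rfl, A.d_one]

end CDGA

/-- A functional vanishing on the kernel factors. -/
theorem exists_factor {V W : Type*} [AddCommGroup V] [Module ℚ V] [AddCommGroup W] [Module ℚ W]
    (f : V →ₗ[ℚ] W) (g : Module.Dual ℚ V) (h : ∀ v, f v = 0 → g v = 0) :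
    ∃ y : Module.Dual ℚ W, ∀ v, y (f v) = g v := by
  have h1 : g ∈ f.ker.dualAnnihilator := by
    rw [Submodule.mem_dualAnnihilator]
    intro v hv
    exact h v hv
  rw [← LinearMap.range_dualMap_eq_dualAnnihilator_ker] at h1
  obtain ⟨y, hy⟩ := h1
  exact ⟨y, fun v => by rw [← hy]; rfl⟩

theorem Ψ_zero {Q : CDGA.{u}} {M : DGMod Q} (Ψ : BalancedMap M) {i j : ℤ} (h : i = j) :
    Ψ.Ψ h (0 : M.M i) = 0 := by
  have := Ψ_smul Ψ h 0 (0 : M.M i)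
  rwa [zero_smul, zero_smul] at this

theorem DGMod.act_zero {Q : CDGA.{u}} {M : DGMod Q} {i j k : ℤ} (h : i + j = k) (a : Q.A i) :
    M.act h a (0 : M.M j) = 0 := by
  have := M.act_smul h 0 a 0
  rwa [zero_smul, zero_smul] at this

/-- The map `Ψ` as a linear map. -/
def BalancedMap.ΨL {Q : CDGA.{u}} {M : DGMod Q} (Ψ : BalancedMap M) {i j : ℤ} (h : i = j) :
    M.M i →ₗ[ℚ] Q.A j where
  toFun := Ψ.Ψ h
  map_add' := Ψ_add Ψ h
  map_smul' := Ψ_smul Ψ h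

section

variable {Q : CDGA.{u}} {M : DGMod Q} (Ψ : BalancedMap M)

/-- first component -/
def c1 {i : ℤ} (x : (cone Ψ).A i) : Q.A i := x.1

/-- second component -/
def c2 {i : ℤ} (x : (cone Ψ).A i) : M.M (i + 1) := x.2

/-- an element of the cone -/
def mkC {i : ℤ} (a : Q.A i) (μ : M.M (i + 1)) : (cone Ψ).A i := (a, μ)

theorem c1_mkC {i : ℤ} (a : Q.A i) (μ : M.M (i + 1)) : c1 Ψ (mkC Ψ a μ) = a := rfl
theorem c2_mkC {i : ℤ} (a : Q.A i) (μ : M.M (i + 1)) : c2 Ψ (mkC Ψ a μ) = μ := rfl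

theorem cone_ext {i : ℤ} {x y : (cone Ψ).A i} (h₁ : c1 Ψ x = c1 Ψ y) (h₂ : c2 Ψ x = c2 Ψ y) :
    x = y := Prod.ext h₁ h₂

theorem c1_zero {i : ℤ} : c1 Ψ (0 : (cone Ψ).A i) = 0 := rfl
theorem c2_zero {i : ℤ} : c2 Ψ (0 : (cone Ψ).A i) = 0 := rfl
theorem c1_add {i : ℤ} (x y : (cone Ψ).A i) : c1 Ψ (x + y) = c1 Ψ x + c1 Ψ y := rfl
theorem c2_add {i : ℤ} (x y : (cone Ψ).A i) : c2 Ψ (x + y) = c2 Ψ x + c2 Ψ y := rfl
theorem c1_sub {i : ℤ} (x y : (cone Ψ).A i) : c1 Ψ (x - y) = c1 Ψ x - c1 Ψ y := rfl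
theorem c2_sub {i : ℤ} (x y : (cone Ψ).A i) : c2 Ψ (x - y) = c2 Ψ x - c2 Ψ y := rfl
theorem c1_smul {i : ℤ} (c : ℚ) (x : (cone Ψ).A i) : c1 Ψ (c • x) = c • c1 Ψ x := rfl
theorem c2_smul {i : ℤ} (c : ℚ) (x : (cone Ψ).A i) : c2 Ψ (c • x) = c • c2 Ψ x := rfl

theorem c1_d {i j : ℤ} (h : i + 1 = j) (x : (cone Ψ).A i) :
    c1 Ψ ((cone Ψ).d h x) = Q.d h (c1 Ψ x) + Ψ.Ψ h (c2 Ψ x) := rfl
theorem c2_d {i j : ℤ} (h : i + 1 = j) (x : (cone Ψ).A i) :
    c2 Ψ ((cone Ψ).d h x) = -M.d (show i + 1 + 1 = j + 1 by omega) (c2 Ψ x) := rfl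
theorem c1_mul {i j k : ℤ} (h : i + j = k) (x : (cone Ψ).A i) (y : (cone Ψ).A j) :
    c1 Ψ ((cone Ψ).mul h x y) = Q.mul h (c1 Ψ x) (c1 Ψ y) := rfl
theorem c2_mul {i j k : ℤ} (h : i + j = k) (x : (cone Ψ).A i) (y : (cone Ψ).A j) :
    c2 Ψ ((cone Ψ).mul h x y) =
      sgn i • M.act (show i + (j + 1) = k + 1 by omega) (c1 Ψ x) (c2 Ψ y) +
      sgn (i * j) • sgn j • M.act (show j + (i + 1) = k + 1 by omega) (c1 Ψ y) (c2 Ψ x) := rfl

theorem mem_cone_Z {i : ℤ} {x : (cone Ψ).A i} : x ∈ (cone Ψ).Z i ↔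
    Q.d rfl (c1 Ψ x) + Ψ.Ψ rfl (c2 Ψ x) = 0 ∧ M.d rfl (c2 Ψ x) = 0 := by
  rw [CDGA.mem_Z rfl]
  constructor
  · intro h
    exact ⟨congrArg (c1 Ψ) h, neg_eq_zero.1 (congrArg (c2 Ψ) h)⟩
  · rintro ⟨h1, h2⟩
    refine cone_ext Ψ h1 ?_
    rw [c2_d, h2, neg_zero]
    rfl

/-- the inclusion `Q → Q ⊕_Ψ sM` -/
def inc {i : ℤ} (q : Q.A i) : (cone Ψ).A i := mkC Ψ q 0

theorem c1_inc {i : ℤ} (q : Q.A i) : c1 Ψ (inc Ψ q) = q := rfl
theorem c2_inc {i : ℤ} (q : Q.A i) : c2 Ψ (inc Ψ q) = 0 := rfl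

theorem inc_mem_Z {i : ℤ} {q : Q.A i} (hq : q ∈ Q.Z i) : inc Ψ q ∈ (cone Ψ).Z i := by
  rw [mem_cone_Z, c1_inc, c2_inc, (CDGA.mem_Z rfl).1 hq, Ψ_zero, M.d_zero]
  simp

theorem inc_mul {i j k : ℤ} (h : i + j = k) (a : Q.A i) (b : Q.A j) :
    (cone Ψ).mul h (inc Ψ a) (inc Ψ b) = inc Ψ (Q.mul h a b) := by
  refine cone_ext Ψ rfl ?_
  rw [c2_mul, c2_inc, c2_inc, M.act_zero, M.act_zero, smul_zero, smul_zero, smul_zero, add_zero]
  rfl

end

/-- evaluation of elements of `s^{-n} #Q` -/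
def ev {Q : CDGA.{u}} {n p : ℤ} (μ : (shiftedDual Q n).M p) : Q.A (n - p) →ₗ[ℚ] ℚ := μ

theorem ev_act {Q : CDGA.{u}} {n i j k : ℤ} (h : i + j = k) (a : Q.A i)
    (μ : (shiftedDual Q n).M j) (z : Q.A (n - k)) :
    ev ((shiftedDual Q n).act h a μ) z =
      sgn (i * j) * ev μ (Q.mul (show i + (n - k) = n - j by omega) a z) := rfl

theorem ev_d {Q : CDGA.{u}} {n i j : ℤ} (h : i + 1 = j)
    (μ : (shiftedDual Q n).M i) (z : Q.A (n - j)) :
    ev ((shiftedDual Q n).d h μ) z =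
      -(sgn i * ev μ (Q.d (show (n - j) + 1 = n - i by omega) z)) := rfl

theorem ev_add {Q : CDGA.{u}} {n p : ℤ} (μ ν : (shiftedDual Q n).M p) (z : Q.A (n - p)) :
    ev (μ + ν) z = ev μ z + ev ν z := rfl

theorem ev_smul {Q : CDGA.{u}} {n p : ℤ} (c : ℚ) (μ : (shiftedDual Q n).M p) (z : Q.A (n - p)) :
    ev (c • μ) z = c * ev μ z := rfl

theorem ev_neg {Q : CDGA.{u}} {n p : ℤ} (μ : (shiftedDual Q n).M p) (z : Q.A (n - p)) :
    ev (-μ) z = - ev μ z := rfl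

theorem ev_zero {Q : CDGA.{u}} {n p : ℤ} (z : Q.A (n - p)) :
    ev (0 : (shiftedDual Q n).M p) z = 0 := rfl

theorem ev_ext {Q : CDGA.{u}} {n p : ℤ} {μ ν : (shiftedDual Q n).M p}
    (h : ∀ z, ev μ z = ev ν z) : μ = ν := LinearMap.ext h

/-- an element of `s^{-n} #Q` -/
def ofDual {Q : CDGA.{u}} {n p : ℤ} (f : Q.A (n - p) →ₗ[ℚ] ℚ) : (shiftedDual Q n).M p := f

theorem ev_ofDual {Q : CDGA.{u}} {n p : ℤ} (f : Q.A (n - p) →ₗ[ℚ] ℚ) (z : Q.A (n - p)) :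
    ev (ofDual f) z = f z := rfl

variable {Q : CDGA.{u}} {n : ℤ} (Ψ : BalancedMap (shiftedDual Q n))

/-- If a cocycle of the cone multiplies all cocycles of `Q` of complementary degree to
coboundaries, it is cohomologous to a cocycle of `Q`. -/
theorem exists_of_mul_mem_B {m p : ℤ} (hm : m + 1 = n) (β : (cone Ψ).A (p + 1))
    (hβ : β ∈ (cone Ψ).Z (p + 1))
    (h : ∀ {i : ℤ} (hi : (p + 1) + i = m) (q : Q.A i), q ∈ Q.Z i →
      (cone Ψ).mul hi β (inc Ψ q) ∈ (cone Ψ).B m) :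
    ∃ q ∈ Q.Z (p + 1), β - inc Ψ q ∈ (cone Ψ).B (p + 1) := by
  have key : ∀ q : Q.A (n - (p + 1 + 1)),
      Q.dL (show n - (p + 1 + 1) + 1 = n - (p + 1) by ring) q = 0 → ev (c2 Ψ β) q = 0 := by
    intro q hq
    have h1 := h (show (p + 1) + (n - (p + 1 + 1)) = m by omega) q ((CDGA.mem_Z _).2 hq)
    obtain ⟨m', hm'⟩ : ∃ m' : ℤ, m' + 1 = m := ⟨m - 1, by ring⟩
    rw [CDGA.mem_B hm'] at h1
    obtain ⟨y, hy⟩ := h1
    have h2 := congrArg (c2 Ψ) hy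
    rw [c2_d, c2_mul, c2_inc, c1_inc, DGMod.act_zero, smul_zero, zero_add] at h2
    have h3 := congrArg (fun μ => ev μ (Q.deg (show 0 = n - (m + 1) by omega) Q.one)) h2
    beta_reduce at h3
    rw [ev_neg, ev_d, CDGA.d_one_deg, map_zero, mul_zero, neg_zero, neg_zero, ev_smul,
      ev_smul, ev_act, CDGA.mul_one_deg _ _ rfl, CDGA.deg_rfl] at h3
    have h4 := h3.symm
    simpa [sgn_ne_zero, mul_eq_zero] using h4
  obtain ⟨y, hy⟩ := exists_factor (Q.dL (show n - (p + 1 + 1) + 1 = n - (p + 1) by ring))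
    (ev (c2 Ψ β)) key
  let μ : (shiftedDual Q n).M (p + 1) := ofDual (sgn (p + 1) • y)
  have hμ : c2 Ψ β = -(shiftedDual Q n).d (show p + 1 + 1 = p + 1 + 1 from rfl) μ := by
    refine ev_ext fun z => ?_
    rw [ev_neg, ev_d, ev_ofDual, neg_neg]
    have h5 : (sgn (p + 1) • y) (Q.d (show n - (p + 1 + 1) + 1 = n - (p + 1) by ring) z) =
      sgn (p + 1) * ev (c2 Ψ β) z := by
      rw [← hy]
      rfl
    rw [h5, ← mul_assoc]
    rcases sgn_cases (p + 1) with h | h <;> rw [h] <;> ring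
  have he : (cone Ψ).d rfl (mkC Ψ 0 μ) = mkC Ψ (Ψ.Ψ rfl μ) (c2 Ψ β) := by
    refine cone_ext Ψ ?_ ?_
    · rw [c1_d, c1_mkC, c2_mkC, CDGA.d_zero, zero_add, c1_mkC]
    · exact hμ.symm
  have heZ : (cone Ψ).d rfl (mkC Ψ 0 μ) ∈ (cone Ψ).Z (p + 1) := CDGA.d_mem_Z rfl _
  have hsub : inc Ψ (c1 Ψ β - Ψ.Ψ rfl μ) = β - (cone Ψ).d rfl (mkC Ψ 0 μ) := by
    rw [he]
    refine cone_ext Ψ rfl ?_
    rw [c2_sub, c2_mkC, sub_self, c2_inc]
  refine ⟨c1 Ψ β - Ψ.Ψ rfl μ, ?_, ?_⟩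
  · have hZ : inc Ψ (c1 Ψ β - Ψ.Ψ rfl μ) ∈ (cone Ψ).Z (p + 1) := by
      rw [hsub]
      exact Submodule.sub_mem _ hβ heZ
    rw [mem_cone_Z, c1_inc, c2_inc, Ψ_zero, add_zero] at hZ
    exact (CDGA.mem_Z rfl).2 hZ.1
  · rw [hsub]
    exact (CDGA.mem_B rfl).2 ⟨mkC Ψ 0 μ, (sub_sub_cancel _ _).symm⟩

/-- If the top cohomology `H^m` of the cone is one-dimensional and the unit is nonzero in `H^0`,
then the cocycles of `Q` of degree `m` become coboundaries in the cone. -/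
theorem inc_top_mem_B {m : ℤ} (hm : m + 1 = n) (h1 : (cone Ψ).one ∉ (cone Ψ).B 0)
    (hgen : ∀ x y : (cone Ψ).H m, x ≠ 0 → ∃ c : ℚ, y = c • x) (q : Q.A m) (hq : q ∈ Q.Z m) :
    inc Ψ q ∈ (cone Ψ).B m := by
  by_contra hcon
  apply h1
  -- the class of `q` is nonzero
  have hq0 : (cone Ψ).cls (inc Ψ q) (inc_mem_Z Ψ hq) ≠ 0 := fun h => hcon (CDGA.cls_eq_zero.1 h)
  set o : Q.A (n - (m + 1)) := Q.deg (show 0 = n - (m + 1) by omega) Q.one with ho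
  -- cocycles in degree `m` have second components vanishing on `1`
  have step1 : ∀ x : (cone Ψ).A m, x ∈ (cone Ψ).Z m → ev (c2 Ψ x) o = 0 := by
    intro x hx
    obtain ⟨c, hc⟩ := hgen _ ((cone Ψ).cls x hx) hq0
    rw [CDGA.cls_smul, CDGA.cls_eq] at hc
    obtain ⟨m', hm'⟩ : ∃ m' : ℤ, m' + 1 = m := ⟨m - 1, by ring⟩
    rw [CDGA.mem_B hm'] at hc
    obtain ⟨y, hy⟩ := hc
    have h2 := congrArg (c2 Ψ) hy
    rw [c2_d, c2_sub, c2_smul, c2_inc, smul_zero, sub_zero] at h2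
    rw [← h2, ev_neg, ev_d, ho, CDGA.d_one_deg, map_zero, mul_zero, neg_zero, neg_zero]
  -- the functional `y` on `Q^{m+1}`
  let K : Submodule ℚ (DualM Q n (m + 1)) :=
    { carrier := {x | dualD (show m + 1 + 1 = m + 1 + 1 from rfl) x = 0}
      add_mem' := fun {a b} ha hb => by
        change dualD _ (a + b) = 0
        rw [dualD_add, ha, hb, add_zero]
      zero_mem' := (shiftedDual Q n).d_zero rfl
      smul_mem' := fun c a ha => by
        change dualD _ (c • a) = 0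
        rw [dualD_smul, ha, smul_zero] }
  let ΨK : DualM Q n (m + 1) →ₗ[ℚ] Q.A (m + 1) := Ψ.ΨL rfl
  let f : (Q.A m × K) →ₗ[ℚ] Q.A (m + 1) :=
    (Q.dL (show m + 1 = m + 1 from rfl)).coprod (ΨK ∘ₗ K.subtype)
  let g : Module.Dual ℚ (Q.A m × K) :=
    { toFun := fun v => v.2.1 o
      map_add' := fun v w => rfl
      map_smul' := fun c v => rfl }
  obtain ⟨y, hy⟩ := exists_factor f g (by
    intro v hv
    have hv2 : (shiftedDual Q n).d (show m + 1 + 1 = m + 1 + 1 from rfl) (ofDual v.2.1) = 0 :=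
      v.2.2
    have hv' : Q.d (show m + 1 = m + 1 from rfl) v.1 + Ψ.Ψ rfl (ofDual v.2.1) = 0 := hv
    exact step1 (mkC Ψ v.1 (ofDual v.2.1)) ((mem_cone_Z Ψ).2 ⟨hv', hv2⟩))
  have hyd : ∀ a : Q.A m, y (Q.d rfl a) = 0 := by
    intro a
    have h2 := hy (a, 0)
    have h3 : f (a, 0) = Q.d rfl a := by
      simp only [f, LinearMap.coprod_apply, map_zero, add_zero]
      rfl
    rw [h3] at h2
    exact h2
  have hyΨ : ∀ x : (shiftedDual Q n).M (m + 1),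
      (shiftedDual Q n).d (show m + 1 + 1 = m + 1 + 1 from rfl) x = 0 →
      y (Ψ.Ψ rfl x) = ev x o := by
    intro x hx
    have h2 := hy (0, ⟨x, hx⟩)
    have h3 : f (0, ⟨x, hx⟩) = Ψ.Ψ rfl x := by
      simp only [f, LinearMap.coprod_apply, map_zero, zero_add]
      rfl
    rw [h3] at h2
    exact h2
  -- the functional `y` as an element `w` of degree `0` of `s^{-n} #Q`
  obtain ⟨e, he⟩ : ∃ e : ℤ, e + 1 = 0 := ⟨-1, by norm_num⟩
  let w : (shiftedDual Q n).M (e + 1) :=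
    ofDual (y ∘ₗ Q.deg (show n - (e + 1) = m + 1 by omega))
  have hw : ∀ z, ev w z = y (Q.deg (show n - (e + 1) = m + 1 by omega) z) := fun z => rfl
  have hwd : ∀ {j : ℤ} (h : e + 1 + 1 = j), (shiftedDual Q n).d h w = 0 := by
    intro j h
    subst h
    refine ev_ext fun z => ?_
    rw [ev_d, hw, CDGA.deg_d _ _ (show n - (e + 1 + 1) + 1 = m + 1 by omega)]
    have := hyd (Q.deg (show n - (e + 1 + 1) = m by omega) z)
    rw [CDGA.d_deg _ _ (show n - (e + 1 + 1) + 1 = m + 1 by omega)] at this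
    rw [this, mul_zero, neg_zero, ev_zero]
  obtain ⟨c, hc0, hc⟩ : ∃ c : ℚ, c ≠ 0 ∧ ∀ x : (shiftedDual Q n).M (m + 1),
      (shiftedDual Q n).d (show m + 1 + 1 = m + 1 + 1 from rfl) x = 0 →
      ev x o = c * ev x (Ψ.Ψ (show e + 1 = n - (m + 1) by omega) w) := by
    set s1 : ℚ := sgn ((m + 1) * (e + 1)) with hs1
    have hs1' : s1 ≠ 0 := sgn_ne_zero _
    refine ⟨s1⁻¹ * (s1 * sgn ((e + 1) * (m + 1))),
      mul_ne_zero (inv_ne_zero hs1') (mul_ne_zero hs1' (sgn_ne_zero _)), fun x hx => ?_⟩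
    have hb := Ψ.balanced (show (m + 1) + (e + 1) = m + 1 by omega)
      (show (e + 1) + (m + 1) = m + 1 by omega) x w
    have hb' := congrArg (fun μ => ev μ o) hb
    beta_reduce at hb'
    have hdeg : Q.deg (show e + 1 = n - (m + 1) by omega) (Ψ.Ψ rfl w) =
        Ψ.Ψ (show e + 1 = n - (m + 1) by omega) w := by
      generalize_proofs h
      revert h
      generalize n - (m + 1) = t
      intro h
      subst h
      rfl
    rw [ev_smul, ev_act, ev_act, hw, ho, CDGA.mul_one_deg _ _ (show m + 1 = n - (e + 1) by omega),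
      CDGA.mul_one_deg _ _ (show e + 1 = n - (m + 1) by omega), CDGA.deg_deg, CDGA.deg_rfl,
      hyΨ x hx, hdeg, ← hs1] at hb'
    rw [mul_assoc, mul_assoc s1, ← hb', inv_mul_cancel_left₀ hs1']
  -- hence the unit of `Q` is cohomologous to `c Ψ(w)`
  obtain ⟨a, ha⟩ : ∃ a : Q.A (n - (m + 1 + 1)),
      Q.dL (show n - (m + 1 + 1) + 1 = n - (m + 1) by ring) a =
      o - c • Ψ.Ψ (show e + 1 = n - (m + 1) by omega) w := by
    rw [← LinearMap.mem_range, ← Subspace.forall_mem_dualAnnihilator_apply_eq_zero_iff]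
    intro φ hφ
    rw [Submodule.mem_dualAnnihilator] at hφ
    have h6 := hc (ofDual φ) (ev_ext fun z => by
      rw [ev_d, ev_ofDual]
      have h7 : φ (Q.d (show n - (m + 1 + 1) + 1 = n - (m + 1) by ring) z) = 0 :=
        hφ _ ⟨z, rfl⟩
      rw [h7, mul_zero, neg_zero, ev_zero])
    rw [map_sub, map_smul, smul_eq_mul, sub_eq_zero]
    exact h6
  -- conclusion
  rw [CDGA.mem_B he]
  refine ⟨c • mkC Ψ 0 w + mkC Ψ (Q.deg (show n - (m + 1 + 1) = e by omega) a) 0, ?_⟩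
  have hdeg : Q.deg (show n - (m + 1) = 0 by omega)
      (Q.d (show n - (m + 1 + 1) + 1 = n - (m + 1) by ring) a) =
      Q.d he (Q.deg (show n - (m + 1 + 1) = e by omega) a) := by
    rw [CDGA.deg_d _ _ (show n - (m + 1 + 1) + 1 = 0 by omega), CDGA.d_deg]
  have ha' : Q.d (show n - (m + 1 + 1) + 1 = n - (m + 1) by ring) a =
      o - c • Ψ.Ψ (show e + 1 = n - (m + 1) by omega) w := ha
  have hΨw : Q.deg (show n - (m + 1) = 0 by omega)
      (Ψ.Ψ (show e + 1 = n - (m + 1) by omega) w) = Ψ.Ψ he w := by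
    generalize_proofs h h'
    revert h h'
    generalize n - (m + 1) = t
    intro h h'
    subst h
    rfl
  rw [ha', map_sub, map_smul, ho, CDGA.deg_deg, CDGA.deg_rfl, hΨw] at hdeg
  refine cone_ext Ψ ?_ ?_
  · rw [c1_d, c1_add, c2_add, c1_smul, c2_smul, c1_mkC, c1_mkC, c2_mkC, c2_mkC, smul_zero,
      zero_add, add_zero, Ψ_smul, ← hdeg]
    change Q.one - c • Ψ.Ψ he w + c • Ψ.Ψ he w = Q.one
    abel
  · rw [c2_d, c2_add, c2_smul, c2_mkC, c2_mkC, add_zero, (shiftedDual Q n).d_smul, hwd, smul_zero,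
      neg_zero]
    rfl

end Pool.Agent.Lib.MP_43ef35_gt
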