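import Pool.Agent.Lib.MP_43ef35_gt.Transport

/-!
# dg ideals and quotients of CDGAs; surjections with contractible kernel
-/

set_option autoImplicit false

namespace Pool.Agent.Lib.MP_43ef35_gt

universe u

/-- A dg ideal of a CDGA. -/
structure DGIdeal (T : CDGA.{u}) where
  /-- the component of degree `i` -/
  I : ∀ i : ℤ, Submodule ℚ (T.A i)
  mul_mem : ∀ {i j k : ℤ} (h : i + j = k) (a : T.A i) {b : T.A j}, b ∈ I j → T.mul h a b ∈ I k
  d_mem : ∀ {i j : ℤ} (h : i + 1 = j) {a : T.A i}, a ∈ I i → T.d h a ∈ I j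

theorem DGIdeal.mul_mem' {T : CDGA.{u}} (N : DGIdeal T) {i j k : ℤ} (h : i + j = k) {a : T.A i}
    (b : T.A j) (ha : a ∈ N.I i) : T.mul h a b ∈ N.I k := by
  rw [T.mul_comm h (by omega)]
  exact Submodule.smul_mem _ _ (N.mul_mem _ b ha)

/-- multiplication as a bilinear map -/
def CDGA.mulL (T : CDGA.{u}) {i j k : ℤ} (h : i + j = k) : T.A i →ₗ[ℚ] T.A j →ₗ[ℚ] T.A k :=
  LinearMap.mk₂ ℚ (fun a b => T.mul h a b) (fun a a' b => T.add_mul h a a' b)
    (fun c a b => T.smul_mul h c a b) (fun a b b' => CDGA.mul_add h a b b')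
    (fun c a b => CDGA.mul_smul h c a b)

theorem CDGA.mulL_apply (T : CDGA.{u}) {i j k : ℤ} (h : i + j = k) (a : T.A i) (b : T.A j) :
    T.mulL h a b = T.mul h a b := rfl

/-- the product of the quotient -/
def quoMul {T : CDGA.{u}} (N : DGIdeal T) {i j k : ℤ} (h : i + j = k) :
    (T.A i ⧸ N.I i) →ₗ[ℚ] (T.A j ⧸ N.I j) →ₗ[ℚ] (T.A k ⧸ N.I k) :=
  Submodule.liftQ (N.I i)
    { toFun := fun a => Submodule.mapQ (N.I j) (N.I k) (T.mulL h a)
        (fun b hb => N.mul_mem h a hb)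
      map_add' := fun a a' => by
        ext b
        exact congrArg (Submodule.Quotient.mk (p := N.I k)) (T.add_mul h a a' b)
      map_smul' := fun c a => by
        ext b
        exact congrArg (Submodule.Quotient.mk (p := N.I k)) (T.smul_mul h c a b) }
    (fun a ha => by
      rw [LinearMap.mem_ker]
      ext b
      exact (Submodule.Quotient.mk_eq_zero _).2 (N.mul_mem' h b ha))

/-- the class in the quotient -/
def qmk {T : CDGA.{u}} (N : DGIdeal T) {i : ℤ} (a : T.A i) : T.A i ⧸ N.I i :=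
  Submodule.Quotient.mk a

theorem quoMul_mk {T : CDGA.{u}} (N : DGIdeal T) {i j k : ℤ} (h : i + j = k) (a : T.A i)
    (b : T.A j) : quoMul N h (qmk N a) (qmk N b) = qmk N (T.mul h a b) := rfl

/-- the differential of the quotient -/
def quoD {T : CDGA.{u}} (N : DGIdeal T) {i j : ℤ} (h : i + 1 = j) :
    (T.A i ⧸ N.I i) →ₗ[ℚ] (T.A j ⧸ N.I j) :=
  Submodule.mapQ (N.I i) (N.I j) (T.dL h) (fun _ hb => N.d_mem h hb)

theorem quoD_mk {T : CDGA.{u}} (N : DGIdeal T) {i j : ℤ} (h : i + 1 = j) (a : T.A i) :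
    quoD N h (qmk N a) = qmk N (T.d h a) := rfl

theorem qmk_surj {T : CDGA.{u}} (N : DGIdeal T) {i : ℤ} (x : T.A i ⧸ N.I i) :
    ∃ a, qmk N a = x := Submodule.Quotient.mk_surjective _ x

theorem qmk_add {T : CDGA.{u}} (N : DGIdeal T) {i : ℤ} (a b : T.A i) :
    qmk N (a + b) = qmk N a + qmk N b := rfl

theorem qmk_smul {T : CDGA.{u}} (N : DGIdeal T) {i : ℤ} (c : ℚ) (a : T.A i) :
    qmk N (c • a) = c • qmk N a := rfl

theorem qmk_eq {T : CDGA.{u}} (N : DGIdeal T) {i : ℤ} {a b : T.A i} :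
    qmk N a = qmk N b ↔ a - b ∈ N.I i := Submodule.Quotient.eq _

/-- The quotient of a CDGA by a dg ideal. -/
def quo {T : CDGA.{u}} (N : DGIdeal T) : CDGA.{u} where
  A i := T.A i ⧸ N.I i
  one := qmk N T.one
  mul h a b := quoMul N h a b
  d h a := quoD N h a
  add_mul h a a' b := by rw [map_add, LinearMap.add_apply]
  smul_mul h c a b := by rw [map_smul, LinearMap.smul_apply]
  one_mul {i} h a := by
    obtain ⟨a, rfl⟩ := qmk_surj N a
    rw [quoMul_mk, T.one_mul]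
  mul_assoc {i j k ij jk l} h₁ h₂ h₃ h₄ a b c := by
    obtain ⟨a, rfl⟩ := qmk_surj N a
    obtain ⟨b, rfl⟩ := qmk_surj N b
    obtain ⟨c, rfl⟩ := qmk_surj N c
    simp only [quoMul_mk]
    rw [T.mul_assoc h₁ h₂ h₃ h₄]
  mul_comm {i j k} h h' a b := by
    obtain ⟨a, rfl⟩ := qmk_surj N a
    obtain ⟨b, rfl⟩ := qmk_surj N b
    rw [quoMul_mk, quoMul_mk, T.mul_comm h h', qmk_smul]
  d_add h a a' := map_add _ _ _
  d_smul h c a := map_smul _ _ _
  d_d h h' a := by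
    obtain ⟨a, rfl⟩ := qmk_surj N a
    rw [quoD_mk, quoD_mk, T.d_d]
    rfl
  leibniz {i j k i' j' k'} h hi hj hk h₁ h₂ a b := by
    obtain ⟨a, rfl⟩ := qmk_surj N a
    obtain ⟨b, rfl⟩ := qmk_surj N b
    simp only [quoMul_mk, quoD_mk]
    rw [T.leibniz h hi hj hk h₁ h₂, qmk_add, qmk_smul]

/-- the quotient map -/
def quoHom {T : CDGA.{u}} (N : DGIdeal T) : Hom T (quo N) where
  f i := (N.I i).mkQ
  map_one := rfl
  map_mul _ _ _ := rfl
  map_d _ _ := rfl

theorem quo_mul_mk {T : CDGA.{u}} (N : DGIdeal T) {i j k : ℤ} (h : i + j = k) (a : T.A i)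
    (b : T.A j) : (quo N).mul h (qmk N a : (quo N).A i) (qmk N b : (quo N).A j) =
      (qmk N (T.mul h a b) : (quo N).A k) := rfl

theorem quo_d_mk {T : CDGA.{u}} (N : DGIdeal T) {i j : ℤ} (h : i + 1 = j) (a : T.A i) :
    (quo N).d h (qmk N a : (quo N).A i) = (qmk N (T.d h a) : (quo N).A j) := rfl

/-- A surjection of CDGAs is a quasi-isomorphism if every cocycle of its kernel is a coboundary of
the kernel. -/
theorem isQuasiIso_of_surj {X Y : CDGA.{u}} (φ : Hom X Y)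
    (hs : ∀ (i : ℤ) (y : Y.A i), ∃ x, φ.f i x = y)
    (hk : ∀ {i j : ℤ} (h : i + 1 = j) (x : X.A j), φ.f j x = 0 → X.d rfl x = 0 →
      ∃ z : X.A i, φ.f i z = 0 ∧ X.d h z = x) : φ.IsQuasiIso := by
  intro i
  constructor
  · intro a ha hB
    have hi : (i - 1) + 1 = i := by ring
    obtain ⟨b, hb⟩ := (CDGA.mem_B hi).1 hB
    obtain ⟨b', rfl⟩ := hs (i - 1) b
    have h0 : φ.f i (a - X.d hi b') = 0 := by
      rw [map_sub, φ.map_d, hb, sub_self]
    have hd : X.d rfl (a - X.d hi b') = 0 := by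
      have h1 : a - X.d hi b' ∈ X.Z i := Submodule.sub_mem _ ha (CDGA.d_mem_Z hi b')
      exact (CDGA.mem_Z rfl).1 h1
    obtain ⟨z, _, hz⟩ := hk hi _ h0 hd
    refine (CDGA.mem_B hi).2 ⟨z + b', ?_⟩
    rw [X.d_add, hz, sub_add_cancel]
  · intro b hb
    obtain ⟨b', rfl⟩ := hs i b
    have h0 : φ.f (i + 1) (X.d rfl b') = 0 := by
      rw [φ.map_d]
      exact (CDGA.mem_Z rfl).1 hb
    obtain ⟨z, hz0, hz⟩ := hk (rfl : i + 1 = i + 1) (X.d rfl b') h0 (X.d_d _ _ _)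
    refine ⟨b' - z, ?_, ?_⟩
    · rw [CDGA.mem_Z rfl]
      have h1 : X.d rfl (b' - z) = X.d rfl b' - X.d rfl z := by
        have := map_sub (X.dL (rfl : i + 1 = i + 1)) b' z
        exact this
      rw [h1, hz, sub_self]
    · rw [map_sub, hz0, sub_zero, sub_self]
      exact Submodule.zero_mem _

end Pool.Agent.Lib.MP_43ef35_gt
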