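import Pool.Agent.Lib.MP_43ef35_gt.P4

/-!
# The map `Γ → cone` is a quasi-isomorphism under duality in cohomology
-/

set_option autoImplicit false

namespace Pool.Agent.Lib.MP_43ef35_gt

universe u

theorem CDGA.d_sub' {X : CDGA.{u}} {i j : ℤ} (h : i + 1 = j) (a b : X.A i) :
    X.d h (a - b) = X.d h a - X.d h b := map_sub (X.dL h) a b

theorem CDGA.sub_mul' {X : CDGA.{u}} {i j k : ℤ} (h : i + j = k) (a a' : X.A i) (b : X.A j) :
    X.mul h (a - a') b = X.mul h a b - X.mul h a' b := by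
  have e1 := map_sub (X.mulL h) a a'
  have e2 := congrArg (fun g => g b) e1
  simpa only [LinearMap.sub_apply, CDGA.mulL_apply] using e2

theorem CDGA.mul_sub' {X : CDGA.{u}} {i j k : ℤ} (h : i + j = k) (a : X.A i) (b b' : X.A j) :
    X.mul h a (b - b') = X.mul h a b - X.mul h a b' := map_sub (X.mulL h a) b b'

namespace LData

variable {A T : CDGA.{u}} {m n : ℤ} (D : LData A T m n)

/-- injectivity of `H(J) → H(#(A/J))`, tested on cocycles of `A` -/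
def Q1 : Prop := ∀ {i' i j : ℤ} (hi : i' + 1 = i) (h : i + j = m) {w : A.A i}, w ∈ D.J.I i →
  A.d rfl w = 0 → (∀ b : A.A j, A.d rfl b = 0 → D.ε (A.mul h w b) = 0) →
  ∃ v ∈ D.J.I i', A.d hi v = w

/-- surjectivity of `H(J) → H(#(A/J))` -/
def Q2 : Prop := ∀ {i j j' j'' : ℤ} (h : i + j = m) (hj' : j' + 1 = j) (hj : j + 1 = j'')
  (f : A.A j →ₗ[ℚ] ℚ), (∀ b ∈ D.J.I j, f b = 0) → (∀ c : A.A j', f (A.d hj' c) = 0) →
  ∃ w ∈ D.J.I i, A.d rfl w = 0 ∧ ∃ g : A.A j'' →ₗ[ℚ] ℚ, (∀ b ∈ D.J.I j'', g b = 0) ∧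
    ∀ b, f b = D.ε (A.mul h w b) + g (A.d hj b)

theorem evx_d {i j : ℤ} (h : i + 1 = j) (x : (shiftedDual D.Q n).M i) (q : T.A (n - j)) :
    D.evx ((shiftedDual D.Q n).d h x) q =
      -(sgn i * D.evx x (T.d (show (n - j) + 1 = n - i by omega) q)) := rfl

theorem evx_sub {p : ℤ} (x y : (shiftedDual D.Q n).M p) (q : T.A (n - p)) :
    D.evx (x - y) q = D.evx x q - D.evx y q := by
  change ev (x - y) (qmk D.N q : D.Q.A (n - p)) = _
  have h : x = (x - y) + y := by abel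
  have h1 := congrArg (fun z => D.evx z q) h
  have h2 : D.evx ((x - y) + y) q = D.evx (x - y) q + D.evx y q := rfl
  have h3 : D.evx x q = D.evx (x - y) q + D.evx y q := h1.trans h2
  exact (sub_eq_of_eq_add h3).symm

theorem evx_smul {p : ℤ} (c : ℚ) (x : (shiftedDual D.Q n).M p) (q : T.A (n - p)) :
    D.evx (c • x) q = c * D.evx x q := rfl

theorem evx_zero {p : ℤ} (q : T.A (n - p)) : D.evx (0 : (shiftedDual D.Q n).M p) q = 0 := rfl

/-- a functional vanishing on `I` as an element of `s^{-n} #Q` -/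
def An {p : ℤ} (g : T.A (n - p) →ₗ[ℚ] ℚ) (hg : ∀ q ∈ D.I.I (n - p), g q = 0) :
    (shiftedDual D.Q n).M p :=
  ofDual (Submodule.liftQ (D.N.I (n - p)) g (fun q hq => hg q hq.1))

theorem evx_An {p : ℤ} (g : T.A (n - p) →ₗ[ℚ] ℚ) (hg : ∀ q ∈ D.I.I (n - p), g q = 0)
    (q : T.A (n - p)) : D.evx (D.An g hg) q = g q := rfl

theorem psi_zero {p : ℤ} {x : (shiftedDual D.Q n).M p} (hx : ∀ q ∈ D.I.I (n - p), D.evx x q = 0) :
    D.psi x = 0 := by
  have h : D.Rep x 0 := ⟨Submodule.zero_mem _, fun q hq => by rw [T.zero_mul, map_zero, hx q hq]⟩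
  rw [D.psi_eq h]
  rfl

theorem XG_sub {p : ℤ} (x y : D.MM p) : D.XG (x - y) = D.XG x - D.XG y := by
  have h := D.XG_add (x - y) y
  rw [sub_add_cancel] at h
  rw [h, add_sub_cancel_right]

theorem XG_neg {p : ℤ} (x : D.MM p) : D.XG (-x) = -D.XG x := by
  have h := D.XG_smul (-1) x
  rwa [neg_one_smul, neg_one_smul] at h

theorem MGd_sub {X : CDGA.{u}} (M : DGMod X) {i j : ℤ} (h : i + 1 = j) (x y : M.M i) :
    M.d h (x - y) = M.d h x - M.d h y := by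
  rw [sub_eq_add_neg, M.d_add, M.d_neg, sub_eq_add_neg]

/-- lift of a cocycle of `A` modulo `J`: its differential is in `I` -/
theorem lift_cocycle {j : ℤ} {b : A.A j} (hb : A.d rfl b = 0) {t : T.A j}
    (ht : D.toA.f j t - b ∈ D.J.I j) {j' : ℤ} (h : j + 1 = j') : T.d h t ∈ D.I.I j' := by
  subst h
  rw [mem_I, D.toA.map_d]
  have h1 : A.d rfl (D.toA.f j t) = A.d rfl (D.toA.f j t - b) := by
    rw [CDGA.d_sub', hb, sub_zero]
  rw [h1]
  exact D.J.d_mem _ ht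

theorem eps_lift {i j : ℤ} (h : i + j = m) {w : A.A i} (hw : w ∈ D.J.I i) {b : A.A j} {t : T.A j}
    (ht : D.toA.f j t - b ∈ D.J.I j) :
    D.ε (A.mul h w (D.toA.f j t)) = D.ε (A.mul h w b) := by
  rw [← sub_eq_zero, ← map_sub, ← CDGA.mul_sub', D.JJ h hw ht, map_zero]

theorem GC_quasiIso2 (q1 : D.Q1) (q2 : D.Q2) : D.GC.IsQuasiIso := by
  intro i
  obtain ⟨l, rfl⟩ : ∃ l, i = l + 1 := ⟨i - 1, by ring⟩
  constructor
  · -- injectivity
    intro a ha hB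
    obtain ⟨y, hy⟩ := (CDGA.mem_B (rfl : l + 1 = l + 1)).1 hB
    obtain ⟨q, hq⟩ := qmk_surj D.N (c1 D.Ψ y)
    obtain ⟨β, hβ⟩ := D.exists_Rep (c2 D.Ψ y)
    let x0 : D.MM (l + 1) := D.mkM β hβ.1 0 (Submodule.zero_mem _)
    let γ : (shiftedDual D.Q n).M (l + 1) := c2 D.Ψ y - D.XG x0
    have hγ : ∀ q ∈ D.I.I (n - (l + 1)), D.evx γ q = 0 := by
      intro q hq
      rw [evx_sub, ← hβ.2 q hq, ← (D.XG_Rep x0).2 q hq]
      exact sub_self _
    let g0 : (cone D.PG).A l := D.mkG q x0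
    have hGC0 : y = D.GC.f l g0 + mkC D.Ψ 0 γ := by
      refine cone_ext D.Ψ ?_ ?_
      · have h1 : c1 D.Ψ (D.GC.f l g0 + mkC D.Ψ 0 γ) = c1 D.Ψ (D.GC.f l g0) + 0 := rfl
        rw [h1, add_zero]
        exact hq.symm
      · have h1 : c2 D.Ψ (D.GC.f l g0 + mkC D.Ψ 0 γ) = D.XG x0 + γ := rfl
        rw [h1]
        change c2 D.Ψ y = D.XG x0 + (c2 D.Ψ y - D.XG x0)
        abel
    let a1 : (cone D.PG).A (l + 1) := a - (cone D.PG).d rfl g0
    have ha1 : (cone D.PG).d rfl a1 = 0 := (CDGA.mem_Z rfl).1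
      (Submodule.sub_mem _ ha (CDGA.d_mem_Z rfl g0))
    have hGC1 : D.GC.f (l + 1) a1 = (cone D.Ψ).d rfl (mkC D.Ψ 0 γ) := by
      change D.GC.f (l + 1) (a - (cone D.PG).d rfl g0) = _
      rw [map_sub, D.GC.map_d, ← hy, hGC0, (cone D.Ψ).d_add, add_sub_cancel_left]
    have hN : c1 D.PG a1 ∈ D.N.I (l + 1) := by
      have h1 := congrArg (c1 D.Ψ) hGC1
      have h2 : c1 D.Ψ (D.GC.f (l + 1) a1) = (qmk D.N (c1 D.PG a1) : D.Q.A (l + 1)) := rfl
      have h3 : c1 D.Ψ ((cone D.Ψ).d rfl (mkC D.Ψ 0 γ)) =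
        D.Q.d rfl (0 : D.Q.A l) + D.psi γ := rfl
      rw [h2, h3, D.psi_zero hγ, CDGA.d_zero, add_zero] at h1
      exact (Submodule.Quotient.mk_eq_zero _).1 h1
    have hX1 : D.XG (D.s2 a1) = -(shiftedDual D.Q n).d rfl γ := congrArg (c2 D.Ψ) hGC1
    let w : D.MM (l + 1) := D.mkM (c1 D.PG a1) hN.1 0 (Submodule.zero_mem _)
    let a2 : (cone D.PG).A (l + 1) := a1 - (cone D.PG).d rfl (D.mkG 0 w)
    have ha2 : (cone D.PG).d rfl a2 = 0 := (CDGA.mem_Z rfl).1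
      (Submodule.sub_mem _ ((CDGA.mem_Z rfl).2 ha1) (CDGA.d_mem_Z rfl (D.mkG 0 w)))
    have hc1 : c1 D.PG a2 = 0 := by
      have h1 : c1 D.PG a2 = c1 D.PG a1 - (T.d rfl (0 : T.A l) + c1 D.PG a1) := rfl
      rw [h1, CDGA.d_zero, zero_add, sub_self]
    have hs0 : (D.s2 a2).1.1 = 0 := by
      have h1 := congrArg (c1 D.PG) ha2
      rw [c1_dG, CDGA.deg_rfl, hc1, CDGA.d_zero, zero_add] at h1
      exact h1
    let δ : (shiftedDual D.Q n).M (l + 1) := γ - D.XG w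
    have hδ : ∀ q ∈ D.I.I (n - (l + 1)), D.evx δ q = 0 := by
      intro q hq
      rw [evx_sub, hγ q hq, ← (D.XG_Rep w).2 q hq]
      have h1 : w.1.1 = c1 D.PG a1 := rfl
      rw [h1, hN.2 _ _ q hq, sub_zero]
    have hX2 : D.XG (D.s2 a2) = -(shiftedDual D.Q n).d rfl δ := by
      have h1 : D.s2 a2 = D.s2 a1 - -D.dM rfl w := rfl
      have h2 : (shiftedDual D.Q n).d (rfl : l + 1 + 1 = l + 1 + 1) δ =
        (shiftedDual D.Q n).d rfl γ - (shiftedDual D.Q n).d rfl (D.XG w) := MGd_sub _ _ _ _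
      rw [h1, XG_sub, XG_neg, XG_d, hX1, h2]
      abel
    have hu := (D.s2 a2).2.2
    have hdu : A.d rfl (D.s2 a2).2.1 = 0 := by
      have h1 := congrArg D.s2 ha2
      rw [s2_dG] at h1
      have h2 : (-D.dM (rfl : l + 1 + 1 + 1 = l + 1 + 1 + 1) (D.s2 a2)).2.1 = 0 :=
        congrArg (fun z : D.MM (l + 1 + 1 + 1) => z.2.1) h1
      have h3 : (-D.dM (rfl : l + 1 + 1 + 1 = l + 1 + 1 + 1) (D.s2 a2)).2.1 =
        -(-(A.deg (show l + 1 + 1 = l + 1 + 1 + 1 - 1 by ring) (D.toA.f (l + 1 + 1) (D.s2 a2).1.1) +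
          A.d (show (l + 1 + 1 - 1) + 1 = l + 1 + 1 + 1 - 1 by ring) (D.s2 a2).2.1)) := rfl
      rw [h3, hs0, map_zero, map_zero, zero_add, neg_neg] at h2
      have h4 := congrArg (A.deg (show l + 1 + 1 + 1 - 1 = l + 1 + 1 - 1 + 1 by ring)) h2
      rwa [CDGA.deg_d, map_zero] at h4
    obtain ⟨v, hv, hdv⟩ := q1 (show (l + 1 - 1) + 1 = l + 1 + 1 - 1 by ring)
      (show (l + 1 + 1 - 1) + (n - (l + 1 + 1)) = m by have := D.hn; omega) hu hdu (by
        intro b hb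
        obtain ⟨t, ht⟩ := D.surj _ b
        rw [← D.eps_lift _ hu ht]
        have h1 : D.evx (D.XG (D.s2 a2)) t = D.evx (-(shiftedDual D.Q n).d rfl δ) t := by rw [hX2]
        have h2 : D.evx (-(shiftedDual D.Q n).d rfl δ) t =
          -(-(sgn (l + 1) * D.evx δ (T.d (show (n - (l + 1 + 1)) + 1 = n - (l + 1) by omega) t))) :=
          rfl
        rw [h2, hδ _ (D.lift_cocycle hb ht _), evx_XG, preX_apply, hs0, T.zero_mul, map_zero,
          zero_add] at h1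
        rw [h1]
        ring)
    have ha2' : a2 = (cone D.PG).d rfl (D.mkG 0 (D.mkM 0 (Submodule.zero_mem _) v hv)) := by
      refine D.G_ext ?_ ?_
      · rw [hc1, c1_dG, c1_mkG, CDGA.d_zero, zero_add]
        rfl
      · refine D.MM_ext ?_ ?_
        · rw [hs0]
          change 0 = -(T.d rfl 0)
          rw [CDGA.d_zero, neg_zero]
        · change (D.s2 a2).2.1 = -(-(A.deg _ (D.toA.f (l + 1) 0) +
            A.d (show (l + 1 - 1) + 1 = l + 1 + 1 - 1 by ring) v))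
          rw [map_zero, map_zero, zero_add, neg_neg, hdv]
    refine (CDGA.mem_B (rfl : l + 1 = l + 1)).2
      ⟨g0 + D.mkG 0 w + D.mkG 0 (D.mkM 0 (Submodule.zero_mem _) v hv), ?_⟩
    rw [(cone D.PG).d_add, (cone D.PG).d_add, ← ha2']
    change _ + (a - (cone D.PG).d rfl g0 - (cone D.PG).d rfl (D.mkG 0 w)) = a
    abel
  · -- surjectivity
    intro b hb
    obtain ⟨q, hq⟩ := qmk_surj D.N (c1 D.Ψ b)
    obtain ⟨β0, hβ0⟩ := D.exists_Rep (c2 D.Ψ b)
    have hb' : (cone D.Ψ).d rfl b = 0 := (CDGA.mem_Z rfl).1 hb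
    have hb1 : T.d rfl q + β0 ∈ D.N.I (l + 1 + 1) := by
      have h1 := congrArg (c1 D.Ψ) hb'
      have h2 : c1 D.Ψ ((cone D.Ψ).d rfl b) = D.Q.d rfl (c1 D.Ψ b) + D.psi (c2 D.Ψ b) := rfl
      rw [h2, ← hq, D.psi_eq hβ0] at h1
      exact (Submodule.Quotient.mk_eq_zero _).1 h1
    have hdx : (shiftedDual D.Q n).d rfl (c2 D.Ψ b) = 0 := by
      have h1 := congrArg (c2 D.Ψ) hb'
      exact neg_eq_zero.1 h1
    have hβI : -(T.d rfl q) ∈ D.I.I (l + 1 + 1) := by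
      have h1 : -(T.d rfl q) = β0 - (T.d rfl q + β0) := by abel
      rw [h1]
      exact Submodule.sub_mem _ hβ0.1 hb1.1
    have hβR : D.Rep (c2 D.Ψ b) (-(T.d rfl q)) := by
      refine ⟨hβI, fun r hr => ?_⟩
      have h1 : -(T.d rfl q) = β0 - (T.d rfl q + β0) := by abel
      rw [h1, CDGA.sub_mul', map_sub, hb1.2 _ _ r hr, sub_zero, hβ0.2 r hr]
    let w0 : D.MM (l + 1 + 1) := D.mkM (-(T.d rfl q)) hβI 0 (Submodule.zero_mem _)
    let γ : (shiftedDual D.Q n).M (l + 1 + 1) := c2 D.Ψ b - D.XG w0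
    have hγ : ∀ r ∈ D.I.I (n - (l + 1 + 1)), D.evx γ r = 0 := by
      intro r hr
      rw [evx_sub, ← hβR.2 r hr, ← (D.XG_Rep w0).2 r hr]
      exact sub_self _
    have hdd : T.d rfl (-(T.d rfl q)) = (0 : T.A (l + 1 + 1 + 1)) := by
      rw [← neg_one_smul ℚ (T.d rfl q), T.d_smul, T.d_d, smul_zero]
    let e0 : A.A (l + 1 + 1 + 1 - 1) :=
      A.deg (show l + 1 + 1 = l + 1 + 1 + 1 - 1 by ring) (D.toA.f (l + 1 + 1) (-(T.d rfl q)))
    have he0 : e0 ∈ D.J.I (l + 1 + 1 + 1 - 1) := D.J.deg_mem _ hβI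
    have hde0 : A.d rfl e0 = 0 := by
      change A.d rfl (A.deg _ _) = 0
      rw [CDGA.d_deg _ _ (show l + 1 + 1 + 1 = l + 1 + 1 + 1 - 1 + 1 by ring)]
      have h1 := congrArg (D.toA.f (l + 1 + 1 + 1)) hdd
      rw [D.toA.map_d, map_zero] at h1
      have h2 := congrArg (A.deg (show l + 1 + 1 + 1 = l + 1 + 1 + 1 - 1 + 1 by ring)) h1
      rwa [CDGA.deg_d _ _ (show l + 1 + 1 + 1 = l + 1 + 1 + 1 - 1 + 1 by ring), map_zero] at h2
    obtain ⟨v, hv, hdv⟩ := q1 (show (l + 1 + 1 - 1) + 1 = l + 1 + 1 + 1 - 1 by ring)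
      (show (l + 1 + 1 + 1 - 1) + (n - (l + 1 + 1 + 1)) = m by have := D.hn; omega) he0 hde0 (by
        intro c hc
        obtain ⟨t, ht⟩ := D.surj _ c
        rw [← D.eps_lift _ he0 ht]
        have h1 : D.evx ((shiftedDual D.Q n).d rfl γ) t =
            D.evx ((shiftedDual D.Q n).d rfl (c2 D.Ψ b) - (shiftedDual D.Q n).d rfl (D.XG w0)) t := by
          rw [← MGd_sub]
        rw [evx_d, hγ _ (D.lift_cocycle hc ht _), hdx, evx_sub, evx_zero, ← XG_d, evx_XG,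
          preX_apply] at h1
        have h2 : (D.dM rfl w0).1.1 = 0 := hdd
        have h3 : (D.dM rfl w0).2.1 = -(e0 + A.d (show (l + 1 + 1 - 1) + 1 = l + 1 + 1 + 1 - 1 by
          ring) 0) := rfl
        rw [h2, h3, T.zero_mul, map_zero, CDGA.d_zero, add_zero, ← neg_one_smul ℚ e0, A.smul_mul,
          map_smul, smul_eq_mul] at h1
        linarith)
    let w1 : D.MM (l + 1 + 1) := D.mkM (-(T.d rfl q)) hβI (-v) (Submodule.neg_mem _ hv)
    have hw1 : D.dM (rfl : l + 1 + 1 + 1 = l + 1 + 1 + 1) w1 = 0 := by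
      refine D.MM_ext hdd ?_
      change -(e0 + A.d (show (l + 1 + 1 - 1) + 1 = l + 1 + 1 + 1 - 1 by ring) (-v)) = 0
      rw [← neg_one_smul ℚ v, A.d_smul, hdv, neg_one_smul, add_neg_cancel, neg_zero]
    let a1 : (cone D.PG).A (l + 1) := D.mkG q w1
    have ha1 : (cone D.PG).d rfl a1 = 0 := by
      refine D.G_ext ?_ ?_
      · change T.d rfl q + -(T.d rfl q) = 0
        exact add_neg_cancel _
      · change -D.dM (rfl : l + 1 + 1 + 1 = l + 1 + 1 + 1) w1 = 0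
        rw [hw1, neg_zero]
    let γ1 : (shiftedDual D.Q n).M (l + 1 + 1) := c2 D.Ψ b - D.XG w1
    have hγ1 : ∀ r ∈ D.I.I (n - (l + 1 + 1)), D.evx γ1 r = 0 := by
      intro r hr
      rw [evx_sub, ← hβR.2 r hr, ← (D.XG_Rep w1).2 r hr]
      exact sub_self _
    have hdγ1 : (shiftedDual D.Q n).d (rfl : l + 1 + 1 + 1 = l + 1 + 1 + 1) γ1 = 0 := by
      rw [MGd_sub, hdx, ← XG_d, hw1]
      have h1 : D.XG (0 : D.MM (l + 1 + 1 + 1)) = 0 := by
        have := D.XG_smul 0 (0 : D.MM (l + 1 + 1 + 1))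
        rwa [zero_smul, zero_smul] at this
      rw [h1, sub_zero]
    -- the functional on `A`
    let γ1' : D.Q.A (n - (l + 1 + 1)) →ₗ[ℚ] ℚ := γ1
    have hγ1' : ∀ r, (γ1' ∘ₗ (D.N.I (n - (l + 1 + 1))).mkQ) r = D.evx γ1 r := fun _ => rfl
    obtain ⟨fh, hfh⟩ := exists_factor ((D.J.I (n - (l + 1 + 1))).mkQ ∘ₗ D.toA.f (n - (l + 1 + 1)))
      (γ1' ∘ₗ (D.N.I (n - (l + 1 + 1))).mkQ) (by
        intro r hr
        rw [hγ1']
        refine hγ1 r ?_
        rw [mem_I]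
        exact (Submodule.Quotient.mk_eq_zero _).1 hr)
    have hfh' : ∀ r, (fh ∘ₗ (D.J.I (n - (l + 1 + 1))).mkQ) (D.toA.f (n - (l + 1 + 1)) r) =
      D.evx γ1 r := fun r => hfh r
    have hfJ : ∀ c ∈ D.J.I (n - (l + 1 + 1)), (fh ∘ₗ (D.J.I (n - (l + 1 + 1))).mkQ) c = 0 := by
      intro c hc
      have h3 : (D.J.I (n - (l + 1 + 1))).mkQ c = 0 := (Submodule.Quotient.mk_eq_zero _).2 hc
      exact (congrArg fh h3).trans (map_zero fh)
    obtain ⟨u1, hu1, hdu1, g, hgJ, hg⟩ := q2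
      (show (l + 1 + 1 - 1) + (n - (l + 1 + 1)) = m by have := D.hn; omega)
      (show (n - (l + 1 + 1 + 1)) + 1 = n - (l + 1 + 1) by omega)
      (show (n - (l + 1 + 1)) + 1 = n - (l + 1) by omega)
      (fh ∘ₗ (D.J.I (n - (l + 1 + 1))).mkQ) hfJ (by
        intro c
        obtain ⟨t, ht⟩ := D.surj _ c
        have h1 : A.d (show (n - (l + 1 + 1 + 1)) + 1 = n - (l + 1 + 1) by omega) c =
          D.toA.f _ (T.d (show (n - (l + 1 + 1 + 1)) + 1 = n - (l + 1 + 1) by omega) t) -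
          A.d (show (n - (l + 1 + 1 + 1)) + 1 = n - (l + 1 + 1) by omega)
            (D.toA.f (n - (l + 1 + 1 + 1)) t - c) := by
          rw [CDGA.d_sub', D.toA.map_d]
          abel
        rw [h1, map_sub, hfh', hfJ _ (D.J.d_mem _ ht), sub_zero]
        have h2 : D.evx ((shiftedDual D.Q n).d (rfl : l + 1 + 1 + 1 = l + 1 + 1 + 1) γ1) t = 0 := by
          rw [hdγ1]
          rfl
        rw [evx_d] at h2
        have h3 : sgn (l + 1 + 1) ≠ 0 := sgn_ne_zero _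
        have h4 := neg_eq_zero.1 h2
        exact (mul_eq_zero.1 h4).resolve_left h3)
    let G : (shiftedDual D.Q n).M (l + 1) := D.An (g ∘ₗ D.toA.f (n - (l + 1)))
      (fun r hr => hgJ _ hr)
    have hG : ∀ r ∈ D.I.I (n - (l + 1)), D.evx (sgn (l + 1) • G) r = 0 := by
      intro r hr
      rw [evx_smul, evx_An]
      have h1 : (g ∘ₗ D.toA.f (n - (l + 1))) r = g (D.toA.f (n - (l + 1)) r) := rfl
      rw [h1, hgJ _ hr, mul_zero]
    let z1 : D.MM (l + 1 + 1) := D.mkM 0 (Submodule.zero_mem _) u1 hu1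
    have hz1 : D.dM (rfl : l + 1 + 1 + 1 = l + 1 + 1 + 1) z1 = 0 := by
      refine D.MM_ext (CDGA.d_zero rfl) ?_
      change -(A.deg (show l + 1 + 1 = l + 1 + 1 + 1 - 1 by ring) (D.toA.f (l + 1 + 1) 0) +
        A.d (show (l + 1 + 1 - 1) + 1 = l + 1 + 1 + 1 - 1 by ring) u1) = 0
      have h1 := congrArg (A.deg (show l + 1 + 1 - 1 + 1 = l + 1 + 1 + 1 - 1 by ring)) hdu1
      rw [CDGA.deg_d _ _ (show (l + 1 + 1 - 1) + 1 = l + 1 + 1 + 1 - 1 by ring), map_zero] at h1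
      rw [h1, map_zero, map_zero, add_zero, neg_zero]
    refine ⟨a1 + D.mkG 0 z1, ?_, ?_⟩
    · rw [CDGA.mem_Z rfl, (cone D.PG).d_add, ha1, zero_add]
      refine D.G_ext ?_ ?_
      · change T.d rfl (0 : T.A (l + 1)) + 0 = 0
        rw [CDGA.d_zero, add_zero]
      · change -D.dM (rfl : l + 1 + 1 + 1 = l + 1 + 1 + 1) z1 = 0
        rw [hz1, neg_zero]
    · rw [CDGA.mem_B (rfl : l + 1 = l + 1)]
      refine ⟨mkC D.Ψ 0 (sgn (l + 1) • G), ?_⟩
      refine cone_ext D.Ψ ?_ ?_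
      · have h1 : c1 D.Ψ ((cone D.Ψ).d rfl (mkC D.Ψ 0 (sgn (l + 1) • G))) =
          D.Q.d rfl (0 : D.Q.A l) + D.psi (sgn (l + 1) • G) := rfl
        rw [h1, D.psi_zero hG, CDGA.d_zero, add_zero, map_add]
        have h2 : c1 D.Ψ (b - (D.GC.f (l + 1) a1 + D.GC.f (l + 1) (D.mkG 0 z1))) =
          c1 D.Ψ b - (c1 D.Ψ (D.GC.f (l + 1) a1) + 0) := rfl
        rw [h2, add_zero]
        have h3 : c1 D.Ψ (D.GC.f (l + 1) a1) = c1 D.Ψ b := hq
        rw [h3, sub_self]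
      · have h1 : c2 D.Ψ ((cone D.Ψ).d rfl (mkC D.Ψ 0 (sgn (l + 1) • G))) =
          -(shiftedDual D.Q n).d (rfl : l + 1 + 1 = l + 1 + 1) (sgn (l + 1) • G) := rfl
        have h2 : c2 D.Ψ (b - D.GC.f (l + 1) (a1 + D.mkG 0 z1)) =
          c2 D.Ψ b - D.XG (w1 + z1) := rfl
        rw [h1, h2, XG_add, ← sub_sub]
        refine D.evx_ext fun r => ?_
        have h3 : D.evx (-(shiftedDual D.Q n).d (rfl : l + 1 + 1 = l + 1 + 1)
            (sgn (l + 1) • G)) r = -(-(sgn (l + 1) * (sgn (l + 1) *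
              g (D.toA.f (n - (l + 1)) (T.d (show (n - (l + 1 + 1)) + 1 = n - (l + 1) by omega)
                r))))) := rfl
        rw [h3, evx_sub]
        have h4 : D.evx (c2 D.Ψ b - D.XG w1) r = D.evx γ1 r := rfl
        rw [h4, ← hfh' r, hg, evx_XG, preX_apply]
        have h5 : z1.1.1 = 0 := rfl
        have h6 : z1.2.1 = u1 := rfl
        rw [h5, h6, T.zero_mul, map_zero, zero_add, D.toA.map_d]
        have h7 : sgn (l + 1) * sgn (l + 1) = 1 := by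
          rcases sgn_cases (l + 1) with h | h <;> rw [h] <;> norm_num
        rw [neg_neg, ← mul_assoc, h7, one_mul]
        ring

end LData

end Pool.Agent.Lib.MP_43ef35_gt
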