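import Pool.Agent.Lib.MP_43ef35_gt.P9
import Pool.Agent.Lib.MP_43ef35_gt.P10

/-!
# CDGAs with an ideal that is Lagrangian in cohomology are cones
-/

set_option autoImplicit false

namespace Pool.Agent.Lib.MP_43ef35_gt

universe u

/-- `J J = 0`, `H(J) → H(A)` is injective with Lagrangian image -/
structure HLag (A : CDGA.{u}) (m : ℤ) (ε : A.A m →ₗ[ℚ] ℚ) (J : DGIdeal A) : Prop where
  closed : ∀ {i : ℤ} (h : i + 1 = m) (a : A.A i), ε (A.d h a) = 0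
  pd : ∀ {i j : ℤ} (h : i + j = m) (a : A.A i), A.d rfl a = 0 →
    (∀ b : A.A j, A.d rfl b = 0 → ε (A.mul h a b) = 0) → a ∈ A.B i
  JJ : ∀ {i j k : ℤ} (h : i + j = k) {a : A.A i} {b : A.A j}, a ∈ J.I i → b ∈ J.I j →
    A.mul h a b = 0
  inj : ∀ {i' i : ℤ} (hi : i' + 1 = i) (c : A.A i'), A.d hi c ∈ J.I i →
    ∃ v ∈ J.I i', A.d hi v = A.d hi c
  lag : ∀ {i j : ℤ} (h : i + j = m) (a : A.A i), A.d rfl a = 0 →
    (∀ b ∈ J.I j, A.d rfl b = 0 → ε (A.mul h a b) = 0) →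
    ∃ v ∈ J.I i, A.d rfl v = 0 ∧ a - v ∈ A.B i

section

variable {A : CDGA.{u}} {m : ℤ} {ε : A.A m →ₗ[ℚ] ℚ}

/-- The data of the polynomial forms of a connected CDGA of finite type. -/
noncomputable def polData (hn : A.IsNonneg) (h0 : ∀ a : A.A 0, ∃ c : ℚ, a = c • A.one)
    (hf : ∀ i : ℤ, Module.Finite ℚ (A.A i)) (hm : 1 ≤ m) {J : DGIdeal A} (hJ : HLag A m ε J) :
    LData A (tE (Pol A h0) (polE h0)) m (m + 1) where
  hn := rfl
  ε := ε
  J := J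
  JJ h _ _ ha hb := hJ.JJ h ha hb
  εd := hJ.closed
  toA := tHom (polE h0) (polEv h0)
  surj i a := by
    obtain ⟨f, hf⟩ := polEv_surj h0 hn i a
    refine ⟨(f, 0), ?_⟩
    have h1 : (tHom (polE h0) (polEv h0)).f i (f, 0) = a := hf
    rw [h1, sub_self]
    exact Submodule.zero_mem _
  lam := plam ε ∘ₗ (PP A m).subtype ∘ₗ
    ((Pol A h0).deg (show m + 1 - 1 = m by ring)) ∘ₗ
    LinearMap.snd ℚ ((Pol A h0).A (m + 1)) ((Pol A h0).A (m + 1 - 1))
  stokes t := by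
    have h1 : (Pol A h0).deg (show m + 1 - 1 = m by ring)
        ((tE (Pol A h0) (polE h0)).d rfl t).2 =
        ((polE h0).E m t.1) - (Pol A h0).d (show (m - 1) + 1 = m by ring) t.2 := by
      change (Pol A h0).deg (show m + 1 - 1 = m by ring)
        ((Pol A h0).deg (show m = m + 1 - 1 by ring) ((polE h0).E m t.1) -
          (Pol A h0).d (show (m - 1) + 1 = m + 1 - 1 by ring) t.2) = _
      rw [map_sub, CDGA.deg_deg, CDGA.deg_rfl, CDGA.deg_d]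
    change plam ε ((PP A m).subtype ((Pol A h0).deg (show m + 1 - 1 = m by ring)
        ((tE (Pol A h0) (polE h0)).d rfl t).2)) =
      ε (pev A m ((PP A m).subtype t.1))
    rw [h1]
    change plam ε (pE A m ((PP A m).subtype t.1) -
      pd (show (m - 1) + 1 = m by ring) ((PP A (m - 1)).subtype t.2)) =
      ε (pev A m ((PP A m).subtype t.1))
    have h2 : plam ε (pE A m ((PP A m).subtype t.1)) = ε (pev A m ((PP A m).subtype t.1)) :=
      plam_E hm (Subtype.property (p := fun f => f ∈ PP A m) t.1)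
    have h3 : plam ε (pd (show (m - 1) + 1 = m by ring) ((PP A (m - 1)).subtype t.2)) = 0 :=
      plam_d hJ.closed _ _
    rw [map_sub, h2, h3, sub_zero]
  fin i := by
    have h1 := pol_fin hf i
    have h2 := pol_fin hf (i - 1)
    exact (inferInstance : Module.Finite ℚ (PP A i × PP A (i - 1)))

theorem HLag.rep (hf : ∀ i : ℤ, Module.Finite ℚ (A.A i)) {J : DGIdeal A} (hJ : HLag A m ε J)
    {i j : ℤ} (h : i + j = m) (f : A.A j →ₗ[ℚ] ℚ) (hfB : ∀ b ∈ A.B j, f b = 0) :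
    ∃ w : A.A i, A.d rfl w = 0 ∧ ∀ b, A.d rfl b = 0 → ε (A.mul h w b) = f b := by
  have := hf i
  have := hf j
  let κ : A.Z i →ₗ[ℚ] Module.Dual ℚ (A.Z j) :=
    { toFun := fun a => (ε ∘ₗ A.mulL h a.1) ∘ₗ (A.Z j).subtype
      map_add' := fun a a' => by
        ext b
        change ε (A.mul h (a.1 + a'.1) b.1) = ε (A.mul h a.1 b.1) + ε (A.mul h a'.1 b.1)
        rw [A.add_mul, map_add]
      map_smul' := fun c a => by
        ext b
        change ε (A.mul h (c • a.1) b.1) = c • ε (A.mul h a.1 b.1)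
        rw [A.smul_mul, map_smul] }
  have hκ : ∀ (a : A.Z i) (b : A.Z j), κ a b = ε (A.mul h a.1 b.1) := fun _ _ => rfl
  have hmem : f ∘ₗ (A.Z j).subtype ∈ LinearMap.range κ := by
    rw [← Subspace.dualCoannihilator_dualAnnihilator_eq (W := LinearMap.range κ),
      Submodule.mem_dualAnnihilator]
    intro w hw
    rw [Submodule.mem_dualCoannihilator] at hw
    refine hfB w.1 (hJ.pd (show j + i = m by omega) w.1 ((CDGA.mem_Z rfl).1 w.2) fun b hb => ?_)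
    have h1 := hw _ ⟨⟨b, (CDGA.mem_Z rfl).2 hb⟩, rfl⟩
    rw [hκ] at h1
    rw [eps_comm, h1, mul_zero]
  obtain ⟨w, hw⟩ := hmem
  refine ⟨w.1, (CDGA.mem_Z rfl).1 w.2, fun b hb => ?_⟩
  have := congrArg (fun g => g ⟨b, (CDGA.mem_Z rfl).2 hb⟩) hw
  exact this

theorem HLag.q1 (hn : A.IsNonneg) (h0 : ∀ a : A.A 0, ∃ c : ℚ, a = c • A.one)
    (hf : ∀ i : ℤ, Module.Finite ℚ (A.A i)) (hm : 1 ≤ m) {J : DGIdeal A} (hJ : HLag A m ε J) :
    (polData hn h0 hf hm hJ).Q1 := by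
  intro i' i j hi h w hw hdw H
  have h1 := hJ.pd h w hdw H
  rw [CDGA.mem_B hi] at h1
  obtain ⟨y, hy⟩ := h1
  have hw' : w ∈ J.I i := hw
  rw [← hy] at hw'
  obtain ⟨v, hv, hdv⟩ := hJ.inj hi y hw'
  exact ⟨v, hv, hdv.trans hy⟩

theorem HLag.q2 (hn : A.IsNonneg) (h0 : ∀ a : A.A 0, ∃ c : ℚ, a = c • A.one)
    (hf : ∀ i : ℤ, Module.Finite ℚ (A.A i)) (hm : 1 ≤ m) {J : DGIdeal A} (hJ : HLag A m ε J) :
    (polData hn h0 hf hm hJ).Q2 := by
  intro i j j' j'' h hj' hj f hfJ hfB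
  obtain ⟨w', hw', hw'f⟩ := hJ.rep hf h f (fun b hb => by
    obtain ⟨c, rfl⟩ := (CDGA.mem_B hj').1 hb
    exact hfB c)
  obtain ⟨w, hw, hdw, hwB⟩ := hJ.lag h w' hw' (fun b hb hdb => by
    rw [hw'f b hdb]
    exact hfJ b hb)
  -- products of coboundaries with cocycles
  have hBZ : ∀ x ∈ A.B i, ∀ b : A.A j, A.d rfl b = 0 → ε (A.mul h x b) = 0 := by
    intro x hx b hb
    have h1 := CDGA.mul_mem_B_left h hx ((CDGA.mem_Z rfl).2 hb)
    obtain ⟨y, hy⟩ := (CDGA.mem_B (show (m - 1) + 1 = m by ring)).1 h1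
    rw [← hy, hJ.closed]
  have hwf : ∀ b : A.A j, A.d rfl b = 0 → ε (A.mul h w b) = f b := by
    intro b hb
    have h1 : w = w' - (w' - w) := by abel
    rw [← hw'f b hb, h1, CDGA.sub_mul', map_sub, hBZ _ hwB b hb, sub_zero]
  let f' : A.A j →ₗ[ℚ] ℚ := f - ε ∘ₗ A.mulL h w
  have hf' : ∀ b, f' b = f b - ε (A.mul h w b) := fun _ => rfl
  -- `b ↦ (d b mod J, d b)`
  obtain ⟨gh, hgh⟩ := exists_factor ((J.I j'').mkQ ∘ₗ A.dL hj) f' (by
    intro b hb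
    have h1 : A.d hj b ∈ J.I j'' := (Submodule.Quotient.mk_eq_zero _).1 hb
    obtain ⟨v, hv, hdv⟩ := hJ.inj hj b h1
    have h2 : A.d rfl (b - v) = 0 := by
      subst hj
      rw [CDGA.d_sub', hdv, sub_self]
    have h3 : f' b = f' (b - v) + f' v := by
      rw [← map_add, sub_add_cancel]
    rw [h3, hf', hf', hwf _ h2, sub_self, hfJ v hv, hJ.JJ h hw hv, map_zero, sub_zero, add_zero])
  refine ⟨w, hw, hdw, gh ∘ₗ (J.I j'').mkQ, fun b hb => ?_, fun b => ?_⟩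
  · have h3 : (J.I j'').mkQ b = 0 := (Submodule.Quotient.mk_eq_zero _).2 hb
    exact (congrArg gh h3).trans (map_zero gh)
  · have h1 : (gh ∘ₗ (J.I j'').mkQ) (A.d hj b) = f' b := hgh b
    rw [h1, hf']
    change f b = ε (A.mul h w b) + (f b - ε (A.mul h w b))
    ring

/-- A connected CDGA of finite type with an ideal of square zero that is Lagrangian in cohomology is
quasi-isomorphic to a cone. -/
theorem HLag.cone (hn : A.IsNonneg) (h0 : ∀ a : A.A 0, ∃ c : ℚ, a = c • A.one)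
    (hf : ∀ i : ℤ, Module.Finite ℚ (A.A i)) (hm : 1 ≤ m) {J : DGIdeal A} (hJ : HLag A m ε J)
    (hJ0 : ∀ a ∈ J.I 0, a = 0) (hJt : ∀ (j : ℤ) (a : A.A j), m + 1 ≤ j → a ∈ J.I j) :
    ∃ (Q : CDGA.{u}) (Ψ : BalancedMap (shiftedDual Q (m + 1))),
      Q.IsNonneg ∧ (∀ i, Module.Finite ℚ (Q.A i)) ∧
      (Pool.Agent.Lib.MP_43ef35_gt.cone Ψ).IsNonneg ∧
      QuasiIsomorphic A (Pool.Agent.Lib.MP_43ef35_gt.cone Ψ) := by
  refine ⟨(polData hn h0 hf hm hJ).Q, (polData hn h0 hf hm hJ).Ψ,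
    (polData hn h0 hf hm hJ).Q_nonneg (tpol_nonneg h0), ?_,
    (polData hn h0 hf hm hJ).cone_nonneg (fun a ha => tpol_ker0 h0 a (hJ0 _ ha))
      (tpol_nonneg h0) (fun j a hj => hJt j _ hj),
    (polData hn h0 hf hm hJ).quasiIsomorphic
      ((polData hn h0 hf hm hJ).GC_quasiIso2 (hJ.q1 hn h0 hf hm) (hJ.q2 hn h0 hf hm))⟩
  intro i
  have h1 := (polData hn h0 hf hm hJ).fin i
  exact Module.Finite.of_surjective ((polData hn h0 hf hm hJ).N.I i).mkQ
    (Submodule.mkQ_surjective _)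

end

end Pool.Agent.Lib.MP_43ef35_gt
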