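import Pool.Agent.Lib.MP_43ef35_gt.P11

/-!
# The ideal above the middle degree
-/

set_option autoImplicit false

namespace Pool.Agent.Lib.MP_43ef35_gt

universe u

section

variable {A : CDGA.{u}} {m : ℤ}

/-- the orientation, if everything of degree `m` is closed -/
theorem exists_eps (hA : PoincareDuality A m) (htop : Subsingleton (A.A (m + 1))) :
    ∃ ε : A.A m →ₗ[ℚ] ℚ, (∀ {i : ℤ} (h : i + 1 = m) (a : A.A i), ε (A.d h a) = 0) ∧
      (∀ {i j : ℤ} (h : i + j = m) (a : A.A i), A.d rfl a = 0 →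
        (∀ b : A.A j, A.d rfl b = 0 → ε (A.mul h a b) = 0) → a ∈ A.B i) := by
  obtain ⟨ε, hε⟩ := hA.duality
  have hz : ∀ a : A.A m, A.d (rfl : m + 1 = m + 1) a = 0 := fun a => Subsingleton.elim _ _
  let cl : A.A m →ₗ[ℚ] A.H m :=
    { toFun := fun a => A.cls a (hz a)
      map_add' := fun _ _ => rfl
      map_smul' := fun _ _ => rfl }
  refine ⟨ε ∘ₗ cl, ?_, ?_⟩
  · intro i h a
    have h1 : A.cls (A.d h a) (hz _) = 0 := CDGA.cls_eq_zero.2 ((CDGA.mem_B h).2 ⟨a, rfl⟩)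
    have h2 : (ε ∘ₗ cl) (A.d h a) = ε (A.cls (A.d h a) (hz _)) := rfl
    rw [h2, h1, map_zero]
  · intro i j h a ha H
    exact CDGA.cls_eq_zero.1 (hε h a ha fun b hb => H b hb)

/-- The ideal: everything above degree `m/2 + 1`, a complement `S` of the coboundaries in the next
degree, and `S ⊓ L` in the middle degree. -/
noncomputable def jIdeal (hn : A.IsNonneg) (h0 : ∀ a : A.A 0, ∃ c : ℚ, a = c • A.one)
    (h1 : Odd m ∨ Subsingleton (A.A 1)) (S L : ∀ i : ℤ, Submodule ℚ (A.A i))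
    (hL : ∀ i, L i ≤ A.Z i) : DGIdeal A := by
  classical
  exact
  { I := fun i => if m + 3 ≤ 2 * i then ⊤ else if m + 1 ≤ 2 * i then S i else
      if 2 * i = m then S i ⊓ L i else ⊥
    mul_mem := by
      intro i j k h a b hb
      rcases lt_trichotomy i 0 with hi | hi | hi
      · have := hn i hi
        rw [Subsingleton.elim a 0, CDGA.zero_mul]
        exact Submodule.zero_mem _
      · subst hi
        obtain rfl : j = k := by omega
        obtain ⟨c, rfl⟩ := h0 a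
        rw [A.smul_mul, A.one_mul]
        exact Submodule.smul_mem _ _ hb
      · by_cases c1 : m + 1 ≤ 2 * j
        · rw [if_pos (by omega)]
          exact Submodule.mem_top
        · by_cases c2 : 2 * j = m
          · by_cases c3 : i = 1
            · rcases h1 with h1 | h1
              · exfalso
                obtain ⟨r, hr⟩ := h1
                omega
              · subst c3
                rw [Subsingleton.elim a 0, CDGA.zero_mul]
                exact Submodule.zero_mem _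
            · rw [if_pos (by omega)]
              exact Submodule.mem_top
          · rw [if_neg (by omega), if_neg c1, if_neg c2, Submodule.mem_bot] at hb
            rw [hb, CDGA.mul_zero]
            exact Submodule.zero_mem _
    d_mem := by
      intro i j h a ha
      by_cases c1 : m + 1 ≤ 2 * i
      · rw [if_pos (by omega)]
        exact Submodule.mem_top
      · by_cases c2 : 2 * i = m
        · rw [if_neg (by omega), if_neg c1, if_pos c2] at ha
          rw [(CDGA.mem_Z h).1 (hL i ha.2)]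
          exact Submodule.zero_mem _
        · rw [if_neg (by omega), if_neg c1, if_neg c2, Submodule.mem_bot] at ha
          rw [ha, CDGA.d_zero]
          exact Submodule.zero_mem _ }

theorem mem_jIdeal (hn : A.IsNonneg) (h0 : ∀ a : A.A 0, ∃ c : ℚ, a = c • A.one)
    (h1 : Odd m ∨ Subsingleton (A.A 1)) (S L : ∀ i : ℤ, Submodule ℚ (A.A i))
    (hL : ∀ i, L i ≤ A.Z i) (i : ℤ) (a : A.A i) :
    a ∈ (jIdeal hn h0 h1 S L hL).I i ↔ m + 3 ≤ 2 * i ∨
      (m + 1 ≤ 2 * i ∧ 2 * i ≤ m + 2 ∧ a ∈ S i) ∨ (2 * i = m ∧ a ∈ S i ∧ a ∈ L i) ∨ a = 0 := by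
  classical
  change a ∈ (if m + 3 ≤ 2 * i then ⊤ else if m + 1 ≤ 2 * i then S i else
      if 2 * i = m then S i ⊓ L i else ⊥ : Submodule ℚ (A.A i)) ↔ _
  by_cases c1 : m + 3 ≤ 2 * i
  · rw [if_pos c1]
    simp [c1]
  · by_cases c2 : m + 1 ≤ 2 * i
    · rw [if_neg c1, if_pos c2]
      constructor
      · intro h
        exact Or.inr (Or.inl ⟨c2, by omega, h⟩)
      · rintro (h | ⟨_, _, h⟩ | ⟨h, _⟩ | h)
        · exact absurd h c1
        · exact h
        · omega
        · rw [h]; exact Submodule.zero_mem _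
    · by_cases c3 : 2 * i = m
      · rw [if_neg c1, if_neg c2, if_pos c3]
        constructor
        · intro h
          exact Or.inr (Or.inr (Or.inl ⟨c3, h.1, h.2⟩))
        · rintro (h | ⟨h, _⟩ | ⟨_, h⟩ | h)
          · exact absurd h c1
          · exact absurd h c2
          · exact h
          · rw [h]; exact Submodule.zero_mem _
      · rw [if_neg c1, if_neg c2, if_neg c3]
        constructor
        · intro h
          exact Or.inr (Or.inr (Or.inr h))
        · rintro (h | ⟨h, _⟩ | ⟨h, _⟩ | h)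
          · exact absurd h c1
          · exact absurd h c2
          · exact absurd h c3
          · exact h

theorem hlag_jIdeal {ε : A.A m →ₗ[ℚ] ℚ} (hn : A.IsNonneg)
    (h0 : ∀ a : A.A 0, ∃ c : ℚ, a = c • A.one)
    (h1 : Odd m ∨ (Subsingleton (A.A 1) ∧ ∀ b ∈ A.B m, b = 0))
    (htop : ∀ i, m < i → Subsingleton (A.A i))
    (closed : ∀ {i : ℤ} (h : i + 1 = m) (a : A.A i), ε (A.d h a) = 0)
    (pd : ∀ {i j : ℤ} (h : i + j = m) (a : A.A i), A.d rfl a = 0 →
      (∀ b : A.A j, A.d rfl b = 0 → ε (A.mul h a b) = 0) → a ∈ A.B i)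
    (S L : ∀ i : ℤ, Submodule ℚ (A.A i)) (hL : ∀ i, L i ≤ A.Z i)
    (hS : ∀ i, IsCompl (A.B i) (S i)) (hBL : ∀ i, 2 * i = m → A.B i ≤ L i)
    (hLL : ∀ {i : ℤ} (h : i + i = m) (a : A.A i), A.d rfl a = 0 →
      (a ∈ L i ↔ ∀ b ∈ L i, ε (A.mul h a b) = 0)) :
    HLag A m ε (jIdeal hn h0 (h1.imp id And.left) S L hL) := by
  have hm : ∀ (i : ℤ) (a : A.A i), a ∈ (jIdeal hn h0 (h1.imp id And.left) S L hL).I i ↔
      m + 3 ≤ 2 * i ∨ (m + 1 ≤ 2 * i ∧ 2 * i ≤ m + 2 ∧ a ∈ S i) ∨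
      (2 * i = m ∧ a ∈ S i ∧ a ∈ L i) ∨ a = 0 :=
    mem_jIdeal hn h0 (h1.imp id And.left) S L hL
  have hdec : ∀ (i : ℤ) (a : A.A i), ∃ s ∈ S i, ∃ b ∈ A.B i, a = s + b := by
    intro i a
    have h2 : a ∈ A.B i ⊔ S i := by
      rw [(hS i).sup_eq_top]
      exact Submodule.mem_top
    obtain ⟨b, hb, s, hs, h3⟩ := Submodule.mem_sup.1 h2
    exact ⟨s, hs, b, hb, by rw [← h3, add_comm]⟩
  have hSB : ∀ (i : ℤ) (a : A.A i), a ∈ S i → a ∈ A.B i → a = 0 := by
    intro i a ha hb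
    have h2 : a ∈ A.B i ⊓ S i := ⟨hb, ha⟩
    rw [(hS i).inf_eq_bot] at h2
    exact h2
  have hBZ : ∀ (i : ℤ) (b : A.A i), b ∈ A.B i → A.d rfl b = 0 := by
    intro i b hb
    obtain ⟨y, hy⟩ := (CDGA.mem_B (show (i - 1) + 1 = i by ring)).1 hb
    rw [← hy, A.d_d]
  have hZB : ∀ {i j : ℤ} (h : i + j = m) (a : A.A i) (b : A.A j), A.d rfl a = 0 → b ∈ A.B j →
      ε (A.mul h a b) = 0 := by
    intro i j h a b ha hb
    obtain ⟨y, hy⟩ := (CDGA.mem_B (show (m - 1) + 1 = m by ring)).1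
      (CDGA.mul_mem_B_right h ((CDGA.mem_Z rfl).2 ha) hb)
    rw [← hy, closed]
  refine ⟨closed, pd, ?_, ?_, ?_⟩
  · -- `J J = 0`
    intro i j k h a b ha hb
    rw [hm] at ha hb
    by_cases hk : m < k
    · have := htop k hk
      exact Subsingleton.elim _ _
    · rcases ha with ha | ⟨ha, _⟩ | ⟨ha, _, haL⟩ | ha
      · rcases hb with hb | ⟨hb, _⟩ | ⟨hb, _⟩ | hb
        · omega
        · omega
        · omega
        · rw [hb, CDGA.mul_zero]
      · rcases hb with hb | ⟨hb, _⟩ | ⟨hb, _⟩ | hb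
        · omega
        · omega
        · omega
        · rw [hb, CDGA.mul_zero]
      · rcases hb with hb | ⟨hb, _⟩ | ⟨hb, _, hbL⟩ | hb
        · omega
        · omega
        · obtain rfl : j = i := by omega
          obtain rfl : k = m := by omega
          rcases h1 with h1 | h1
          · exfalso
            obtain ⟨r, hr⟩ := h1
            omega
          · refine h1.2 _ (pd (show k + 0 = k by ring) _ (CDGA.mul_mem_Z h
              ((CDGA.mem_Z rfl).1 (hL _ haL)) ((CDGA.mem_Z rfl).1 (hL _ hbL))) fun c _ => ?_)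
            obtain ⟨c', rfl⟩ := h0 c
            have h5 := (hLL h a ((CDGA.mem_Z rfl).1 (hL _ haL))).1 haL b hbL
            rw [CDGA.mul_smul, A.mul_comm (show k + 0 = k by ring) (show 0 + k = k by ring),
              A.one_mul, map_smul, map_smul, h5, smul_zero, smul_zero]
        · rw [hb, CDGA.mul_zero]
      · rw [ha, CDGA.zero_mul]
  · -- injectivity
    intro i' i hi c hc
    have hcB : A.d hi c ∈ A.B i := (CDGA.mem_B hi).2 ⟨c, rfl⟩
    rw [hm] at hc
    rcases hc with hc | ⟨_, _, hc⟩ | ⟨_, hc, _⟩ | hc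
    · by_cases h2 : m + 3 ≤ 2 * i'
      · exact ⟨c, (hm _ _).2 (Or.inl h2), rfl⟩
      · obtain ⟨s, hs, b, hb, rfl⟩ := hdec i' c
        refine ⟨s, (hm _ _).2 (Or.inr (Or.inl ⟨by omega, by omega, hs⟩)), ?_⟩
        rw [A.d_add]
        have h3 : A.d hi b = 0 := by
          subst hi
          exact hBZ _ b hb
        rw [h3, add_zero]
    · exact ⟨0, Submodule.zero_mem _, by rw [CDGA.d_zero, hSB _ _ hc hcB]⟩
    · exact ⟨0, Submodule.zero_mem _, by rw [CDGA.d_zero, hSB _ _ hc hcB]⟩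
    · exact ⟨0, Submodule.zero_mem _, by rw [CDGA.d_zero, hc]⟩
  · -- Lagrangian image
    intro i j h a ha H
    have hs : ∀ (i : ℤ) (a : A.A i), A.d rfl a = 0 → ∃ s ∈ S i, A.d rfl s = 0 ∧
        a - s ∈ A.B i := by
      intro i a ha
      obtain ⟨s, hs, b, hb, rfl⟩ := hdec i a
      refine ⟨s, hs, ?_, ?_⟩
      · rw [A.d_add, hBZ _ b hb, add_zero] at ha
        exact ha
      · rw [add_sub_cancel_left]
        exact hb
    by_cases c1 : m + 3 ≤ 2 * i
    · exact ⟨a, (hm _ _).2 (Or.inl c1), ha, by rw [sub_self]; exact Submodule.zero_mem _⟩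
    · by_cases c2 : m + 1 ≤ 2 * i
      · obtain ⟨s, hs1, hs2, hs3⟩ := hs i a ha
        exact ⟨s, (hm _ _).2 (Or.inr (Or.inl ⟨c2, by omega, hs1⟩)), hs2, hs3⟩
      · by_cases c3 : 2 * i = m
        · obtain rfl : j = i := by omega
          have haL : a ∈ L j := by
            refine (hLL h a ha).2 fun b hbL => ?_
            have hb := (CDGA.mem_Z rfl).1 (hL _ hbL)
            obtain ⟨s, hs1, hs2, hs3⟩ := hs j b hb
            have hsL : s ∈ L j := by
              have h5 : s = b - (b - s) := by abel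
              rw [h5]
              exact Submodule.sub_mem _ hbL (hBL _ c3 hs3)
            have h6 := H s ((hm _ _).2 (Or.inr (Or.inr (Or.inl ⟨c3, hs1, hsL⟩)))) hs2
            have h7 := hZB h a (b - s) ha hs3
            rw [CDGA.mul_sub', map_sub, h6, sub_zero] at h7
            exact h7
          obtain ⟨s, hs1, hs2, hs3⟩ := hs j a ha
          have hsL : s ∈ L j := by
            have h5 : s = a - (a - s) := by abel
            rw [h5]
            exact Submodule.sub_mem _ haL (hBL _ c3 hs3)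
          exact ⟨s, (hm _ _).2 (Or.inr (Or.inr (Or.inl ⟨c3, hs1, hsL⟩))), hs2, hs3⟩
        · refine ⟨0, Submodule.zero_mem _, CDGA.d_zero _, ?_⟩
          rw [sub_zero]
          refine pd h a ha fun b hb => ?_
          by_cases c4 : m + 3 ≤ 2 * j
          · exact H b ((hm _ _).2 (Or.inl c4)) hb
          · obtain ⟨s, hs1, hs2, hs3⟩ := hs j b hb
            have h6 := H s ((hm _ _).2 (Or.inr (Or.inl ⟨by omega, by omega, hs1⟩))) hs2
            have h7 := hZB h a (b - s) ha hs3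
            rw [CDGA.mul_sub', map_sub, h6, sub_zero] at h7
            exact h7

/-- a Lagrangian in the middle degree, skew case -/
theorem exists_L_skew {ε : A.A m →ₗ[ℚ] ℚ} (hf : ∀ i : ℤ, Module.Finite ℚ (A.A i))
    (closed : ∀ {i : ℤ} (h : i + 1 = m) (a : A.A i), ε (A.d h a) = 0) {p : ℤ} (h : p + p = m)
    (hp : Odd p) : ∃ L : Submodule ℚ (A.A p), L ≤ A.Z p ∧ A.B p ≤ L ∧
      ∀ a, A.d rfl a = 0 → (a ∈ L ↔ ∀ b ∈ L, ε (A.mul h a b) = 0) := by
  have := hf p
  have hs : ∀ a b : A.A p, ε (A.mul h a b) = -ε (A.mul h b a) := by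
    intro a b
    rw [eps_comm h a b]
    have : sgn (p * p) = -1 := (hp.mul hp).neg_one_zpow
    rw [this]
    ring
  have halt : ∀ a : A.A p, ε (A.mul h a a) = 0 := by
    intro a
    have := hs a a
    linarith
  have hBle : A.B p ≤ A.Z p := by
    intro b hb
    obtain ⟨y, hy⟩ := (CDGA.mem_B (show (p - 1) + 1 = p by ring)).1 hb
    rw [← hy]
    exact CDGA.d_mem_Z _ _
  let 𝒮 : Set (Submodule ℚ (A.A p)) := {M | A.B p ≤ M ∧ M ≤ A.Z p ∧
    ∀ a ∈ M, ∀ b ∈ M, ε (A.mul h a b) = 0}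
  have hne : 𝒮.Nonempty := ⟨A.B p, le_refl _, hBle, fun a ha b hb => by
    obtain ⟨y, hy⟩ := (CDGA.mem_B (show (m - 1) + 1 = m by ring)).1
      (CDGA.mul_mem_B_right h (hBle ha) hb)
    rw [← hy, closed]⟩
  obtain ⟨M, hM, hmax⟩ := WellFounded.has_min (wellFounded_gt (α := Submodule ℚ (A.A p))) 𝒮 hne
  refine ⟨M, hM.2.1, hM.1, fun a haZ => ⟨fun ha b hb => hM.2.2 a ha b hb, fun hb => ?_⟩⟩
  by_contra hna
  have h1 : M < M ⊔ Submodule.span ℚ {a} := by
    refine lt_of_le_of_ne le_sup_left fun h2 => hna ?_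
    rw [h2]
    exact Submodule.mem_sup_right (Submodule.mem_span_singleton_self a)
  refine hmax _ ⟨hM.1.trans le_sup_left, ?_, ?_⟩ h1
  · refine sup_le hM.2.1 ?_
    rw [Submodule.span_singleton_le_iff_mem]
    exact (CDGA.mem_Z rfl).2 haZ
  · intro x hx y hy
    obtain ⟨x1, hx1, x2, hx2, rfl⟩ := Submodule.mem_sup.1 hx
    obtain ⟨y1, hy1, y2, hy2, rfl⟩ := Submodule.mem_sup.1 hy
    obtain ⟨c, rfl⟩ := Submodule.mem_span_singleton.1 hx2
    obtain ⟨c', rfl⟩ := Submodule.mem_span_singleton.1 hy2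
    rw [A.add_mul, CDGA.mul_add, CDGA.mul_add, A.smul_mul, A.smul_mul, CDGA.mul_smul,
      CDGA.mul_smul, map_add, map_add, map_add, map_smul, map_smul, map_smul, map_smul,
      hM.2.2 x1 hx1 y1 hy1, hb y1 hy1, hs x1 a, hb x1 hx1, halt a]
    simp

/-- a Lagrangian in the middle degree, symmetric case -/
theorem exists_L_met {ε : A.A m →ₗ[ℚ] ℚ} (h0 : ∀ a : A.A 0, ∃ c : ℚ, a = c • A.one)
    (hM : Metabolic A m)
    (closed : ∀ {i : ℤ} (h : i + 1 = m) (a : A.A i), ε (A.d h a) = 0)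
    (pd : ∀ {i j : ℤ} (h : i + j = m) (a : A.A i), A.d rfl a = 0 →
      (∀ b : A.A j, A.d rfl b = 0 → ε (A.mul h a b) = 0) → a ∈ A.B i)
    {p : ℤ} (h : p + p = m) (hp : Even p) :
    ∃ L : Submodule ℚ (A.A p), L ≤ A.Z p ∧ A.B p ≤ L ∧
      ∀ a, A.d rfl a = 0 → (a ∈ L ↔ ∀ b ∈ L, ε (A.mul h a b) = 0) := by
  obtain ⟨k, hk⟩ := hp
  obtain rfl : p = 2 * k := by rw [hk]; ring
  obtain ⟨L, hL⟩ := hM k h
  let L0 : Submodule ℚ (A.A (2 * k)) :=
    { carrier := {a | ∃ ha : A.d rfl a = 0, A.cls a ha ∈ L}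
      add_mem' := by
        rintro a b ⟨ha, haL⟩ ⟨hb, hbL⟩
        exact ⟨(A.Z _).add_mem ha hb, by rw [← CDGA.cls_add ha hb]; exact L.add_mem haL hbL⟩
      zero_mem' := ⟨CDGA.d_zero _, by
        rw [CDGA.cls_eq_zero.2 (Submodule.zero_mem _)]
        exact L.zero_mem⟩
      smul_mem' := by
        rintro c a ⟨ha, haL⟩
        exact ⟨(A.Z _).smul_mem c ha, by rw [← CDGA.cls_smul c ha]; exact L.smul_mem c haL⟩ }
  have hL0 : ∀ a, a ∈ L0 ↔ ∃ ha : A.d rfl a = 0, A.cls a ha ∈ L := fun _ => Iff.rfl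
  have htop : ∀ (z : A.A m) (hz : A.d rfl z = 0), ε z = 0 → A.cls z hz = 0 := by
    intro z hz hε
    refine CDGA.cls_eq_zero.2 (pd (show m + 0 = m by ring) z hz fun b _ => ?_)
    obtain ⟨c, rfl⟩ := h0 b
    rw [CDGA.mul_smul, A.mul_comm (show m + 0 = m by ring) (show 0 + m = m by ring), A.one_mul,
      map_smul, map_smul, hε, smul_zero, smul_zero]
  refine ⟨L0, fun a ha => (CDGA.mem_Z rfl).2 ((hL0 a).1 ha).1, fun a ha => ?_, fun a ha => ?_⟩
  · obtain ⟨y, hy⟩ := (CDGA.mem_B (show (2 * k - 1) + 1 = 2 * k by ring)).1 ha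
    have hda : A.d rfl a = 0 := by rw [← hy, A.d_d]
    refine (hL0 a).2 ⟨hda, ?_⟩
    rw [CDGA.cls_eq_zero.2 ha]
    exact L.zero_mem
  · constructor
    · intro haL b hbL
      obtain ⟨_, haL⟩ := (hL0 a).1 haL
      obtain ⟨hb, hbL⟩ := (hL0 b).1 hbL
      have h1 := (hL a ha).1 haL b hb hbL
      rw [CDGA.cls_eq_zero, CDGA.mem_B (show (m - 1) + 1 = m by ring)] at h1
      obtain ⟨y, hy⟩ := h1
      rw [← hy, closed]
    · intro H
      exact (hL0 a).2 ⟨ha, (hL a ha).2 fun b hb hbL => htop _ _ (H b ((hL0 b).2 ⟨hb, hbL⟩))⟩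

/-- The case of a CDGA that vanishes above degree `m`. -/
theorem cone_of_trunc (hn : A.IsNonneg) (h0 : ∀ a : A.A 0, ∃ c : ℚ, a = c • A.one)
    (hf : ∀ i : ℤ, Module.Finite ℚ (A.A i)) (hm : 1 ≤ m) (hPD : PoincareDuality A m)
    (hM : Metabolic A m) (htop : ∀ i, m < i → Subsingleton (A.A i))
    (h1 : Odd m ∨ (Subsingleton (A.A 1) ∧ ∀ b ∈ A.B m, b = 0)) :
    ∃ (Q : CDGA.{u}) (Ψ : BalancedMap (shiftedDual Q (m + 1))),
      Q.IsNonneg ∧ (∀ i, Module.Finite ℚ (Q.A i)) ∧ (cone Ψ).IsNonneg ∧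
      QuasiIsomorphic A (cone Ψ) := by
  classical
  obtain ⟨ε, closed, pd⟩ := exists_eps hPD (htop _ (by omega))
  have hex : ∀ (p : ℤ) (h : p + p = m), ∃ L : Submodule ℚ (A.A p), L ≤ A.Z p ∧ A.B p ≤ L ∧
      ∀ a, A.d rfl a = 0 → (a ∈ L ↔ ∀ b ∈ L, ε (A.mul h a b) = 0) := by
    intro p h
    rcases Int.even_or_odd p with hp | hp
    · exact exists_L_met h0 hM closed pd h hp
    · exact exists_L_skew hf closed h hp
  choose L hL1 hL2 hL3 using hex
  have hcompl : ∀ i, ∃ S : Submodule ℚ (A.A i), IsCompl (A.B i) S := fun i => (A.B i).exists_isCompl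
  choose S hS using hcompl
  refine HLag.cone hn h0 hf hm (hlag_jIdeal hn h0 h1 htop closed pd S
    (fun i => if h : i + i = m then L i h else ⊥) ?_ hS ?_ ?_) ?_ ?_
  · intro i
    by_cases h : i + i = m
    · simp only [dif_pos h]
      exact hL1 i h
    · simp only [dif_neg h]
      exact bot_le
  · intro i hi
    have h : i + i = m := by omega
    simp only [dif_pos h]
    exact hL2 i h
  · intro i h a ha
    simp only [dif_pos h]
    exact hL3 i h a ha
  · intro a ha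
    rcases (mem_jIdeal hn h0 _ S _ _ 0 a).1 ha with h | ⟨h, _⟩ | ⟨h, _⟩ | h
    · omega
    · omega
    · omega
    · exact h
  · intro j a hj
    exact (mem_jIdeal hn h0 _ S _ _ j a).2 (Or.inl (by omega))

end

end Pool.Agent.Lib.MP_43ef35_gt
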