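import Pool.Agent.Lib.MP_43ef35_gt.P12

/-!
# Truncation above the dimension
-/

set_option autoImplicit false

namespace Pool.Agent.Lib.MP_43ef35_gt

universe u

section

variable {D : CDGA.{u}} {m : ℤ}

/-- the cohomology vanishes above the dimension -/
theorem PoincareDuality.vanish (hD : PoincareDuality D m) (hn : D.IsNonneg) {j : ℤ} (hj : m < j)
    (a : D.A j) (ha : D.d rfl a = 0) : a ∈ D.B j := by
  obtain ⟨ε, hε⟩ := hD.duality
  refine CDGA.cls_eq_zero.1 (hε (show j + (m - j) = m by ring) a ha fun b hb => ?_)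
  have := hn (m - j) (by omega)
  have h1 : D.mul (show j + (m - j) = m by ring) a b = 0 := by
    rw [Subsingleton.elim b 0, CDGA.mul_zero]
  rw [CDGA.cls_eq_zero.2 (by rw [h1]; exact Submodule.zero_mem _), map_zero]

/-- The truncation ideal: everything above degree `m`, a complement `C` of the cocycles in degree
`m`, and, if `b` holds, also the coboundaries of degree `m` and a complement of the cocycles in
degree `m - 1`. -/
noncomputable def tIdeal (m : ℤ) (b : Prop) (hn : D.IsNonneg)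
    (h0 : ∀ a : D.A 0, ∃ c : ℚ, a = c • D.one) (hb : b → Subsingleton (D.A 1))
    (C : ∀ i : ℤ, Submodule ℚ (D.A i)) : DGIdeal D := by
  classical
  exact
  { I := fun i => if m < i then ⊤ else if i = m then (if b then D.B i ⊔ C i else C i) else
      if i = m - 1 ∧ b then C i else ⊥
    mul_mem := by
      intro i j k h a x hx
      rcases lt_trichotomy i 0 with hi | hi | hi
      · have := hn i hi
        rw [Subsingleton.elim a 0, CDGA.zero_mul]
        exact Submodule.zero_mem _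
      · subst hi
        obtain rfl : j = k := by omega
        obtain ⟨c, rfl⟩ := h0 a
        rw [D.smul_mul, D.one_mul]
        exact Submodule.smul_mem _ _ hx
      · by_cases c1 : m ≤ j
        · rw [if_pos (by omega)]
          exact Submodule.mem_top
        · by_cases c2 : j = m - 1 ∧ b
          · by_cases c3 : i = 1
            · have := hb c2.2
              subst c3
              rw [Subsingleton.elim a 0, CDGA.zero_mul]
              exact Submodule.zero_mem _
            · rw [if_pos (by omega)]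
              exact Submodule.mem_top
          · rw [if_neg (by omega), if_neg (by omega), if_neg c2, Submodule.mem_bot] at hx
            rw [hx, CDGA.mul_zero]
            exact Submodule.zero_mem _
    d_mem := by
      intro i j h a ha
      by_cases c1 : m ≤ i
      · rw [if_pos (by omega)]
        exact Submodule.mem_top
      · by_cases c2 : i = m - 1 ∧ b
        · rw [if_neg (by omega), if_pos (by omega), if_pos c2.2]
          exact Submodule.mem_sup_left ((CDGA.mem_B h).2 ⟨a, rfl⟩)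
        · rw [if_neg (by omega), if_neg (by omega), if_neg c2, Submodule.mem_bot] at ha
          rw [ha, CDGA.d_zero]
          exact Submodule.zero_mem _ }

theorem mem_tIdeal (b : Prop) (hn : D.IsNonneg)
    (h0 : ∀ a : D.A 0, ∃ c : ℚ, a = c • D.one) (hb : b → Subsingleton (D.A 1))
    (C : ∀ i : ℤ, Submodule ℚ (D.A i)) (i : ℤ) (a : D.A i) :
    a ∈ (tIdeal m b hn h0 hb C).I i ↔ m < i ∨ (i = m ∧ a ∈ C i) ∨
      (i = m ∧ b ∧ a ∈ D.B i ⊔ C i) ∨ (i = m - 1 ∧ b ∧ a ∈ C i) ∨ a = 0 := by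
  classical
  change a ∈ (if m < i then ⊤ else if i = m then (if b then D.B i ⊔ C i else C i) else
      if i = m - 1 ∧ b then C i else ⊥ : Submodule ℚ (D.A i)) ↔ _
  by_cases c1 : m < i
  · rw [if_pos c1]
    simp [c1]
  · by_cases c2 : i = m
    · rw [if_neg c1, if_pos c2]
      by_cases c3 : b
      · rw [if_pos c3]
        constructor
        · intro h
          exact Or.inr (Or.inr (Or.inl ⟨c2, c3, h⟩))
        · rintro (h | ⟨_, h⟩ | ⟨_, _, h⟩ | ⟨h, _⟩ | h)
          · exact absurd h c1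
          · exact Submodule.mem_sup_right h
          · exact h
          · omega
          · rw [h]; exact Submodule.zero_mem _
      · rw [if_neg c3]
        constructor
        · intro h
          exact Or.inr (Or.inl ⟨c2, h⟩)
        · rintro (h | ⟨_, h⟩ | ⟨_, h, _⟩ | ⟨_, h, _⟩ | h)
          · exact absurd h c1
          · exact h
          · exact absurd h c3
          · exact absurd h c3
          · rw [h]; exact Submodule.zero_mem _
    · by_cases c3 : i = m - 1 ∧ b
      · rw [if_neg c1, if_neg c2, if_pos c3]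
        constructor
        · intro h
          exact Or.inr (Or.inr (Or.inr (Or.inl ⟨c3.1, c3.2, h⟩)))
        · rintro (h | ⟨h, _⟩ | ⟨h, _⟩ | ⟨_, _, h⟩ | h)
          · exact absurd h c1
          · exact absurd h c2
          · exact absurd h c2
          · exact h
          · rw [h]; exact Submodule.zero_mem _
      · rw [if_neg c1, if_neg c2, if_neg c3]
        constructor
        · intro h
          exact Or.inr (Or.inr (Or.inr (Or.inr h)))
        · rintro (h | ⟨h, _⟩ | ⟨h, _⟩ | ⟨h, h', _⟩ | h)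
          · exact absurd h c1
          · exact absurd h c2
          · exact absurd h c2
          · exact absurd ⟨h, h'⟩ c3
          · exact h

theorem tIdeal_contr (hD : PoincareDuality D m) (b : Prop) (hn : D.IsNonneg)
    (h0 : ∀ a : D.A 0, ∃ c : ℚ, a = c • D.one) (hb : b → Subsingleton (D.A 1))
    (C : ∀ i : ℤ, Submodule ℚ (D.A i)) (hC : ∀ i, IsCompl (D.Z i) (C i)) {i j : ℤ}
    (h : i + 1 = j) (x : D.A j) (hx : x ∈ (tIdeal m b hn h0 hb C).I j) (hd : D.d rfl x = 0) :
    ∃ z ∈ (tIdeal m b hn h0 hb C).I i, D.d h z = x := by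
  have hm := fun i a => mem_tIdeal (m := m) b hn h0 hb C i a
  have hCZ : ∀ (i : ℤ) (a : D.A i), a ∈ C i → D.d rfl a = 0 → a = 0 := by
    intro i a ha hda
    have h2 : a ∈ D.Z i ⊓ C i := ⟨(CDGA.mem_Z rfl).2 hda, ha⟩
    rw [(hC i).inf_eq_bot] at h2
    exact h2
  have hdec : ∀ (i : ℤ) {j : ℤ} (h : i + 1 = j) (a : D.A i), ∃ c ∈ C i, D.d h c = D.d h a := by
    intro i j h a
    have h2 : a ∈ D.Z i ⊔ C i := by
      rw [(hC i).sup_eq_top]
      exact Submodule.mem_top
    obtain ⟨z, hz, c, hc, h3⟩ := Submodule.mem_sup.1 h2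
    refine ⟨c, hc, ?_⟩
    rw [← h3, D.d_add, (CDGA.mem_Z h).1 hz, zero_add]
  rw [hm] at hx
  rcases hx with hx | ⟨_, hx⟩ | ⟨hj, hb', hx⟩ | ⟨_, _, hx⟩ | hx
  · obtain ⟨y, hy⟩ := (CDGA.mem_B h).1 (hD.vanish hn hx x hd)
    by_cases c1 : m < i
    · exact ⟨y, (hm _ _).2 (Or.inl c1), hy⟩
    · obtain ⟨c, hc, hcy⟩ := hdec i h y
      exact ⟨c, (hm _ _).2 (Or.inr (Or.inl ⟨by omega, hc⟩)), hcy.trans hy⟩
  · exact ⟨0, Submodule.zero_mem _, by rw [CDGA.d_zero, hCZ _ _ hx hd]⟩
  · obtain ⟨y, hy, c, hc, rfl⟩ := Submodule.mem_sup.1 hx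
    obtain ⟨y', rfl⟩ := (CDGA.mem_B h).1 hy
    rw [D.d_add, D.d_d, zero_add] at hd
    rw [hCZ _ _ hc hd]
    obtain ⟨c', hc', hcy⟩ := hdec i h y'
    exact ⟨c', (hm _ _).2 (Or.inr (Or.inr (Or.inr (Or.inl ⟨by omega, hb', hc'⟩)))), by
      rw [hcy, add_zero]⟩
  · exact ⟨0, Submodule.zero_mem _, by rw [CDGA.d_zero, hCZ _ _ hx hd]⟩
  · exact ⟨0, Submodule.zero_mem _, by rw [CDGA.d_zero, hx]⟩

/-- Sufficiency for connected CDGAs of finite type, `m` odd or `D^1 = 0`. -/
theorem ConnFin.cone (hD : ConnFin D) (hm : 1 ≤ m) (hPD : PoincareDuality D m)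
    (hM : Metabolic D m) (h1 : Odd m ∨ Subsingleton (D.A 1)) :
    ∃ (Q : CDGA.{u}) (Ψ : BalancedMap (shiftedDual Q (m + 1))),
      Q.IsNonneg ∧ (∀ i, Module.Finite ℚ (Q.A i)) ∧
      (Pool.Agent.Lib.MP_43ef35_gt.cone Ψ).IsNonneg ∧
      QuasiIsomorphic D (Pool.Agent.Lib.MP_43ef35_gt.cone Ψ) := by
  have hcompl : ∀ i, ∃ C : Submodule ℚ (D.A i), IsCompl (D.Z i) C := fun i =>
    (D.Z i).exists_isCompl
  choose C hC using hcompl
  let b : Prop := ¬ Odd m
  have hb : b → Subsingleton (D.A 1) := fun h => h1.resolve_left h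
  let 𝒯 := tIdeal m b hD.nonneg hD.connected hb C
  have hmem := fun i a => mem_tIdeal (m := m) b hD.nonneg hD.connected hb C i a
  have hQI : QuasiIsomorphic D (quo 𝒯) := by
    refine Relation.EqvGen.rel _ _ ⟨quoHom 𝒯, isQuasiIso_of_surj _ ?_ ?_⟩
    · intro i y
      exact Submodule.mkQ_surjective _ y
    · intro i j h x hx hd
      have hx' : x ∈ 𝒯.I j := (Submodule.Quotient.mk_eq_zero _).1 hx
      obtain ⟨z, hz, hzx⟩ := tIdeal_contr hPD b hD.nonneg hD.connected hb C hC h x hx' hd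
      exact ⟨z, (Submodule.Quotient.mk_eq_zero _).2 hz, hzx⟩
  have hI := HIso.of_quasiIsomorphic hQI
  have key : ∃ (Q : CDGA.{u}) (Ψ : BalancedMap (shiftedDual Q (m + 1))),
      Q.IsNonneg ∧ (∀ i, Module.Finite ℚ (Q.A i)) ∧
      (Pool.Agent.Lib.MP_43ef35_gt.cone Ψ).IsNonneg ∧
      QuasiIsomorphic (quo 𝒯) (Pool.Agent.Lib.MP_43ef35_gt.cone Ψ) := by
    refine cone_of_trunc (A := quo 𝒯) (m := m) ?_ ?_ ?_ hm (hPD.transport hI)
      (Metabolic.transport hI hM) ?_ ?_
    · intro i hi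
      have := hD.nonneg i hi
      refine ⟨fun x y => ?_⟩
      obtain ⟨x, rfl⟩ := qmk_surj 𝒯 x
      obtain ⟨y, rfl⟩ := qmk_surj 𝒯 y
      rw [Subsingleton.elim x y]
    · intro a
      obtain ⟨a, rfl⟩ := qmk_surj 𝒯 a
      obtain ⟨c, rfl⟩ := hD.connected a
      exact ⟨c, rfl⟩
    · intro i
      have := hD.finite i
      exact Module.Finite.of_surjective (𝒯.I i).mkQ (Submodule.mkQ_surjective _)
    · intro i hi
      have hz : ∀ x : (quo 𝒯).A i, x = 0 := by
        intro x
        obtain ⟨x, rfl⟩ := qmk_surj 𝒯 x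
        exact (Submodule.Quotient.mk_eq_zero _).2 ((hmem i x).2 (Or.inl hi))
      exact ⟨fun x y => (hz x).trans (hz y).symm⟩
    · by_cases c1 : Odd m
      · exact Or.inl c1
      · refine Or.inr ⟨?_, ?_⟩
        · have := hb c1
          refine ⟨fun x y => ?_⟩
          obtain ⟨x, rfl⟩ := qmk_surj 𝒯 x
          obtain ⟨y, rfl⟩ := qmk_surj 𝒯 y
          rw [Subsingleton.elim x y]
        · intro x hx
          obtain ⟨y, hy⟩ := (CDGA.mem_B (show (m - 1) + 1 = m by ring)).1 hx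
          obtain ⟨y, rfl⟩ := qmk_surj 𝒯 y
          rw [← hy]
          refine (Submodule.Quotient.mk_eq_zero _).2 ((hmem m _).2 (Or.inr (Or.inr (Or.inl
            ⟨rfl, c1, Submodule.mem_sup_left ((CDGA.mem_B _).2 ⟨y, rfl⟩)⟩))))
  obtain ⟨Q, Ψ, hQ1, hQ2, hQ3, hQ4⟩ := key
  exact ⟨Q, Ψ, hQ1, hQ2, hQ3, Relation.EqvGen.trans _ _ _ hQI hQ4⟩

end

/-- Sufficiency. -/
theorem cone_of_metabolic2 {A : CDGA.{u}} {n : ℤ} (hA : PoincareDuality A (n - 1))
    (hM : Metabolic A (n - 1))
    (hD : (∃ D : CDGA.{u}, ConnFin D ∧ (Even n ∨ Subsingleton (D.A 1)) ∧ QuasiIsomorphic A D) ∨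
      (∃ (D : CDGA.{u}) (ε : D.A (n - 1) →ₗ[ℚ] ℚ), StrictPD D (n - 1) ε ∧
        QuasiIsomorphic A D) ∨
      (A.IsNonneg ∧ ∃ D : CDGA.{u}, (∀ {i j : ℤ} (h : i + 1 = j) (a : D.A i), D.d h a = 0) ∧
        QuasiIsomorphic A D)) :
    ∃ (Q : CDGA.{u}) (Ψ : BalancedMap (shiftedDual Q n)),
      Q.IsNonneg ∧ (∀ i, Module.Finite ℚ (Q.A i)) ∧ (cone Ψ).IsNonneg ∧
      QuasiIsomorphic A (cone Ψ) := by
  rcases hD with ⟨D, hD1, hD2, hD3⟩ | hD
  · obtain ⟨m, rfl⟩ : ∃ m, n = m + 1 := ⟨n - 1, by ring⟩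
    have hm : m + 1 - 1 = m := by ring
    rw [hm] at hA hM
    have hI := HIso.of_quasiIsomorphic hD3
    have hMD := Metabolic.transport hI hM
    have hPD := PoincareDuality.transport hI hA
    have h1m : 1 ≤ m := one_le_of_metabolic hPD (fun i hi => by
      have := hD1.nonneg i hi
      refine ⟨fun x y => ?_⟩
      obtain ⟨a, ha, h3⟩ := CDGA.cls_surj x
      obtain ⟨b, hb, h4⟩ := CDGA.cls_surj y
      rw [← h3, ← h4]
      obtain rfl := Subsingleton.elim a b
      rfl) hMD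
    obtain ⟨Q, Ψ, hQ, hf, hc, h3⟩ := hD1.cone h1m hPD hMD (hD2.imp (fun h => by
      rcases Int.even_or_odd m with h5 | h5
      · exfalso
        obtain ⟨r, hr⟩ := h
        obtain ⟨s, hs⟩ := h5
        omega
      · exact h5) id)
    exact ⟨Q, Ψ, hQ, hf, hc, Relation.EqvGen.trans _ _ _ hD3 h3⟩
  · exact cone_of_metabolic hA hM hD

end Pool.Agent.Lib.MP_43ef35_gt
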