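import Pool.Agent.Lib.MP_43ef35_gt.P13

/-!
# Sub-CDGAs; the connected sub-CDGA if `H^1 = 0`
-/

set_option autoImplicit false

namespace Pool.Agent.Lib.MP_43ef35_gt

universe u

/-- A sub-CDGA. -/
structure SubC (T : CDGA.{u}) where
  /-- the component of degree `i` -/
  S : ∀ i : ℤ, Submodule ℚ (T.A i)
  one_mem : T.one ∈ S 0
  mul_mem : ∀ {i j k : ℤ} (h : i + j = k) {a : T.A i} {b : T.A j}, a ∈ S i → b ∈ S j →
    T.mul h a b ∈ S k
  d_mem : ∀ {i j : ℤ} (h : i + 1 = j) {a : T.A i}, a ∈ S i → T.d h a ∈ S j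

namespace SubC

variable {T : CDGA.{u}} (N : SubC T)

/-- the CDGA of a sub-CDGA -/
def sub : CDGA.{u} where
  A i := N.S i
  one := ⟨T.one, N.one_mem⟩
  mul h a b := ⟨T.mul h a.1 b.1, N.mul_mem h a.2 b.2⟩
  d h a := ⟨T.d h a.1, N.d_mem h a.2⟩
  add_mul h a a' b := Subtype.ext (T.add_mul h a.1 a'.1 b.1)
  smul_mul h c a b := Subtype.ext (T.smul_mul h c a.1 b.1)
  one_mul h a := Subtype.ext (T.one_mul h a.1)
  mul_assoc h₁ h₂ h₃ h₄ a b c := Subtype.ext (T.mul_assoc h₁ h₂ h₃ h₄ a.1 b.1 c.1)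
  mul_comm h h' a b := Subtype.ext (T.mul_comm h h' a.1 b.1)
  d_add h a a' := Subtype.ext (T.d_add h a.1 a'.1)
  d_smul h c a := Subtype.ext (T.d_smul h c a.1)
  d_d h h' a := Subtype.ext (T.d_d h h' a.1)
  leibniz h hi hj hk h₁ h₂ a b := Subtype.ext (T.leibniz h hi hj hk h₁ h₂ a.1 b.1)

/-- the inclusion -/
def inc : Hom N.sub T where
  f i := (N.S i).subtype
  map_one := rfl
  map_mul _ _ _ := rfl
  map_d _ _ := rfl

theorem inc_quasiIso
    (hi : ∀ {i j : ℤ} (h : i + 1 = j) (y : T.A i), T.d h y ∈ N.S j →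
      ∃ y' ∈ N.S i, T.d h y' = T.d h y)
    (hs : ∀ (i : ℤ) (z : T.A i), T.d rfl z = 0 → ∃ s ∈ N.S i, T.d rfl s = 0 ∧ z - s ∈ T.B i) :
    N.inc.IsQuasiIso := by
  intro i
  have e : (i - 1) + 1 = i := by ring
  constructor
  · intro a _ hB
    obtain ⟨y, hy⟩ := (CDGA.mem_B e).1 hB
    have hy' : T.d e y = a.1 := hy
    obtain ⟨y', hy1, hy2⟩ := hi e y (by rw [hy']; exact a.2)
    refine (CDGA.mem_B e).2 ⟨⟨y', hy1⟩, Subtype.ext ?_⟩
    exact hy2.trans hy'
  · intro b hb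
    obtain ⟨s, h1, h2, h3⟩ := hs i b ((CDGA.mem_Z rfl).1 hb)
    exact ⟨⟨s, h1⟩, (CDGA.mem_Z rfl).2 (Subtype.ext h2), h3⟩

theorem quasiIsomorphic (h : N.inc.IsQuasiIso) : QuasiIsomorphic T N.sub :=
  Relation.EqvGen.symm _ _ (Relation.EqvGen.rel _ _ ⟨N.inc, h⟩)

end SubC

section

variable {A : CDGA.{u}}

/-- `ℚ · 1` in degree `0`, nothing in the other degrees `< 2`, `C` in degree `2`, everything above -/
noncomputable def connS (A : CDGA.{u}) (C : Submodule ℚ (A.A 2)) (i : ℤ) : Submodule ℚ (A.A i) where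
  carrier := {a | (∀ h : i = 0, ∃ c : ℚ, A.deg h a = c • A.one) ∧ (i < 0 → a = 0) ∧
    (i = 1 → a = 0) ∧ (∀ h : i = 2, A.deg h a ∈ C)}
  add_mem' := by
    rintro a b ⟨h1, h2, h3, h4⟩ ⟨g1, g2, g3, g4⟩
    refine ⟨fun h => ?_, fun h => ?_, fun h => ?_, fun h => ?_⟩
    · obtain ⟨c, hc⟩ := h1 h
      obtain ⟨c', hc'⟩ := g1 h
      refine ⟨c + c', ?_⟩
      rw [map_add, hc, hc', add_smul]
    · rw [h2 h, g2 h, add_zero]
    · rw [h3 h, g3 h, add_zero]
    · rw [map_add]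
      exact C.add_mem (h4 h) (g4 h)
  zero_mem' := ⟨fun h => ⟨0, by rw [map_zero, zero_smul]⟩, fun _ => rfl, fun _ => rfl, fun h => by
    rw [map_zero]; exact C.zero_mem⟩
  smul_mem' := by
    rintro c a ⟨h1, h2, h3, h4⟩
    refine ⟨fun h => ?_, fun h => ?_, fun h => ?_, fun h => ?_⟩
    · obtain ⟨c', hc⟩ := h1 h
      refine ⟨c * c', ?_⟩
      rw [map_smul, hc, mul_smul]
    · rw [h2 h, smul_zero]
    · rw [h3 h, smul_zero]
    · rw [map_smul]
      exact C.smul_mem _ (h4 h)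

theorem connS_of_le {C : Submodule ℚ (A.A 2)} {i : ℤ} (h : 3 ≤ i) (a : A.A i) :
    a ∈ connS A C i :=
  ⟨fun h' => by omega, fun h' => by omega, fun h' => by omega, fun h' => by omega⟩

theorem connS_zero {C : Submodule ℚ (A.A 2)} {i : ℤ} (h : i < 0 ∨ i = 1) {a : A.A i}
    (ha : a ∈ connS A C i) : a = 0 := by
  obtain ⟨_, h2, h3, _⟩ := ha
  rcases h with h | h
  · exact h2 h
  · exact h3 h

/-- the connected sub-CDGA -/
noncomputable def connSub (A : CDGA.{u}) (C : Submodule ℚ (A.A 2)) : SubC A where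
  S := connS A C
  one_mem := ⟨fun _ => ⟨1, by rw [CDGA.deg_rfl, one_smul]⟩, fun h => by omega,
    fun h => by omega, fun h => by omega⟩
  mul_mem := by
    intro i j k h a b ha hb
    by_cases c1 : i < 0 ∨ i = 1
    · rw [connS_zero c1 ha, CDGA.zero_mul]
      exact Submodule.zero_mem _
    by_cases c2 : j < 0 ∨ j = 1
    · rw [connS_zero c2 hb, CDGA.mul_zero]
      exact Submodule.zero_mem _
    by_cases c3 : i = 0
    · subst c3
      obtain rfl : j = k := by omega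
      obtain ⟨c, hc⟩ := ha.1 rfl
      rw [CDGA.deg_rfl] at hc
      rw [hc, A.smul_mul, A.one_mul]
      exact Submodule.smul_mem _ _ hb
    by_cases c4 : j = 0
    · subst c4
      obtain rfl : i = k := by omega
      obtain ⟨c, hc⟩ := hb.1 rfl
      rw [CDGA.deg_rfl] at hc
      rw [hc, A.mul_comm h (by omega), A.smul_mul, A.one_mul]
      exact Submodule.smul_mem _ _ (Submodule.smul_mem _ _ ha)
    exact connS_of_le (by omega) _
  d_mem := by
    intro i j h a ha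
    by_cases c1 : i < 0 ∨ i = 1
    · rw [connS_zero c1 ha, CDGA.d_zero]
      exact Submodule.zero_mem _
    by_cases c3 : i = 0
    · subst c3
      obtain ⟨c, hc⟩ := ha.1 rfl
      rw [CDGA.deg_rfl] at hc
      rw [hc, A.d_smul, CDGA.d_one, smul_zero]
      exact Submodule.zero_mem _
    exact connS_of_le (by omega) _

theorem H_zero {i : ℤ} (h : Subsingleton (A.H i)) {z : A.A i} (hz : A.d rfl z = 0) : z ∈ A.B i :=
  CDGA.cls_eq_zero.1 (Subsingleton.elim (A.cls z hz) 0)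

theorem connSub_quasiIso (h0 : A.cls A.one (A.d_one rfl) ≠ 0)
    (hc : ∀ x : A.H 0, ∃ c : ℚ, x = c • A.cls A.one (A.d_one rfl))
    (hneg : ∀ i : ℤ, i < 0 → Subsingleton (A.H i)) (h1 : Subsingleton (A.H 1))
    {C : Submodule ℚ (A.A 2)} (hC : IsCompl (A.B 2) C) : (connSub A C).inc.IsQuasiIso := by
  have hdec : ∀ y : A.A 2, ∃ b ∈ A.B 2, ∃ c ∈ C, b + c = y := by
    intro y
    have h2 : y ∈ A.B 2 ⊔ C := by
      rw [hC.sup_eq_top]
      exact Submodule.mem_top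
    exact Submodule.mem_sup.1 h2
  have hB : ∀ b ∈ A.B 2, A.d rfl b = 0 := by
    intro b hb
    obtain ⟨y, rfl⟩ := (CDGA.mem_B (show (1 : ℤ) + 1 = 2 by ring)).1 hb
    exact A.d_d _ _ _
  have hCS : ∀ c ∈ C, c ∈ connS A C 2 := fun c hc =>
    ⟨fun h => by omega, fun h => by omega, fun h => by omega, fun h => by
      rw [CDGA.deg_rfl]; exact hc⟩
  refine SubC.inc_quasiIso _ ?_ ?_
  · intro i j h y hy
    change A.d h y ∈ connS A C j at hy
    by_cases c1 : 3 ≤ i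
    · exact ⟨y, connS_of_le c1 y, rfl⟩
    by_cases c2 : i = 2
    · subst c2
      obtain ⟨b, hb, c, hc, rfl⟩ := hdec y
      refine ⟨c, hCS c hc, ?_⟩
      obtain rfl := h
      rw [A.d_add, hB b hb, zero_add]
    refine ⟨0, Submodule.zero_mem _, ?_⟩
    rw [CDGA.d_zero]
    symm
    by_cases c3 : j < 0 ∨ j = 1
    · exact connS_zero c3 hy
    by_cases c4 : j = 0
    · subst c4
      obtain ⟨c, hc'⟩ := hy.1 rfl
      rw [CDGA.deg_rfl] at hc'
      rw [hc']
      have h5 : A.cls (c • A.one) (by rw [A.d_smul, CDGA.d_one, smul_zero]) = 0 :=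
        CDGA.cls_eq_zero.2 ((CDGA.mem_B h).2 ⟨y, hc'⟩)
      have h6 : c • A.cls A.one (A.d_one rfl) = 0 := h5
      rcases smul_eq_zero.1 h6 with h7 | h7
      · rw [h7, zero_smul]
      · exact absurd h7 h0
    · obtain rfl : i = 1 := by omega
      obtain rfl : j = 2 := by omega
      have h5 : A.d h y ∈ A.B 2 ⊓ C := ⟨(CDGA.mem_B h).2 ⟨y, rfl⟩, hy.2.2.2 rfl⟩
      rw [hC.inf_eq_bot] at h5
      exact h5
  · intro i z hz
    by_cases c1 : 3 ≤ i
    · exact ⟨z, connS_of_le c1 z, hz, by rw [sub_self]; exact Submodule.zero_mem _⟩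
    by_cases c2 : i = 2
    · subst c2
      obtain ⟨b, hb, c, hc, rfl⟩ := hdec z
      refine ⟨c, hCS c hc, ?_, ?_⟩
      · rw [A.d_add, hB b hb, zero_add] at hz
        exact hz
      · rw [add_sub_cancel_right]
        exact hb
    by_cases c3 : i = 0
    · subst c3
      obtain ⟨c, hc'⟩ := hc (A.cls z hz)
      refine ⟨c • A.one, ?_, by rw [A.d_smul, CDGA.d_one, smul_zero], ?_⟩
      · exact Submodule.smul_mem _ _ (connSub A C).one_mem
      · have h5 : A.cls z hz = A.cls (c • A.one) (by rw [A.d_smul, CDGA.d_one, smul_zero]) := hc'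
        exact (Submodule.Quotient.eq ((A.B 0).submoduleOf (A.Z 0))).1 h5
    · refine ⟨0, Submodule.zero_mem _, CDGA.d_zero _, ?_⟩
      rw [sub_zero]
      by_cases c4 : i = 1
      · subst c4
        exact H_zero h1 hz
      · exact H_zero (hneg i (by omega)) hz

theorem connSub_nonneg (C : Submodule ℚ (A.A 2)) : (connSub A C).sub.IsNonneg := by
  intro i hi
  exact ⟨fun x y => Subtype.ext ((connS_zero (Or.inl hi) x.2).trans
    (connS_zero (Or.inl hi) y.2).symm)⟩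

theorem connSub_one (C : Submodule ℚ (A.A 2)) : Subsingleton ((connSub A C).sub.A 1) :=
  ⟨fun x y => Subtype.ext ((connS_zero (Or.inr rfl) x.2).trans
    (connS_zero (Or.inr rfl) y.2).symm)⟩

theorem connSub_connected (C : Submodule ℚ (A.A 2)) (a : (connSub A C).sub.A 0) :
    ∃ c : ℚ, a = c • (connSub A C).sub.one := by
  obtain ⟨c, hc⟩ := a.2.1 rfl
  exact ⟨c, Subtype.ext hc⟩

end

end Pool.Agent.Lib.MP_43ef35_gt
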