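import Pool.Agent.Lib.MP_43ef35_gt.P14

/-!
# Finite type sub-CDGAs
-/

set_option autoImplicit false

namespace Pool.Agent.Lib.MP_43ef35_gt

universe u

/-- a relative complement -/
theorem exists_rel_compl {V : Type*} [AddCommGroup V] [Module ℚ V] (U W : Submodule ℚ V) :
    ∃ R ≤ W, R ⊓ U = ⊥ ∧ ∀ w ∈ W, ∃ x ∈ U, ∃ r ∈ R, x + r = w := by
  obtain ⟨C, hC⟩ := (U ⊓ W).exists_isCompl
  refine ⟨C ⊓ W, inf_le_right, ?_, fun w hw => ?_⟩
  · rw [eq_bot_iff]
    rintro x ⟨⟨h1, h2⟩, h3⟩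
    have h4 : x ∈ (U ⊓ W) ⊓ C := ⟨⟨h3, h2⟩, h1⟩
    rw [hC.inf_eq_bot] at h4
    exact h4
  · have h1 : w ∈ (U ⊓ W) ⊔ C := by
      rw [hC.sup_eq_top]
      exact Submodule.mem_top
    obtain ⟨x, hx, c, hc, h2⟩ := Submodule.mem_sup.1 h1
    refine ⟨x, hx.1, c, ⟨hc, ?_⟩, h2⟩
    have h3 : c = w - x := by rw [← h2]; abel
    rw [h3]
    exact W.sub_mem hw hx.2

variable {E : CDGA.{u}}

/-- products of elements of degrees `≥ 2` -/
noncomputable def PS (F : ∀ i : ℤ, Submodule ℚ (E.A i)) (l : ℤ) : Submodule ℚ (E.A l) :=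
  ⨆ i ∈ Finset.Icc 2 (l - 2), Submodule.map₂ (E.mulL (show i + (l - i) = l by ring)) (F i)
    (F (l - i))

theorem PS_fg {F : ∀ i : ℤ, Submodule ℚ (E.A i)} (hF : ∀ i, (F i).FG) (l : ℤ) : (PS F l).FG :=
  Submodule.fg_biSup _ _ fun i _ => (hF i).map₂ _ (hF (l - i))

theorem mul_mem_PS {F : ∀ i : ℤ, Submodule ℚ (E.A i)} {i j l : ℤ} (h : i + j = l) (hi : 2 ≤ i)
    (hj : 2 ≤ j) {a : E.A i} {b : E.A j} (ha : a ∈ F i) (hb : b ∈ F j) : E.mul h a b ∈ PS F l := by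
  obtain rfl : j = l - i := by omega
  exact Submodule.mem_iSup_of_mem i (Submodule.mem_iSup_of_mem (Finset.mem_Icc.2 ⟨hi, by omega⟩)
    (Submodule.apply_mem_map₂ _ ha hb))

theorem PS_congr {F G : ∀ i : ℤ, Submodule ℚ (E.A i)} {l : ℤ} (h : ∀ i ≤ l - 2, F i = G i) :
    PS F l = PS G l := by
  unfold PS
  refine iSup_congr fun i => iSup_congr fun hi => ?_
  rw [Finset.mem_Icc] at hi
  rw [h i hi.2, h (l - i) (by omega)]

/-- the conditions up to degree `K` -/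
structure Good (F : ∀ i : ℤ, Submodule ℚ (E.A i)) (K : ℤ) : Prop where
  fg : ∀ i, (F i).FG
  one : E.one ∈ F 0
  mul : ∀ {i j l : ℤ} (h : i + j = l) {a : E.A i} {b : E.A j}, l ≤ K → a ∈ F i → b ∈ F j →
    E.mul h a b ∈ F l
  d : ∀ {i j : ℤ} (h : i + 1 = j) {a : E.A i}, j ≤ K → a ∈ F i → E.d h a ∈ F j
  inj : ∀ {i j : ℤ} (h : i + 1 = j) (y : E.A i), j ≤ K → E.d h y ∈ F j →
    ∃ y' ∈ F i, E.d h y' = E.d h y
  surj : ∀ (i : ℤ) (z : E.A i), i ≤ K → E.d rfl z = 0 → ∃ s ∈ F i, E.d rfl s = 0 ∧ z - s ∈ E.B i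
  next : ∀ {l : ℤ} (h : K + 1 = l) (y : E.A K), E.d h y ∈ PS F l → ∃ y' ∈ F K, E.d h y' = E.d h y

theorem good_base (hn : E.IsNonneg) (h0 : ∀ a : E.A 0, ∃ c : ℚ, a = c • E.one)
    (h1 : Subsingleton (E.A 1)) : ∃ F : ∀ i : ℤ, Submodule ℚ (E.A i), Good F 1 := by
  classical
  have hz : ∀ (i : ℤ) (a : E.A i), a ∈ (if i = 0 then ⊤ else ⊥ : Submodule ℚ (E.A i)) → i ≠ 0 →
      a = 0 := by
    intro i a ha hi
    rw [if_neg hi] at ha
    exact ha
  have hneg : ∀ (i : ℤ) (a : E.A i), i < 0 ∨ i = 1 → a = 0 := by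
    rintro i a (h | rfl)
    · have := hn i h
      exact Subsingleton.elim _ _
    · exact Subsingleton.elim _ _
  refine ⟨fun i => if i = 0 then ⊤ else ⊥, ?_, ?_, ?_, ?_, ?_, ?_, ?_⟩
  · intro i
    by_cases hi : i = 0
    · subst hi
      simp only [if_true]
      refine ⟨{E.one}, ?_⟩
      rw [eq_top_iff]
      intro a _
      obtain ⟨c, rfl⟩ := h0 a
      exact Submodule.smul_mem _ _ (Submodule.subset_span (by simp))
    · simp only [if_neg hi]
      exact Submodule.fg_bot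
  · simp only [if_true]
    exact Submodule.mem_top
  · intro i j l h a b hl ha hb
    by_cases hi : i = 0
    · by_cases hj : j = 0
      · rw [if_pos (by omega)]
        exact Submodule.mem_top
      · rw [hz j b hb hj, CDGA.mul_zero]
        exact Submodule.zero_mem _
    · rw [hz i a ha hi, CDGA.zero_mul]
      exact Submodule.zero_mem _
  · intro i j h a hj ha
    by_cases hi : i = 0
    · subst hi
      obtain ⟨c, rfl⟩ := h0 a
      rw [E.d_smul, CDGA.d_one, smul_zero]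
      exact Submodule.zero_mem _
    · rw [hz i a ha hi, CDGA.d_zero]
      exact Submodule.zero_mem _
  · intro i j h y hj _
    refine ⟨0, Submodule.zero_mem _, ?_⟩
    rw [CDGA.d_zero]
    symm
    by_cases hj0 : j < 0 ∨ j = 1
    · exact hneg j _ hj0
    · rw [hneg i y (by omega), CDGA.d_zero]
  · intro i z hi hd
    by_cases hi0 : i = 0
    · refine ⟨z, ?_, hd, by rw [sub_self]; exact Submodule.zero_mem _⟩
      rw [if_pos hi0]
      exact Submodule.mem_top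
    · refine ⟨0, Submodule.zero_mem _, CDGA.d_zero _, ?_⟩
      rw [hneg i z (by omega), sub_zero]
      exact Submodule.zero_mem _
  · intro l h y _
    refine ⟨0, Submodule.zero_mem _, ?_⟩
    rw [hneg 1 y (Or.inr rfl)]

end Pool.Agent.Lib.MP_43ef35_gt
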