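import Pool.Agent.Lib.MP_43ef35_gt.P15

/-!
# The inductive step
-/

set_option autoImplicit false

namespace Pool.Agent.Lib.MP_43ef35_gt

universe u

variable {E : CDGA.{u}}

theorem fg_of_le' {V : Type*} [AddCommGroup V] [Module ℚ V] {S T : Submodule ℚ V} (hT : T.FG)
    (h : S ≤ T) : S.FG := by
  have : Module.Finite ℚ T := Module.Finite.iff_fg.2 hT
  have := Submodule.finiteDimensional_of_le h
  exact Module.Finite.iff_fg.1 this

theorem fg_of_inj {V W : Type*} [AddCommGroup V] [Module ℚ V] [AddCommGroup W] [Module ℚ W]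
    {S : Submodule ℚ V} (f : S →ₗ[ℚ] W) (hW : Module.Finite ℚ W) (hf : ∀ x, f x = 0 → x = 0) :
    S.FG := by
  have hinj : Function.Injective f := (injective_iff_map_eq_zero f).2 hf
  have : Module.Finite ℚ S := Module.Finite.of_injective f hinj
  exact Module.Finite.iff_fg.1 this

theorem good_step (hn : E.IsNonneg) (h0 : ∀ a : E.A 0, ∃ c : ℚ, a = c • E.one)
    (h1 : Subsingleton (E.A 1)) (hH : ∀ i, Module.Finite ℚ (E.H i)) {K : ℤ} (hK : 1 ≤ K)
    {F : ∀ i : ℤ, Submodule ℚ (E.A i)} (hF : Good F K) :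
    ∃ F' : ∀ i : ℤ, Submodule ℚ (E.A i), Good F' (K + 1) := by
  classical
  have hneg : ∀ (i : ℤ) (a : E.A i), i < 0 ∨ i = 1 → a = 0 := by
    rintro i a (h | rfl)
    · have := hn i h
      exact Subsingleton.elim _ _
    · exact Subsingleton.elim _ _
  let dK : E.A K →ₗ[ℚ] E.A (K + 1) := E.dL rfl
  let dl : E.A (K + 1) →ₗ[ℚ] E.A (K + 1 + 1) := E.dL rfl
  let P : Submodule ℚ (E.A (K + 1)) := PS F (K + 1)
  let P2 : Submodule ℚ (E.A (K + 1 + 1)) := PS F (K + 1 + 1)
  let dF : Submodule ℚ (E.A (K + 1)) := (F K).map dK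
  let dP : Submodule ℚ (E.A (K + 1 + 1)) := P.map dl
  let W : Submodule ℚ (E.A (K + 1 + 1)) := P2 ⊓ LinearMap.range dl
  obtain ⟨V, hVW, hVdP, hVdec⟩ := exists_rel_compl dP W
  obtain ⟨CZ, hCZ⟩ := (E.Z (K + 1)).exists_isCompl
  let Y : Submodule ℚ (E.A (K + 1)) := CZ ⊓ V.comap dl
  obtain ⟨R, hRZ, hRint, hRdec⟩ := exists_rel_compl ((P ⊓ E.Z (K + 1)) ⊔ E.B (K + 1))
    (E.Z (K + 1))
  have hCZ0 : ∀ y ∈ CZ, E.d rfl y = 0 → y = 0 := by
    intro y hy hd
    have h2 : y ∈ E.Z (K + 1) ⊓ CZ := ⟨(CDGA.mem_Z rfl).2 hd, hy⟩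
    rw [hCZ.inf_eq_bot] at h2
    exact h2
  have hVfg : V.FG := fg_of_le' (PS_fg hF.fg (K + 1 + 1)) (hVW.trans inf_le_left)
  have hYfg : Y.FG := by
    have hVfin : Module.Finite ℚ V := Module.Finite.iff_fg.2 hVfg
    refine fg_of_inj (W := V) ((dl.domRestrict Y).codRestrict V fun y => y.2.2) hVfin ?_
    rintro ⟨y, hy⟩ hy0
    have h2 : E.d rfl y = 0 := congrArg Subtype.val hy0
    exact Subtype.ext (hCZ0 y hy.1 h2)
  have hRfg : R.FG := by
    refine fg_of_inj (W := E.H (K + 1))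
      ((((E.B (K + 1)).submoduleOf (E.Z (K + 1))).mkQ).comp (Submodule.inclusion hRZ))
      (hH (K + 1)) ?_
    rintro ⟨r, hr⟩ hr0
    have h2 : r ∈ E.B (K + 1) := (Submodule.Quotient.mk_eq_zero
      ((E.B (K + 1)).submoduleOf (E.Z (K + 1)))).1 hr0
    have h3 : r ∈ R ⊓ ((P ⊓ E.Z (K + 1)) ⊔ E.B (K + 1)) := ⟨hr, Submodule.mem_sup_right h2⟩
    rw [hRint] at h3
    exact Subtype.ext h3
  let G : Submodule ℚ (E.A (K + 1)) := ((P ⊔ dF) ⊔ R) ⊔ Y
  have hPG : P ≤ G := le_sup_left.trans (le_sup_left.trans le_sup_left)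
  have hdFG : dF ≤ G := le_sup_right.trans (le_sup_left.trans le_sup_left)
  have hRG : R ≤ G := le_sup_right.trans le_sup_left
  have hYG : Y ≤ G := le_sup_right
  let F' : ∀ i : ℤ, Submodule ℚ (E.A i) := Function.update F (K + 1) G
  have hF'l : F' (K + 1) = G := Function.update_self _ _ _
  have hF'ne : ∀ i, i ≠ K + 1 → F' i = F i := fun i hi => Function.update_of_ne hi _ _
  refine ⟨F', ?_, ?_, ?_, ?_, ?_, ?_, ?_⟩
  · intro i
    by_cases hi : i = K + 1
    · subst hi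
      rw [hF'l]
      exact (((PS_fg hF.fg _).sup ((hF.fg K).map dK)).sup hRfg).sup hYfg
    · rw [hF'ne i hi]
      exact hF.fg i
  · rw [hF'ne 0 (by omega)]
    exact hF.one
  · intro i j l h a b hl ha hb
    by_cases c1 : i < 0 ∨ i = 1
    · rw [hneg i a c1, CDGA.zero_mul]
      exact Submodule.zero_mem _
    by_cases c2 : j < 0 ∨ j = 1
    · rw [hneg j b c2, CDGA.mul_zero]
      exact Submodule.zero_mem _
    by_cases c3 : i = 0
    · subst c3
      obtain rfl : j = l := by omega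
      obtain ⟨c, hc⟩ := h0 a
      rw [hc, E.smul_mul, E.one_mul]
      exact Submodule.smul_mem _ _ hb
    by_cases c4 : j = 0
    · subst c4
      obtain rfl : i = l := by omega
      obtain ⟨c, hc⟩ := h0 b
      rw [hc, E.mul_comm h (by omega), E.smul_mul, E.one_mul]
      exact Submodule.smul_mem _ _ (Submodule.smul_mem _ _ ha)
    rw [hF'ne i (by omega)] at ha
    rw [hF'ne j (by omega)] at hb
    by_cases c5 : l = K + 1
    · subst c5
      rw [hF'l]
      exact hPG (mul_mem_PS h (by omega) (by omega) ha hb)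
    · rw [hF'ne l c5]
      exact hF.mul h (by omega) ha hb
  · intro i j h a hj ha
    rw [hF'ne i (by omega)] at ha
    by_cases c5 : j = K + 1
    · obtain rfl : i = K := by omega
      subst c5
      rw [hF'l]
      exact hdFG ⟨a, ha, rfl⟩
    · rw [hF'ne j c5]
      exact hF.d h (by omega) ha
  · intro i j h y hj hy
    by_cases c5 : j = K + 1
    · obtain rfl : i = K := by omega
      subst c5
      rw [hF'l] at hy
      obtain ⟨x3, hx3, yy, hyy, e3⟩ := Submodule.mem_sup.1 hy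
      obtain ⟨x2, hx2, r, hr, e2⟩ := Submodule.mem_sup.1 hx3
      obtain ⟨p, hp, x1, hx1, e1⟩ := Submodule.mem_sup.1 hx2
      obtain ⟨q, hq, rfl⟩ := hx1
      have hrd : E.d rfl r = 0 := (CDGA.mem_Z rfl).1 (hRZ hr)
      have hqd : E.d (rfl : i + 1 + 1 = i + 1 + 1) (dK q) = 0 := E.d_d _ _ _
      have hyd : E.d (rfl : i + 1 + 1 = i + 1 + 1) (E.d h y) = 0 := E.d_d _ _ _
      have e4 : E.d (rfl : i + 1 + 1 = i + 1 + 1) p + E.d rfl yy = 0 := by
        rw [← e3, ← e2, ← e1, E.d_add, E.d_add, E.d_add, hrd, hqd, add_zero, add_zero] at hyd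
        exact hyd
      have h5 : E.d (rfl : i + 1 + 1 = i + 1 + 1) yy ∈ V ⊓ dP := by
        refine ⟨hyy.2, ?_⟩
        have h6 : E.d (rfl : i + 1 + 1 = i + 1 + 1) yy = -(dl p) := eq_neg_of_add_eq_zero_right e4
        rw [h6]
        exact Submodule.neg_mem _ ⟨p, hp, rfl⟩
      rw [hVdP] at h5
      have h5' : E.d (rfl : i + 1 + 1 = i + 1 + 1) yy = 0 := h5
      have hyy0 : yy = 0 := hCZ0 yy hyy.1 h5'
      subst hyy0
      rw [h5', add_zero] at e4
      rw [add_zero] at e3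
      have h7 : r ∈ R ⊓ ((P ⊓ E.Z (i + 1)) ⊔ E.B (i + 1)) := by
        refine ⟨hr, ?_⟩
        have h8 : r = -p + (E.d h y - dK q) := by
          rw [← e3, ← e2, ← e1]
          abel
        rw [h8]
        refine Submodule.add_mem _ (Submodule.mem_sup_left (Submodule.neg_mem _
          ⟨hp, (CDGA.mem_Z rfl).2 e4⟩)) (Submodule.mem_sup_right (Submodule.sub_mem _
            ((CDGA.mem_B h).2 ⟨y, rfl⟩) ((CDGA.mem_B rfl).2 ⟨q, rfl⟩)))
      rw [hRint] at h7
      have h7' : r = 0 := h7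
      subst h7'
      rw [add_zero] at e2
      have h9 : E.d h (y - q) = p := by
        have h10 : E.d h (y - q) = E.d h y - E.d h q := map_sub (E.dL h) y q
        have h11 : dK q = E.d h q := rfl
        rw [h10, ← h11, ← e3, ← e2, ← e1]
        abel
      obtain ⟨y', hy', h12⟩ := hF.next h (y - q) (by rw [h9]; exact hp)
      refine ⟨y' + q, ?_, ?_⟩
      · rw [hF'ne i (by omega)]
        exact Submodule.add_mem _ hy' hq
      · rw [E.d_add, h12]
        have h10 : E.d h (y - q) = E.d h y - E.d h q := map_sub (E.dL h) y q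
        rw [h10, sub_add_cancel]
    · rw [hF'ne j c5] at hy
      obtain ⟨y', hy', h2⟩ := hF.inj h y (by omega) hy
      refine ⟨y', ?_, h2⟩
      rw [hF'ne i (by omega)]
      exact hy'
  · intro i z hi hz
    by_cases c5 : i = K + 1
    · subst c5
      obtain ⟨x, hx, r, hr, e1⟩ := hRdec z ((CDGA.mem_Z rfl).2 hz)
      obtain ⟨p, hp, b, hb, e2⟩ := Submodule.mem_sup.1 hx
      refine ⟨p + r, ?_, ?_, ?_⟩
      · rw [hF'l]
        exact G.add_mem (hPG hp.1) (hRG hr)
      · rw [E.d_add, (CDGA.mem_Z rfl).1 hp.2, (CDGA.mem_Z rfl).1 (hRZ hr), add_zero]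
      · have h2 : z - (p + r) = b := by
          rw [← e1, ← e2]
          abel
        rw [h2]
        exact hb
    · obtain ⟨s, hs, h2⟩ := hF.surj i z (by omega) hz
      refine ⟨s, ?_, h2⟩
      rw [hF'ne i c5]
      exact hs
  · intro l h y hy
    subst h
    have hPS : PS F' (K + 1 + 1) = PS F (K + 1 + 1) := PS_congr fun i hi => hF'ne i (by omega)
    rw [hPS] at hy
    obtain ⟨x, hx, v, hv, e1⟩ := hVdec (E.d rfl y) ⟨hy, ⟨y, rfl⟩⟩
    obtain ⟨p, hp, rfl⟩ := hx
    obtain ⟨e, he⟩ := (hVW hv).2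
    have h2 : e ∈ E.Z (K + 1) ⊔ CZ := by
      rw [hCZ.sup_eq_top]
      exact Submodule.mem_top
    obtain ⟨z, hz, c, hc, h3⟩ := Submodule.mem_sup.1 h2
    have h4 : E.d rfl c = v := by
      rw [← he, ← h3]
      change _ = E.d rfl (z + c)
      rw [E.d_add, (CDGA.mem_Z rfl).1 hz, zero_add]
    refine ⟨p + c, ?_, ?_⟩
    · rw [hF'l]
      refine G.add_mem (hPG hp) (hYG ⟨hc, ?_⟩)
      change E.d rfl c ∈ V
      rw [h4]
      exact hv
    · rw [E.d_add, h4]
      exact e1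

end Pool.Agent.Lib.MP_43ef35_gt
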