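import Pool.Agent.Lib.MP_43ef35_gt.P16

/-!
# If `H^1 = 0` there is a connected model of finite type without elements of degree `1`
-/

set_option autoImplicit false

namespace Pool.Agent.Lib.MP_43ef35_gt

universe u

theorem good_all {E : CDGA.{u}} (hn : E.IsNonneg) (h0 : ∀ a : E.A 0, ∃ c : ℚ, a = c • E.one)
    (h1 : Subsingleton (E.A 1)) (hH : ∀ i, Module.Finite ℚ (E.H i)) (k : ℕ) :
    ∃ F : ∀ i : ℤ, Submodule ℚ (E.A i), Good F ((k : ℤ) + 1) := by
  induction k with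
  | zero =>
    obtain ⟨F, hF⟩ := good_base hn h0 h1
    exact ⟨F, by simpa using hF⟩
  | succ k ih =>
    obtain ⟨F, hF⟩ := ih
    obtain ⟨F', hF'⟩ := good_step hn h0 h1 hH (by omega) hF
    exact ⟨F', by push_cast; exact hF'⟩

theorem exists_fin {E : CDGA.{u}} (hn : E.IsNonneg) (h0 : ∀ a : E.A 0, ∃ c : ℚ, a = c • E.one)
    (h1 : Subsingleton (E.A 1)) (hH : ∀ i, Module.Finite ℚ (E.H i)) {m : ℤ}
    (htop : ∀ i, m < i → Subsingleton (E.A i)) :
    ∃ D : CDGA.{u}, ConnFin D ∧ Subsingleton (D.A 1) ∧ QuasiIsomorphic E D := by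
  obtain ⟨F, hF⟩ := good_all hn h0 h1 hH m.toNat
  have hz : ∀ (i : ℤ) (a : E.A i), ¬ i ≤ (m.toNat : ℤ) + 1 → a = 0 := by
    intro i a hi
    have := htop i (by omega)
    exact Subsingleton.elim _ _
  let N : SubC E :=
    { S := F
      one_mem := hF.one
      mul_mem := by
        intro i j k h a b ha hb
        by_cases hk : k ≤ (m.toNat : ℤ) + 1
        · exact hF.mul h hk ha hb
        · rw [hz k (E.mul h a b) hk]
          exact Submodule.zero_mem _
      d_mem := by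
        intro i j h a ha
        by_cases hj : j ≤ (m.toNat : ℤ) + 1
        · exact hF.d h hj ha
        · rw [hz j (E.d h a) hj]
          exact Submodule.zero_mem _ }
  have hN : N.inc.IsQuasiIso := by
    refine SubC.inc_quasiIso _ ?_ ?_
    · intro i j h y hy
      by_cases hj : j ≤ (m.toNat : ℤ) + 1
      · exact hF.inj h y hj hy
      · exact ⟨0, Submodule.zero_mem _, by rw [hz j (E.d h y) hj, CDGA.d_zero]⟩
    · intro i z hzz
      by_cases hi : i ≤ (m.toNat : ℤ) + 1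
      · exact hF.surj i z hi hzz
      · refine ⟨0, Submodule.zero_mem _, CDGA.d_zero _, ?_⟩
        rw [hz i z hi, sub_zero]
        exact Submodule.zero_mem _
  refine ⟨N.sub, ⟨?_, ?_, ?_⟩, ?_, N.quasiIsomorphic hN⟩
  · intro i hi
    have := hn i hi
    exact ⟨fun x y => Subtype.ext (Subsingleton.elim _ _)⟩
  · intro a
    obtain ⟨c, hc⟩ := h0 a.1
    exact ⟨c, Subtype.ext hc⟩
  · intro i
    exact Module.Finite.iff_fg.2 (hF.fg i)
  · exact ⟨fun x y => Subtype.ext (Subsingleton.elim _ _)⟩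

/-- A CDGA whose cohomology satisfies Poincaré duality, is zero in negative degrees and in degree
`1`, has a connected model of finite type without elements of degree `1`. -/
theorem exists_model {A : CDGA.{u}} {m : ℤ} (hA : PoincareDuality A m)
    (hneg : ∀ i : ℤ, i < 0 → Subsingleton (A.H i)) (h1 : Subsingleton (A.H 1)) :
    ∃ D : CDGA.{u}, ConnFin D ∧ Subsingleton (D.A 1) ∧ QuasiIsomorphic A D := by
  obtain ⟨C, hC⟩ := (A.B 2).exists_isCompl
  have hq1 : QuasiIsomorphic A (connSub A C).sub :=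
    (connSub A C).quasiIsomorphic (connSub_quasiIso hA.one_ne_zero hA.connected hneg h1 hC)
  have hPD := PoincareDuality.transport (HIso.of_quasiIsomorphic hq1) hA
  have hn := connSub_nonneg (A := A) C
  have h0 := connSub_connected (A := A) C
  have hs1 := connSub_one (A := A) C
  have hcompl : ∀ i, ∃ C' : Submodule ℚ ((connSub A C).sub.A i),
      IsCompl ((connSub A C).sub.Z i) C' := fun i => ((connSub A C).sub.Z i).exists_isCompl
  choose C' hC' using hcompl
  let 𝒯 := tIdeal m False hn h0 False.elim C'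
  have hmem := fun i a => mem_tIdeal (m := m) False hn h0 False.elim C' i a
  have hq2 : QuasiIsomorphic (connSub A C).sub (quo 𝒯) := by
    refine Relation.EqvGen.rel _ _ ⟨quoHom 𝒯, isQuasiIso_of_surj _ ?_ ?_⟩
    · intro i y
      exact Submodule.mkQ_surjective _ y
    · intro i j h x hx hd
      have hx' : x ∈ 𝒯.I j := (Submodule.Quotient.mk_eq_zero _).1 hx
      obtain ⟨z, hz, hzx⟩ := tIdeal_contr hPD False hn h0 False.elim C' hC' h x hx' hd
      exact ⟨z, (Submodule.Quotient.mk_eq_zero _).2 hz, hzx⟩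
  have hPD2 := PoincareDuality.transport (HIso.of_quasiIsomorphic hq2) hPD
  have key : ∃ D : CDGA.{u}, ConnFin D ∧ Subsingleton (D.A 1) ∧ QuasiIsomorphic (quo 𝒯) D := by
    refine exists_fin (m := m) ?_ ?_ ?_ hPD2.finite ?_
    · intro i hi
      have := hn i hi
      refine ⟨fun x y => ?_⟩
      obtain ⟨x, rfl⟩ := qmk_surj 𝒯 x
      obtain ⟨y, rfl⟩ := qmk_surj 𝒯 y
      rw [Subsingleton.elim x y]
    · intro a
      obtain ⟨a, rfl⟩ := qmk_surj 𝒯 a
      obtain ⟨c, rfl⟩ := h0 a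
      exact ⟨c, rfl⟩
    · refine ⟨fun x y => ?_⟩
      obtain ⟨x, rfl⟩ := qmk_surj 𝒯 x
      obtain ⟨y, rfl⟩ := qmk_surj 𝒯 y
      rw [Subsingleton.elim x y]
    · intro i hi
      have hz : ∀ x : (quo 𝒯).A i, x = 0 := by
        intro x
        obtain ⟨x, rfl⟩ := qmk_surj 𝒯 x
        exact (Submodule.Quotient.mk_eq_zero _).2 ((hmem i x).2 (Or.inl hi))
      exact ⟨fun x y => (hz x).trans (hz y).symm⟩
  obtain ⟨D, hD, hD1, hq3⟩ := key
  exact ⟨D, hD, hD1, Relation.EqvGen.trans _ _ _ hq1 (Relation.EqvGen.trans _ _ _ hq2 hq3)⟩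

/-- Sufficiency. -/
theorem cone_of_metabolic3 {A : CDGA.{u}} {n : ℤ} (hA : PoincareDuality A (n - 1))
    (hM : Metabolic A (n - 1))
    (hD : ((∀ i : ℤ, i < 0 ∨ i = 1 → Subsingleton (A.H i))) ∨
      (Even n ∧ ∃ D : CDGA.{u}, ConnFin D ∧ QuasiIsomorphic A D) ∨
      (∃ (D : CDGA.{u}) (ε : D.A (n - 1) →ₗ[ℚ] ℚ), StrictPD D (n - 1) ε ∧
        QuasiIsomorphic A D) ∨
      (A.IsNonneg ∧ ∃ D : CDGA.{u}, (∀ {i j : ℤ} (h : i + 1 = j) (a : D.A i), D.d h a = 0) ∧
        QuasiIsomorphic A D)) :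
    ∃ (Q : CDGA.{u}) (Ψ : BalancedMap (shiftedDual Q n)),
      Q.IsNonneg ∧ (∀ i, Module.Finite ℚ (Q.A i)) ∧ (cone Ψ).IsNonneg ∧
      QuasiIsomorphic A (cone Ψ) := by
  rcases hD with h | ⟨hn, D, hD1, hD2⟩ | h
  · obtain ⟨D, hD, hD1, hq⟩ := exists_model hA (fun i hi => h i (Or.inl hi)) (h 1 (Or.inr rfl))
    exact cone_of_metabolic2 hA hM (Or.inl ⟨D, hD, Or.inr hD1, hq⟩)
  · exact cone_of_metabolic2 hA hM (Or.inl ⟨D, hD1, Or.inl hn, hD2⟩)
  · exact cone_of_metabolic2 hA hM (Or.inr h)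

end Pool.Agent.Lib.MP_43ef35_gt
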