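import Pool.Agent.Lib.MP_43ef35_gt.P1

/-!
# The balanced map of a CDGA over `A` with a primitive of the orientation
-/

set_option autoImplicit false

namespace Pool.Agent.Lib.MP_43ef35_gt

universe u

/-- The data: `A` with an orientation `ε` of degree `m`, a dg ideal `J` of `A` with `J J = 0`, and a
CDGA `T` of finite type over `A`, onto `A / J`, with a primitive `lam` of `ε`. -/
structure LData (A T : CDGA.{u}) (m n : ℤ) where
  hn : m + 1 = n
  ε : A.A m →ₗ[ℚ] ℚ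
  J : DGIdeal A
  JJ : ∀ {i j k : ℤ} (h : i + j = k) {a : A.A i} {b : A.A j}, a ∈ J.I i → b ∈ J.I j →
    A.mul h a b = 0
  εd : ∀ {i : ℤ} (h : i + 1 = m) (a : A.A i), ε (A.d h a) = 0
  toA : Hom T A
  surj : ∀ (i : ℤ) (a : A.A i), ∃ t : T.A i, toA.f i t - a ∈ J.I i
  lam : T.A n →ₗ[ℚ] ℚ
  stokes : ∀ t : T.A m, lam (T.d hn t) = ε (toA.f m t)
  fin : ∀ i : ℤ, Module.Finite ℚ (T.A i)

namespace LData

variable {A T : CDGA.{u}} {m n : ℤ} (D : LData A T m n)

/-- the ideal `ev⁻¹ J` -/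
def I : DGIdeal T where
  I i := (D.J.I i).comap (D.toA.f i)
  mul_mem {i j k} h a b hb := by
    rw [Submodule.mem_comap, D.toA.map_mul]
    exact D.J.mul_mem h _ hb
  d_mem {i j} h a ha := by
    rw [Submodule.mem_comap, D.toA.map_d]
    exact D.J.d_mem h ha

theorem mem_I {i : ℤ} {a : T.A i} : a ∈ D.I.I i ↔ D.toA.f i a ∈ D.J.I i := Iff.rfl

theorem lam_comm {i j : ℤ} (h : i + j = n) (a : T.A i) (b : T.A j) :
    D.lam (T.mul h a b) = sgn (i * j) * D.lam (T.mul (show j + i = n by omega) b a) := by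
  rw [T.mul_comm h (show j + i = n by omega), map_smul, smul_eq_mul]

theorem ε_comm {i j : ℤ} (h : i + j = m) (a : A.A i) (b : A.A j) :
    D.ε (A.mul h a b) = sgn (i * j) * D.ε (A.mul (show j + i = m by omega) b a) := by
  rw [A.mul_comm h (show j + i = m by omega), map_smul, smul_eq_mul]

/-- Stokes' formula for a product -/
theorem stokes_mul {i j i' j' : ℤ} (h : i + j = m) (hi : i + 1 = i') (hj : j + 1 = j')
    (h₁ : i' + j = n) (h₂ : i + j' = n) (a : T.A i) (b : T.A j) :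
    D.lam (T.mul h₁ (T.d hi a) b) + sgn i * D.lam (T.mul h₂ a (T.d hj b)) =
      D.ε (A.mul h (D.toA.f i a) (D.toA.f j b)) := by
  have h0 := D.stokes (T.mul h a b)
  rw [T.leibniz h hi hj D.hn h₁ h₂, map_add, map_smul, smul_eq_mul, D.toA.map_mul] at h0
  exact h0

/-- the radical of the pairing on `I` -/
def N : DGIdeal T where
  I i :=
    { carrier := {β | β ∈ D.I.I i ∧ ∀ (j : ℤ) (h : i + j = n) (q : T.A j), q ∈ D.I.I j →
        D.lam (T.mul h β q) = 0}
      add_mem' := fun {a b} ha hb => ⟨Submodule.add_mem _ ha.1 hb.1, fun j h q hq => by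
        rw [T.add_mul, map_add, ha.2 j h q hq, hb.2 j h q hq, add_zero]⟩
      zero_mem' := ⟨Submodule.zero_mem _, fun j h q hq => by rw [T.zero_mul, map_zero]⟩
      smul_mem' := fun c a ha => ⟨Submodule.smul_mem _ _ ha.1, fun j h q hq => by
        rw [T.smul_mul, map_smul, ha.2 j h q hq, smul_zero]⟩ }
  mul_mem {i j k} h a b hb := by
    refine ⟨D.I.mul_mem h a hb.1, fun l hl q hq => ?_⟩
    rw [T.mul_comm h (show j + i = k by omega), T.smul_mul, map_smul,
      T.mul_assoc (show j + i = k by omega) hl (show i + l = i + l from rfl) (by omega),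
      hb.2 _ _ _ (D.I.mul_mem _ a hq), smul_zero]
  d_mem {i j} h a ha := by
    refine ⟨D.I.d_mem h ha.1, fun l hl q hq => ?_⟩
    have h1 := D.stokes_mul (show i + l = m by have := D.hn; omega) h rfl hl
      (show i + (l + 1) = n by omega) a q
    rw [ha.2 _ _ _ (D.I.d_mem rfl hq), mul_zero, add_zero] at h1
    rw [h1, D.JJ _ ha.1 hq, map_zero]

theorem mem_N {i : ℤ} {β : T.A i} : β ∈ D.N.I i ↔ β ∈ D.I.I i ∧
    ∀ (j : ℤ) (h : i + j = n) (q : T.A j), q ∈ D.I.I j → D.lam (T.mul h β q) = 0 := Iff.rfl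

theorem mem_N_of {i j : ℤ} (h : i + j = n) {β : T.A i} (h1 : β ∈ D.I.I i)
    (h2 : ∀ q : T.A j, q ∈ D.I.I j → D.lam (T.mul h β q) = 0) : β ∈ D.N.I i := by
  refine ⟨h1, fun j' h' q hq => ?_⟩
  obtain rfl : j' = j := by omega
  exact h2 q hq

/-- a functional on `I` that vanishes on the radical is `lam (β ·)` for some `β` in `I` -/
theorem exists_rep {i j : ℤ} (h : i + j = n) (f : T.A j →ₗ[ℚ] ℚ) (hf : ∀ b ∈ D.N.I j, f b = 0) :
    ∃ β ∈ D.I.I i, ∀ q ∈ D.I.I j, D.lam (T.mul h β q) = f q := by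
  have := D.fin j
  have := D.fin i
  let κ : D.I.I i →ₗ[ℚ] Module.Dual ℚ (D.I.I j) :=
    { toFun := fun β => (D.lam ∘ₗ T.mulL h β.1) ∘ₗ (D.I.I j).subtype
      map_add' := fun β β' => by
        ext q
        change D.lam (T.mul h (β.1 + β'.1) q.1) = D.lam (T.mul h β.1 q.1) + D.lam (T.mul h β'.1 q.1)
        rw [T.add_mul, map_add]
      map_smul' := fun c β => by
        ext q
        change D.lam (T.mul h (c • β.1) q.1) = c • D.lam (T.mul h β.1 q.1)
        rw [T.smul_mul, map_smul] }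
  have hκ : ∀ (β : D.I.I i) (q : D.I.I j), κ β q = D.lam (T.mul h β.1 q.1) := fun _ _ => rfl
  have hmem : f ∘ₗ (D.I.I j).subtype ∈ LinearMap.range κ := by
    rw [← Subspace.dualCoannihilator_dualAnnihilator_eq (W := LinearMap.range κ),
      Submodule.mem_dualAnnihilator]
    intro w hw
    rw [Submodule.mem_dualCoannihilator] at hw
    refine hf w.1 (D.mem_N_of (show j + i = n by omega) w.2 fun q hq => ?_)
    rw [D.lam_comm, ← hκ ⟨q, hq⟩ w, hw _ ⟨_, rfl⟩, mul_zero]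
  obtain ⟨β, hβ⟩ := hmem
  refine ⟨β.1, β.2, fun q hq => ?_⟩
  have := congrArg (fun g => g ⟨q, hq⟩) hβ
  exact this

/-- the CDGA `Q = T / N` -/
abbrev Q : CDGA.{u} := quo D.N

/-- `x` on classes -/
def evx {p : ℤ} (x : (shiftedDual D.Q n).M p) (q : T.A (n - p)) : ℚ :=
  ev x (qmk D.N q : D.Q.A (n - p))

/-- `β` represents the functional `x` -/
def Rep {p : ℤ} (x : (shiftedDual D.Q n).M p) (β : T.A p) : Prop :=
  β ∈ D.I.I p ∧ ∀ q ∈ D.I.I (n - p), D.lam (T.mul (show p + (n - p) = n by omega) β q) = D.evx x q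

theorem exists_Rep {p : ℤ} (x : (shiftedDual D.Q n).M p) : ∃ β, D.Rep x β := by
  let x' : D.Q.A (n - p) →ₗ[ℚ] ℚ := x
  obtain ⟨β, h1, h2⟩ := D.exists_rep (show p + (n - p) = n by omega)
    (x' ∘ₗ (D.N.I (n - p)).mkQ) (fun b hb => by
      have h3 : (D.N.I (n - p)).mkQ b = 0 := (Submodule.Quotient.mk_eq_zero _).2 hb
      exact (congrArg x' h3).trans (map_zero x'))
  exact ⟨β, h1, h2⟩

/-- the value of `Ψ` -/
noncomputable def psi {p : ℤ} (x : (shiftedDual D.Q n).M p) : D.Q.A p :=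
  qmk D.N (D.exists_Rep x).choose

theorem psi_eq {p : ℤ} {x : (shiftedDual D.Q n).M p} {β : T.A p} (h : D.Rep x β) :
    D.psi x = (qmk D.N β : D.Q.A p) := by
  have h0 := (D.exists_Rep x).choose_spec
  refine (qmk_eq D.N).2 (D.mem_N_of (show p + (n - p) = n by omega)
    (Submodule.sub_mem _ h0.1 h.1) fun q hq => ?_)
  have h1 := map_sub (T.mulL (show p + (n - p) = n by omega)) (D.exists_Rep x).choose β
  have h2 := congrArg (fun g => g q) h1
  simp only [LinearMap.sub_apply, CDGA.mulL_apply] at h2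
  rw [h2, map_sub, h0.2 q hq, h.2 q hq, sub_self]

theorem Rep.add {p : ℤ} {x y : (shiftedDual D.Q n).M p} {β γ : T.A p} (h : D.Rep x β)
    (h' : D.Rep y γ) : D.Rep (x + y) (β + γ) := by
  refine ⟨Submodule.add_mem _ h.1 h'.1, fun q hq => ?_⟩
  rw [T.add_mul, map_add, h.2 q hq, h'.2 q hq]
  rfl

theorem Rep.smul {p : ℤ} {x : (shiftedDual D.Q n).M p} {β : T.A p} (c : ℚ) (h : D.Rep x β) :
    D.Rep (c • x) (c • β) := by
  refine ⟨Submodule.smul_mem _ _ h.1, fun q hq => ?_⟩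
  rw [T.smul_mul, map_smul, h.2 q hq]
  rfl

theorem Rep.act {i j k : ℤ} (h : i + j = k) (a : T.A i) {x : (shiftedDual D.Q n).M j} {β : T.A j}
    (hx : D.Rep x β) :
    D.Rep ((shiftedDual D.Q n).act h (qmk D.N a : D.Q.A i) x) (T.mul h a β) := by
  refine ⟨D.I.mul_mem h a hx.1, fun q hq => ?_⟩
  have h1 : D.evx ((shiftedDual D.Q n).act h (qmk D.N a : D.Q.A i) x) q =
      sgn (i * j) * D.evx x (T.mul (show i + (n - k) = n - j by omega) a q) := rfl
  rw [h1, ← hx.2 _ (D.I.mul_mem _ a hq), T.mul_comm h (show j + i = k by omega), T.smul_mul,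
    map_smul, smul_eq_mul, T.mul_assoc (show j + i = k by omega) (show k + (n - k) = n by omega)
    (show i + (n - k) = n - j by omega) (show j + (n - j) = n by omega)]

theorem Rep.d {i j : ℤ} (h : i + 1 = j) {x : (shiftedDual D.Q n).M i} {β : T.A i}
    (hx : D.Rep x β) : D.Rep ((shiftedDual D.Q n).d h x) (T.d h β) := by
  refine ⟨D.I.d_mem h hx.1, fun q hq => ?_⟩
  have h1 : D.evx ((shiftedDual D.Q n).d h x) q =
      -(sgn i * D.evx x (T.d (show (n - j) + 1 = n - i by omega) q)) := rfl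
  have h2 := D.stokes_mul (show i + (n - j) = m by have := D.hn; omega) h
    (show (n - j) + 1 = n - i by omega) (show j + (n - j) = n by omega)
    (show i + (n - i) = n by omega) β q
  rw [D.JJ _ hx.1 hq, map_zero] at h2
  rw [h1, ← hx.2 _ (D.I.d_mem _ hq)]
  linarith

/-- The balanced map `Ψ : s^{-n} #Q → Q`. -/
noncomputable def Ψ : BalancedMap (shiftedDual D.Q n) where
  Ψ {i j} h x := D.Q.deg h (D.psi x)
  map_add {i} x x' := by
    obtain ⟨β, hβ⟩ := D.exists_Rep x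
    obtain ⟨γ, hγ⟩ := D.exists_Rep x'
    rw [CDGA.deg_rfl, CDGA.deg_rfl, CDGA.deg_rfl, D.psi_eq hβ, D.psi_eq hγ,
      D.psi_eq (Rep.add D hβ hγ), qmk_add]
    rfl
  map_smul {i} c x := by
    obtain ⟨β, hβ⟩ := D.exists_Rep x
    rw [CDGA.deg_rfl, CDGA.deg_rfl, D.psi_eq hβ, D.psi_eq (Rep.smul D c hβ), qmk_smul]
    rfl
  map_act {i j k} h a x := by
    obtain ⟨β, hβ⟩ := D.exists_Rep x
    obtain ⟨a, rfl⟩ := qmk_surj D.N a
    rw [CDGA.deg_rfl, CDGA.deg_rfl, D.psi_eq hβ, D.psi_eq (Rep.act D h a hβ)]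
    rfl
  map_d {i j} h x := by
    obtain ⟨β, hβ⟩ := D.exists_Rep x
    rw [CDGA.deg_rfl, CDGA.deg_rfl, D.psi_eq hβ, D.psi_eq (Rep.d D h hβ)]
    rfl
  balanced {i j k} h h' x y := by
    obtain ⟨β, hβ⟩ := D.exists_Rep x
    obtain ⟨γ, hγ⟩ := D.exists_Rep y
    rw [CDGA.deg_rfl, CDGA.deg_rfl, D.psi_eq hβ, D.psi_eq hγ]
    refine ev_ext fun q => ?_
    obtain ⟨q, rfl⟩ := qmk_surj D.N q
    have h1 : ev ((shiftedDual D.Q n).act h (qmk D.N β : D.Q.A i) y) (qmk D.N q) =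
      sgn (i * j) * D.evx y (T.mul (show i + (n - k) = n - j by omega) β q) := rfl
    have h2 : ev (sgn (i * j) • (shiftedDual D.Q n).act h' (qmk D.N γ : D.Q.A j) x) (qmk D.N q) =
      sgn (i * j) * (sgn (j * i) * D.evx x (T.mul (show j + (n - k) = n - i by omega) γ q)) := rfl
    rw [h1, h2, ← hγ.2 _ (D.I.mul_mem' _ q hβ.1), ← hβ.2 _ (D.I.mul_mem' _ q hγ.1)]
    have h3 : D.lam (T.mul (show j + (n - j) = n by omega) γ
        (T.mul (show i + (n - k) = n - j by omega) β q)) = sgn (j * i) *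
        D.lam (T.mul (show i + (n - i) = n by omega) β
        (T.mul (show j + (n - k) = n - i by omega) γ q)) := by
      rw [← T.mul_assoc h' (show k + (n - k) = n by omega), T.mul_comm h' h, T.smul_mul, map_smul,
        smul_eq_mul, T.mul_assoc h (show k + (n - k) = n by omega)
        (show j + (n - k) = n - i by omega) (show i + (n - i) = n by omega)]
    rw [h3]

theorem Ψ_eq {p p' : ℤ} (h : p = p') {x : (shiftedDual D.Q n).M p} {β : T.A p} (hx : D.Rep x β) :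
    D.Ψ.Ψ h x = D.Q.deg h (qmk D.N β : D.Q.A p) := by
  rw [← D.psi_eq hx]
  rfl

end LData

end Pool.Agent.Lib.MP_43ef35_gt
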