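import Pool.Agent.Lib.MP_43ef35_gt.P2

/-!
# The intermediate CDGA `Γ = T ⊕ s(I ⊕ s⁻¹ J)` and the quasi-isomorphisms to the cone and to `A`
-/

set_option autoImplicit false

namespace Pool.Agent.Lib.MP_43ef35_gt

universe u

theorem CDGA.mul_deg {A : CDGA.{u}} {i j j' k k' : ℤ} (e : j = j') (h : i + j' = k')
    (h' : i + j = k) (e' : k = k') (a : A.A i) (b : A.A j) :
    A.mul h a (A.deg e b) = A.deg e' (A.mul h' a b) := by
  subst e
  subst e'
  rfl

theorem CDGA.deg_mul {A : CDGA.{u}} {i i' j k k' : ℤ} (e : i = i') (h : i' + j = k')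
    (h' : i + j = k) (e' : k = k') (a : A.A i) (b : A.A j) :
    A.mul h (A.deg e a) b = A.deg e' (A.mul h' a b) := by
  subst e
  subst e'
  rfl

theorem CDGA.mul_deg' {A : CDGA.{u}} {i j k k' : ℤ} (h : i + j = k) (h' : i + j = k')
    (e : k = k') (a : A.A i) (b : A.A j) : A.deg e (A.mul h a b) = A.mul h' a b := by
  subst e
  rfl

theorem CDGA.d_deg' {A : CDGA.{u}} {i i' j j' : ℤ} (e : i = i') (h : i' + 1 = j') (h' : i + 1 = j)
    (e' : j = j') (a : A.A i) : A.d h (A.deg e a) = A.deg e' (A.d h' a) := by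
  subst e
  subst e'
  rfl

theorem DGIdeal.deg_mem {A : CDGA.{u}} (N : DGIdeal A) {i j : ℤ} (e : i = j) {a : A.A i}
    (ha : a ∈ N.I i) : A.deg e a ∈ N.I j := by
  subst e
  exact ha

namespace LData

variable {A T : CDGA.{u}} {m n : ℤ} (D : LData A T m n)

/-- elements of `I ⊕ s⁻¹ J` -/
abbrev MM (p : ℤ) : Type u := (D.I.I p) × (D.J.I (p - 1))

/-- the pair `(β, s⁻¹ u)` -/
def mkM {p : ℤ} (β : T.A p) (hβ : β ∈ D.I.I p) (w : A.A (p - 1)) (hw : w ∈ D.J.I (p - 1)) :
    D.MM p := (⟨β, hβ⟩, ⟨w, hw⟩)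

theorem MM_ext {p : ℤ} {x y : D.MM p} (h1 : x.1.1 = y.1.1) (h2 : x.2.1 = y.2.1) : x = y :=
  Prod.ext (Subtype.ext h1) (Subtype.ext h2)

/-- the action of `T` on `I ⊕ s⁻¹ J` -/
def actM {i j k : ℤ} (h : i + j = k) (a : T.A i) (x : D.MM j) : D.MM k :=
  D.mkM (T.mul h a x.1.1) (D.I.mul_mem h a x.1.2)
    (sgn i • A.mul (show i + (j - 1) = k - 1 by omega) (D.toA.f i a) x.2.1)
    (Submodule.smul_mem _ _ (D.J.mul_mem _ _ x.2.2))

/-- the differential of `I ⊕ s⁻¹ J` -/
def dM {i j : ℤ} (h : i + 1 = j) (x : D.MM i) : D.MM j :=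
  D.mkM (T.d h x.1.1) (D.I.d_mem h x.1.2)
    (-(A.deg (show i = j - 1 by omega) (D.toA.f i x.1.1) +
      A.d (show (i - 1) + 1 = j - 1 by omega) x.2.1))
    (Submodule.neg_mem _ (Submodule.add_mem _ (D.J.deg_mem _ x.1.2) (D.J.d_mem _ x.2.2)))

/-- the dg module `I ⊕ s⁻¹ J` over `T` -/
def MG : DGMod T where
  M := D.MM
  act h a x := D.actM h a x
  d h x := D.dM h x
  add_act {i j k} h a a' x := by
    refine D.MM_ext (T.add_mul h a a' x.1.1) ?_
    change sgn i • A.mul _ (D.toA.f i (a + a')) x.2.1 = sgn i • A.mul _ (D.toA.f i a) x.2.1 +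
      sgn i • A.mul _ (D.toA.f i a') x.2.1
    rw [map_add, A.add_mul, smul_add]
  smul_act {i j k} h c a x := by
    refine D.MM_ext (T.smul_mul h c a x.1.1) ?_
    change sgn i • A.mul _ (D.toA.f i (c • a)) x.2.1 = c • sgn i • A.mul _ (D.toA.f i a) x.2.1
    rw [map_smul, A.smul_mul, smul_comm]
  act_add {i j k} h a x x' := by
    refine D.MM_ext (CDGA.mul_add h a x.1.1 x'.1.1) ?_
    change sgn i • A.mul _ (D.toA.f i a) (x.2.1 + x'.2.1) = sgn i • A.mul _ (D.toA.f i a) x.2.1 +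
      sgn i • A.mul _ (D.toA.f i a) x'.2.1
    rw [CDGA.mul_add, smul_add]
  act_smul {i j k} h c a x := by
    refine D.MM_ext (CDGA.mul_smul h c a x.1.1) ?_
    change sgn i • A.mul _ (D.toA.f i a) (c • x.2.1) = c • sgn i • A.mul _ (D.toA.f i a) x.2.1
    rw [CDGA.mul_smul, smul_comm]
  one_act {i} h x := by
    refine D.MM_ext (T.one_mul h x.1.1) ?_
    change sgn 0 • A.mul _ (D.toA.f 0 T.one) x.2.1 = x.2.1
    rw [D.toA.map_one, A.one_mul]
    simp [sgn]
  mul_act {i j k ij jk l} h₁ h₂ h₃ h₄ a b x := by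
    refine D.MM_ext (T.mul_assoc h₁ h₂ h₃ h₄ a b x.1.1) ?_
    change sgn ij • A.mul _ (D.toA.f ij (T.mul h₁ a b)) x.2.1 =
      sgn i • A.mul _ (D.toA.f i a) (sgn j • A.mul _ (D.toA.f j b) x.2.1)
    rw [D.toA.map_mul, CDGA.mul_smul, smul_smul, ← sgn_add, h₁,
      A.mul_assoc h₁ (show ij + (k - 1) = l - 1 by omega) (show j + (k - 1) = jk - 1 by omega)
        (show i + (jk - 1) = l - 1 by omega)]
  d_add {i j} h x x' := by
    refine D.MM_ext (T.d_add h _ _) ?_
    change -(A.deg _ (D.toA.f i (x.1.1 + x'.1.1)) + A.d _ (x.2.1 + x'.2.1)) =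
      -(A.deg _ (D.toA.f i x.1.1) + A.d _ x.2.1) + -(A.deg _ (D.toA.f i x'.1.1) + A.d _ x'.2.1)
    rw [map_add, map_add, A.d_add]
    abel
  d_smul {i j} h c x := by
    refine D.MM_ext (T.d_smul h _ _) ?_
    change -(A.deg _ (D.toA.f i (c • x.1.1)) + A.d _ (c • x.2.1)) =
      c • -(A.deg _ (D.toA.f i x.1.1) + A.d _ x.2.1)
    rw [map_smul, map_smul, A.d_smul, smul_neg, smul_add]
  d_d {i j k} h h' x := by
    refine D.MM_ext (T.d_d h h' _) ?_
    change -(A.deg (show j = k - 1 by omega) (D.toA.f j (T.d h x.1.1)) +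
      A.d (show (j - 1) + 1 = k - 1 by omega)
        (-(A.deg (show i = j - 1 by omega) (D.toA.f i x.1.1) +
          A.d (show (i - 1) + 1 = j - 1 by omega) x.2.1))) = 0
    have e1 : A.d (show (j - 1) + 1 = k - 1 by omega)
        (-(A.deg (show i = j - 1 by omega) (D.toA.f i x.1.1) +
          A.d (show (i - 1) + 1 = j - 1 by omega) x.2.1)) =
        -(A.d (show (j - 1) + 1 = k - 1 by omega)
          (A.deg (show i = j - 1 by omega) (D.toA.f i x.1.1)) +
          A.d (show (j - 1) + 1 = k - 1 by omega)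
            (A.d (show (i - 1) + 1 = j - 1 by omega) x.2.1)) := by
      have := map_neg (A.dL (show (j - 1) + 1 = k - 1 by omega))
        (A.deg (show i = j - 1 by omega) (D.toA.f i x.1.1) +
          A.d (show (i - 1) + 1 = j - 1 by omega) x.2.1)
      refine this.trans ?_
      rw [map_add]
      rfl
    rw [e1, A.d_d, add_zero, CDGA.d_deg' (show i = j - 1 by omega)
      (show (j - 1) + 1 = k - 1 by omega) h (show j = k - 1 by omega), D.toA.map_d h, add_neg_cancel,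
      neg_zero]
  leibniz {i j k i' j' k'} h hi hj hk h₁ h₂ a x := by
    refine D.MM_ext (T.leibniz h hi hj hk h₁ h₂ a x.1.1) ?_
    change -(A.deg (show k = k' - 1 by omega) (D.toA.f k (T.mul h a x.1.1)) +
      A.d (show (k - 1) + 1 = k' - 1 by omega)
        (sgn i • A.mul (show i + (j - 1) = k - 1 by omega) (D.toA.f i a) x.2.1)) =
      sgn i' • A.mul (show i' + (j - 1) = k' - 1 by omega) (D.toA.f i' (T.d hi a)) x.2.1 +
      sgn i • sgn i • A.mul (show i + (j' - 1) = k' - 1 by omega) (D.toA.f i a)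
        (-(A.deg (show j = j' - 1 by omega) (D.toA.f j x.1.1) +
          A.d (show (j - 1) + 1 = j' - 1 by omega) x.2.1))
    rw [A.d_smul, A.leibniz (show i + (j - 1) = k - 1 by omega) hi
      (show (j - 1) + 1 = j' - 1 by omega) (show (k - 1) + 1 = k' - 1 by omega)
      (show i' + (j - 1) = k' - 1 by omega) (show i + (j' - 1) = k' - 1 by omega),
      ← neg_one_smul ℚ (A.deg (show j = j' - 1 by omega) (D.toA.f j x.1.1) +
          A.d (show (j - 1) + 1 = j' - 1 by omega) x.2.1), CDGA.mul_smul, CDGA.mul_add,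
      CDGA.mul_deg (show j = j' - 1 by omega) (show i + (j' - 1) = k' - 1 by omega) h
        (show k = k' - 1 by omega), D.toA.map_mul h, D.toA.map_d hi]
    have f4 : sgn i' = -sgn i := by
      rw [← hi, sgn_add]
      norm_num [sgn]
    rw [f4]
    generalize A.deg _ (A.mul h _ _) = t1
    generalize A.mul _ (A.d _ _) _ = t2
    generalize A.mul _ (D.toA.f i a) (A.d _ _) = t3
    rcases sgn_cases i with h' | h' <;> rw [h'] <;> simp only [neg_smul, one_smul,
      neg_neg, smul_add, smul_neg] <;> abel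

/-- the balanced map `I ⊕ s⁻¹ J → T` -/
def PG : BalancedMap D.MG where
  Ψ {i j} h x := T.deg h (x : D.MM i).1.1
  map_add x x' := rfl
  map_smul c x := rfl
  map_act h a x := rfl
  map_d h x := rfl
  balanced {i j k} h h' x y := by
    refine D.MM_ext (T.mul_comm h h' _ _) ?_
    change sgn i • A.mul (show i + (j - 1) = k - 1 by omega) (D.toA.f i (x : D.MM i).1.1)
      (y : D.MM j).2.1 = sgn (i * j) • sgn j • A.mul (show j + (i - 1) = k - 1 by omega)
      (D.toA.f j (y : D.MM j).1.1) (x : D.MM i).2.1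
    rw [D.JJ _ (x : D.MM i).1.2 (y : D.MM j).2.2, D.JJ _ (y : D.MM j).1.2 (x : D.MM i).2.2]
    simp

/-- the functional `q ↦ lam (β q) + ε (u q)` on `T` -/
def preX {p : ℤ} (x : D.MM p) : T.A (n - p) →ₗ[ℚ] ℚ :=
  D.lam ∘ₗ T.mulL (show p + (n - p) = n by omega) x.1.1 +
    D.ε ∘ₗ A.mulL (show (p - 1) + (n - p) = m by have := D.hn; omega) x.2.1 ∘ₗ D.toA.f (n - p)

theorem preX_apply {p : ℤ} (x : D.MM p) (q : T.A (n - p)) :
    D.preX x q = D.lam (T.mul (show p + (n - p) = n by omega) x.1.1 q) +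
      D.ε (A.mul (show (p - 1) + (n - p) = m by have := D.hn; omega) x.2.1 (D.toA.f (n - p) q)) :=
  rfl

/-- the functional of `(β, s⁻¹ u)` on `Q` -/
def XG {p : ℤ} (x : D.MM p) : (shiftedDual D.Q n).M p :=
  ofDual (Submodule.liftQ (D.N.I (n - p)) (D.preX x) (fun q hq => by
    rw [LinearMap.mem_ker, preX_apply, D.lam_comm, hq.2 _ _ _ x.1.2, mul_zero, zero_add,
      D.JJ _ x.2.2 hq.1, map_zero]))

theorem evx_XG {p : ℤ} (x : D.MM p) (q : T.A (n - p)) : D.evx (D.XG x) q = D.preX x q := rfl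

theorem evx_ext {p : ℤ} {x y : (shiftedDual D.Q n).M p} (h : ∀ q, D.evx x q = D.evx y q) :
    x = y := by
  refine ev_ext fun q => ?_
  obtain ⟨q, rfl⟩ := qmk_surj D.N q
  exact h q

theorem XG_Rep {p : ℤ} (x : D.MM p) : D.Rep (D.XG x) x.1.1 := by
  refine ⟨x.1.2, fun q hq => ?_⟩
  rw [evx_XG, preX_apply, D.JJ _ x.2.2 hq, map_zero, add_zero]

theorem XG_add {p : ℤ} (x y : D.MM p) : D.XG (x + y) = D.XG x + D.XG y := by
  refine D.evx_ext fun q => ?_
  have h1 : D.evx (D.XG x + D.XG y) q = D.evx (D.XG x) q + D.evx (D.XG y) q := rfl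
  rw [h1, evx_XG, evx_XG, evx_XG, preX_apply, preX_apply, preX_apply]
  have h2 : (x + y).1.1 = x.1.1 + y.1.1 := rfl
  have h3 : (x + y).2.1 = x.2.1 + y.2.1 := rfl
  rw [h2, h3, T.add_mul, A.add_mul, map_add, map_add]
  ring

theorem XG_smul {p : ℤ} (c : ℚ) (x : D.MM p) : D.XG (c • x) = c • D.XG x := by
  refine D.evx_ext fun q => ?_
  have h1 : D.evx (c • D.XG x) q = c * D.evx (D.XG x) q := rfl
  rw [h1, evx_XG, evx_XG, preX_apply, preX_apply]
  have h2 : (c • x).1.1 = c • x.1.1 := rfl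
  have h3 : (c • x).2.1 = c • x.2.1 := rfl
  rw [h2, h3, T.smul_mul, A.smul_mul, map_smul, map_smul, smul_eq_mul, smul_eq_mul]
  ring

theorem XG_act {i j k : ℤ} (h : i + j = k) (a : T.A i) (x : D.MM j) :
    D.XG (D.actM h a x) = (shiftedDual D.Q n).act h (qmk D.N a : D.Q.A i) (D.XG x) := by
  refine D.evx_ext fun q => ?_
  have h1 : D.evx ((shiftedDual D.Q n).act h (qmk D.N a : D.Q.A i) (D.XG x)) q =
      sgn (i * j) * D.evx (D.XG x) (T.mul (show i + (n - k) = n - j by omega) a q) := rfl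
  have h2 : (D.actM h a x).1.1 = T.mul h a x.1.1 := rfl
  have h3 : (D.actM h a x).2.1 =
    sgn i • A.mul (show i + (j - 1) = k - 1 by omega) (D.toA.f i a) x.2.1 := rfl
  rw [h1, evx_XG, evx_XG, preX_apply, preX_apply, h2, h3, T.mul_comm h (show j + i = k by omega),
    T.smul_mul, map_smul, smul_eq_mul, T.mul_assoc (show j + i = k by omega)
    (show k + (n - k) = n by omega) (show i + (n - k) = n - j by omega)
    (show j + (n - j) = n by omega), A.smul_mul, map_smul, smul_eq_mul,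
    A.mul_comm (show i + (j - 1) = k - 1 by omega) (show (j - 1) + i = k - 1 by omega), A.smul_mul,
    map_smul, smul_eq_mul, A.mul_assoc (show (j - 1) + i = k - 1 by omega)
    (show (k - 1) + (n - k) = m by have := D.hn; omega) (show i + (n - k) = n - j by omega)
    (show (j - 1) + (n - j) = m by have := D.hn; omega), D.toA.map_mul]
  have e1 : i * j = i * (j - 1) + i := by ring
  rw [e1, sgn_add]
  ring

theorem XG_d {i j : ℤ} (h : i + 1 = j) (x : D.MM i) :
    D.XG (D.dM h x) = (shiftedDual D.Q n).d h (D.XG x) := by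
  refine D.evx_ext fun q => ?_
  have h1 : D.evx ((shiftedDual D.Q n).d h (D.XG x)) q =
      -(sgn i * D.evx (D.XG x) (T.d (show (n - j) + 1 = n - i by omega) q)) := rfl
  have h2 : (D.dM h x).1.1 = T.d h x.1.1 := rfl
  have h3 : (D.dM h x).2.1 = -(A.deg (show i = j - 1 by omega) (D.toA.f i x.1.1) +
      A.d (show (i - 1) + 1 = j - 1 by omega) x.2.1) := rfl
  rw [h1, evx_XG, evx_XG, preX_apply, preX_apply, h2, h3]
  have s1 := D.stokes_mul (show i + (n - j) = m by have := D.hn; omega) h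
    (show (n - j) + 1 = n - i by omega) (show j + (n - j) = n by omega)
    (show i + (n - i) = n by omega) x.1.1 q
  have s2 := A.leibniz (show (i - 1) + (n - j) = m - 1 by have := D.hn; omega)
    (show (i - 1) + 1 = j - 1 by omega)
    (show (n - j) + 1 = n - i by omega) (show (m - 1) + 1 = m by ring)
    (show (j - 1) + (n - j) = m by have := D.hn; omega)
    (show (i - 1) + (n - i) = m by have := D.hn; omega) x.2.1 (D.toA.f (n - j) q)
  have s3 := congrArg D.ε s2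
  rw [D.εd, map_add, map_smul, smul_eq_mul, ← D.toA.map_d] at s3
  have s4 : A.mul (show (j - 1) + (n - j) = m by have := D.hn; omega)
      (-(A.deg (show i = j - 1 by omega) (D.toA.f i x.1.1) +
      A.d (show (i - 1) + 1 = j - 1 by omega) x.2.1)) (D.toA.f (n - j) q) =
      -(A.mul (show i + (n - j) = m by have := D.hn; omega) (D.toA.f i x.1.1)
        (D.toA.f (n - j) q) + A.mul (show (j - 1) + (n - j) = m by have := D.hn; omega)
        (A.d (show (i - 1) + 1 = j - 1 by omega) x.2.1) (D.toA.f (n - j) q)) := by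
    rw [← neg_one_smul ℚ (_ + _), A.smul_mul, A.add_mul,
      CDGA.deg_mul (show i = j - 1 by omega) (show (j - 1) + (n - j) = m by have := D.hn; omega)
        (show i + (n - j) = m by have := D.hn; omega) rfl, CDGA.deg_rfl, neg_one_smul]
  rw [s4, map_neg, map_add]
  have e1 : i = (i - 1) + 1 := by ring
  have e2 : sgn i = -sgn (i - 1) := by
    conv_lhs => rw [e1]
    rw [sgn_add]
    norm_num [sgn]
  rw [e2] at s1 ⊢
  linarith

/-- nondegeneracy of the pairing of `J` with `A / J`, on the side of `J` -/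
def Inj : Prop := ∀ {i j : ℤ} (h : i + j = m) {w : A.A i}, w ∈ D.J.I i →
    (∀ b : A.A j, D.ε (A.mul h w b) = 0) → w = 0

/-- every functional on `A / J` is given by an element of `J` -/
def Rpr : Prop := ∀ {i j : ℤ} (h : i + j = m) (f : A.A j →ₗ[ℚ] ℚ), (∀ b ∈ D.J.I j, f b = 0) →
    ∃ w ∈ D.J.I i, ∀ b, D.ε (A.mul h w b) = f b

theorem XG_surj (hrep : D.Rpr) {p : ℤ} (x : (shiftedDual D.Q n).M p) :
    ∃ y : D.MM p, D.XG y = x := by
  obtain ⟨β, hβ⟩ := D.exists_Rep x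
  let x0 : D.MM p := D.mkM β hβ.1 0 (Submodule.zero_mem _)
  let x' : D.Q.A (n - p) →ₗ[ℚ] ℚ := x
  let g : T.A (n - p) →ₗ[ℚ] ℚ := x' ∘ₗ (D.N.I (n - p)).mkQ - D.preX x0
  have hg : ∀ q, g q = D.evx x q - D.preX x0 q := fun q => rfl
  have hgI : ∀ q ∈ D.I.I (n - p), g q = 0 := by
    intro q hq
    rw [hg, ← hβ.2 q hq, preX_apply]
    have h0 : x0.2.1 = 0 := rfl
    have h5 : x0.1.1 = β := rfl
    rw [h0, h5, CDGA.zero_mul, map_zero, add_zero, sub_self]
  -- `g` descends to `A / J`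
  obtain ⟨f, hf⟩ := exists_factor ((D.J.I (n - p)).mkQ ∘ₗ D.toA.f (n - p)) g (by
    intro q hq
    refine hgI q ?_
    rw [mem_I]
    exact (Submodule.Quotient.mk_eq_zero _).1 hq)
  obtain ⟨w, hw, hwf⟩ := hrep (show (p - 1) + (n - p) = m by have := D.hn; omega)
    (f ∘ₗ (D.J.I (n - p)).mkQ) (fun b hb => by
      have h3 : (D.J.I (n - p)).mkQ b = 0 := (Submodule.Quotient.mk_eq_zero _).2 hb
      exact (congrArg f h3).trans (map_zero f))
  refine ⟨D.mkM β hβ.1 w hw, D.evx_ext fun q => ?_⟩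
  rw [evx_XG, preX_apply]
  have h1 := hwf (D.toA.f (n - p) q)
  have h2 : (f ∘ₗ (D.J.I (n - p)).mkQ) (D.toA.f (n - p) q) = g q := hf q
  rw [h2, hg, preX_apply] at h1
  have h0 : x0.2.1 = 0 := rfl
  rw [h0, CDGA.zero_mul, map_zero, add_zero] at h1
  have h3 : (D.mkM β hβ.1 w hw).2.1 = w := rfl
  have h4 : (D.mkM β hβ.1 w hw).1.1 = β := rfl
  have h5 : x0.1.1 = β := rfl
  rw [h3, h4, h1, h5]
  ring

theorem mem_N_of_XG {p : ℤ} (x : D.MM p) (h : D.XG x = 0) : x.1.1 ∈ D.N.I p := by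
  refine D.mem_N_of (show p + (n - p) = n by omega) x.1.2 fun q hq => ?_
  have h1 := (D.XG_Rep x).2 q hq
  rw [h] at h1
  exact h1.trans rfl

theorem XG_inj (hinj : D.Inj) {p : ℤ} (x y : D.MM p) (hx : D.XG x = 0) (hy : D.XG y = 0)
    (h : x.1.1 = y.1.1) : x = y := by
  refine D.MM_ext h (sub_eq_zero.1 (hinj (show (p - 1) + (n - p) = m by have := D.hn; omega)
    (Submodule.sub_mem _ x.2.2 y.2.2) fun b => ?_))
  obtain ⟨t, ht⟩ := D.surj (n - p) b
  have h1 : D.preX x t = 0 := by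
    rw [← evx_XG, hx]; rfl
  have h2 : D.preX y t = 0 := by
    rw [← evx_XG, hy]; rfl
  have h3 : D.ε (A.mul (show (p - 1) + (n - p) = m by have := D.hn; omega) (x.2.1 - y.2.1)
      (D.toA.f (n - p) t)) = 0 := by
    rw [preX_apply] at h1 h2
    have h4 := map_sub (A.mulL (show (p - 1) + (n - p) = m by have := D.hn; omega)) x.2.1 y.2.1
    have h5 := congrArg (fun g => g (D.toA.f (n - p) t)) h4
    simp only [LinearMap.sub_apply, CDGA.mulL_apply] at h5
    rw [h5, map_sub]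
    rw [h] at h1
    linarith
  have h6 := D.JJ (show (p - 1) + (n - p) = m by have := D.hn; omega)
    (Submodule.sub_mem _ x.2.2 y.2.2) ht
  have h7 := map_sub (A.mulL (show (p - 1) + (n - p) = m by have := D.hn; omega)
    (x.2.1 - y.2.1)) (D.toA.f (n - p) t) b
  simp only [CDGA.mulL_apply] at h7
  rw [h6] at h7
  rw [← sub_eq_zero.1 h7.symm, h3]

theorem exists_XG_zero (hrep : D.Rpr) {p : ℤ} (β : T.A p) (hβ : β ∈ D.N.I p) :
    ∃ y : D.MM p, D.XG y = 0 ∧ y.1.1 = β := by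
  -- `lam (β ·)` vanishes on `I`
  let x0 : D.MM p := D.mkM β hβ.1 0 (Submodule.zero_mem _)
  let g : T.A (n - p) →ₗ[ℚ] ℚ := D.preX x0
  have hgI : ∀ q ∈ D.I.I (n - p), g q = 0 := by
    intro q hq
    change D.preX x0 q = 0
    rw [preX_apply]
    have h0 : x0.2.1 = 0 := rfl
    have h1 : x0.1.1 = β := rfl
    rw [h0, h1, CDGA.zero_mul, map_zero, add_zero, hβ.2 _ _ q hq]
  obtain ⟨f, hf⟩ := exists_factor ((D.J.I (n - p)).mkQ ∘ₗ D.toA.f (n - p)) g (by
    intro q hq
    refine hgI q ?_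
    rw [mem_I]
    exact (Submodule.Quotient.mk_eq_zero _).1 hq)
  obtain ⟨w, hw, hwf⟩ := hrep (show (p - 1) + (n - p) = m by have := D.hn; omega)
    (f ∘ₗ (D.J.I (n - p)).mkQ) (fun b hb => by
      have h3 : (D.J.I (n - p)).mkQ b = 0 := (Submodule.Quotient.mk_eq_zero _).2 hb
      exact (congrArg f h3).trans (map_zero f))
  refine ⟨D.mkM β hβ.1 (-w) (Submodule.neg_mem _ hw), D.evx_ext fun q => ?_, rfl⟩
  rw [evx_XG, preX_apply]
  have h1 := hwf (D.toA.f (n - p) q)
  have h2 : (f ∘ₗ (D.J.I (n - p)).mkQ) (D.toA.f (n - p) q) = g q := hf q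
  have h2' : g q = D.preX x0 q := rfl
  rw [h2, h2', preX_apply] at h1
  have h0 : x0.2.1 = 0 := rfl
  have h5 : x0.1.1 = β := rfl
  rw [h0, h5, CDGA.zero_mul, map_zero, add_zero] at h1
  have h3 : (D.mkM β hβ.1 (-w) (Submodule.neg_mem _ hw)).2.1 = -w := rfl
  have h4 : (D.mkM β hβ.1 (-w) (Submodule.neg_mem _ hw)).1.1 = β := rfl
  rw [h3, h4, ← neg_one_smul ℚ w, A.smul_mul, map_smul, h1, smul_eq_mul]
  change _ = (0 : ℚ)
  ring

end LData

end Pool.Agent.Lib.MP_43ef35_gt
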