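import Pool.Agent.Lib.MP_43ef35_gt.P3

/-!
# The quasi-isomorphisms `cone ← Γ → A`
-/

set_option autoImplicit false

namespace Pool.Agent.Lib.MP_43ef35_gt

universe u

namespace LData

variable {A T : CDGA.{u}} {m n : ℤ} (D : LData A T m n)

/-- the second component of an element of `Γ` -/
def s2 {i : ℤ} (x : (cone D.PG).A i) : D.MM (i + 1) := c2 D.PG x

/-- an element of `Γ` -/
def mkG {i : ℤ} (a : T.A i) (y : D.MM (i + 1)) : (cone D.PG).A i := mkC D.PG a y

theorem c1_mkG {i : ℤ} (a : T.A i) (y : D.MM (i + 1)) : c1 D.PG (D.mkG a y) = a := rfl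
theorem s2_mkG {i : ℤ} (a : T.A i) (y : D.MM (i + 1)) : D.s2 (D.mkG a y) = y := rfl

theorem G_ext {i : ℤ} {x y : (cone D.PG).A i} (h₁ : c1 D.PG x = c1 D.PG y)
    (h₂ : D.s2 x = D.s2 y) : x = y := Prod.ext h₁ h₂

theorem c1_dG {i j : ℤ} (h : i + 1 = j) (x : (cone D.PG).A i) :
    c1 D.PG ((cone D.PG).d h x) = T.d h (c1 D.PG x) + T.deg h (D.s2 x).1.1 := rfl

theorem s2_dG {i j : ℤ} (h : i + 1 = j) (x : (cone D.PG).A i) :
    D.s2 ((cone D.PG).d h x) = -D.dM (show i + 1 + 1 = j + 1 by omega) (D.s2 x) := rfl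

theorem s2_mulG {i j k : ℤ} (h : i + j = k) (x : (cone D.PG).A i) (y : (cone D.PG).A j) :
    D.s2 ((cone D.PG).mul h x y) =
      sgn i • D.actM (show i + (j + 1) = k + 1 by omega) (c1 D.PG x) (D.s2 y) +
      sgn (i * j) • sgn j • D.actM (show j + (i + 1) = k + 1 by omega) (c1 D.PG y) (D.s2 x) := rfl

/-- the element `u` of `J` in the degree of the element of `Γ` -/
def uu {i : ℤ} (x : (cone D.PG).A i) : A.A i := A.deg (show i + 1 - 1 = i by ring) (D.s2 x).2.1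

theorem uu_mem {i : ℤ} (x : (cone D.PG).A i) : D.uu x ∈ D.J.I i :=
  D.J.deg_mem _ (D.s2 x).2.2

/-- The map `Γ → A`, `(α, β, u) ↦ ev α - u`. -/
def GA : Hom (cone D.PG) A where
  f i :=
    { toFun := fun x => D.toA.f i (c1 D.PG x) - D.uu x
      map_add' := fun x y => by
        have h1 : D.uu (x + y) = D.uu x + D.uu y := map_add _ _ _
        rw [h1, c1_add, map_add]
        abel
      map_smul' := fun c x => by
        have h1 : D.uu (c • x) = c • D.uu x := map_smul _ _ _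
        rw [h1, c1_smul, map_smul, RingHom.id_apply, smul_sub] }
  map_one := by
    change D.toA.f 0 T.one - A.deg _ 0 = A.one
    rw [map_zero, sub_zero, D.toA.map_one]
  map_mul {i j k} h x y := by
    change D.toA.f k (T.mul h (c1 D.PG x) (c1 D.PG y)) - D.uu ((cone D.PG).mul h x y) =
      A.mul h (D.toA.f i (c1 D.PG x) - D.uu x) (D.toA.f j (c1 D.PG y) - D.uu y)
    have h1 : D.uu ((cone D.PG).mul h x y) = A.mul h (D.toA.f i (c1 D.PG x)) (D.uu y) +
        A.mul h (D.uu x) (D.toA.f j (c1 D.PG y)) := by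
      unfold uu
      rw [s2_mulG]
      change A.deg _ (sgn i • sgn i • A.mul (show i + (j + 1 - 1) = k + 1 - 1 by omega)
          (D.toA.f i (c1 D.PG x)) (D.s2 y).2.1 +
        sgn (i * j) • sgn j • sgn j • A.mul (show j + (i + 1 - 1) = k + 1 - 1 by omega)
          (D.toA.f j (c1 D.PG y)) (D.s2 x).2.1) = _
      rw [map_add, map_smul, map_smul, map_smul, map_smul, map_smul,
        ← CDGA.mul_deg (show j + 1 - 1 = j by ring) h (show i + (j + 1 - 1) = k + 1 - 1 by omega)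
          (show k + 1 - 1 = k by ring),
        ← CDGA.mul_deg (show i + 1 - 1 = i by ring) (show j + i = k by omega)
          (show j + (i + 1 - 1) = k + 1 - 1 by omega) (show k + 1 - 1 = k by ring),
        A.mul_comm (show j + i = k by omega) h, smul_smul, smul_smul, smul_smul, smul_smul]
      have e1 : sgn i * sgn i = 1 := by rcases sgn_cases i with h | h <;> rw [h] <;> norm_num
      have e2 : sgn (i * j) * sgn j * sgn j * sgn (j * i) = 1 := by
        rw [mul_comm j i]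
        rcases sgn_cases (i * j) with h | h <;> rcases sgn_cases j with h' | h' <;>
          rw [h, h'] <;> norm_num
      rw [e1, _root_.one_smul]
      congr 1
      rw [e2, _root_.one_smul]
    rw [h1, D.toA.map_mul]
    have h2 : A.mul h (D.uu x) (D.uu y) = 0 := D.JJ h (D.uu_mem x) (D.uu_mem y)
    have h3 : A.mul h (D.toA.f i (c1 D.PG x) - D.uu x) (D.toA.f j (c1 D.PG y) - D.uu y) =
        A.mul h (D.toA.f i (c1 D.PG x)) (D.toA.f j (c1 D.PG y)) -
        A.mul h (D.toA.f i (c1 D.PG x)) (D.uu y) - A.mul h (D.uu x) (D.toA.f j (c1 D.PG y)) +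
        A.mul h (D.uu x) (D.uu y) := by
      have e1 := map_sub (A.mulL h) (D.toA.f i (c1 D.PG x)) (D.uu x)
      have e2 := congrArg (fun g => g (D.toA.f j (c1 D.PG y) - D.uu y)) e1
      simp only [LinearMap.sub_apply, CDGA.mulL_apply] at e2
      rw [e2]
      have e3 := map_sub (A.mulL h (D.toA.f i (c1 D.PG x))) (D.toA.f j (c1 D.PG y)) (D.uu y)
      have e4 := map_sub (A.mulL h (D.uu x)) (D.toA.f j (c1 D.PG y)) (D.uu y)
      simp only [CDGA.mulL_apply] at e3 e4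
      rw [e3, e4]
      abel
    rw [h3, h2]
    abel
  map_d {i j} h x := by
    change D.toA.f j (c1 D.PG ((cone D.PG).d h x)) - D.uu ((cone D.PG).d h x) =
      A.d h (D.toA.f i (c1 D.PG x) - D.uu x)
    have h0 := map_sub (A.dL h) (D.toA.f i (c1 D.PG x)) (D.uu x)
    have h0' : A.d h (D.toA.f i (c1 D.PG x) - D.uu x) = A.d h (D.toA.f i (c1 D.PG x)) -
      A.d h (D.uu x) := h0
    rw [h0', c1_dG, map_add, D.toA.map_d]
    have h1 : D.uu ((cone D.PG).d h x) = D.toA.f j (T.deg h (D.s2 x).1.1) + A.d h (D.uu x) := by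
      subst h
      unfold uu
      rw [s2_dG]
      change A.deg _ (-(-(A.deg (show i + 1 = i + 1 + 1 - 1 by ring)
        (D.toA.f (i + 1) (D.s2 x).1.1) +
        A.d (show (i + 1 - 1) + 1 = (i + 1 + 1) - 1 by ring) (D.s2 x).2.1))) = _
      rw [neg_neg, map_add, CDGA.deg_deg, CDGA.deg_rfl, CDGA.deg_rfl,
        CDGA.d_deg' (show i + 1 - 1 = i by ring) rfl
          (show (i + 1 - 1) + 1 = (i + 1 + 1) - 1 by ring) (show i + 1 + 1 - 1 = i + 1 by ring)]
    rw [h1]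
    abel

/-- The map `Γ → Q ⊕ s s^{-n} #Q`. -/
noncomputable def GC : Hom (cone D.PG) (cone D.Ψ) where
  f i :=
    { toFun := fun x => mkC D.Ψ (qmk D.N (c1 D.PG x) : D.Q.A i) (D.XG (D.s2 x))
      map_add' := fun x y => by
        refine cone_ext D.Ψ rfl ?_
        change D.XG (D.s2 x + D.s2 y) = D.XG (D.s2 x) + D.XG (D.s2 y)
        exact D.XG_add _ _
      map_smul' := fun c x => by
        refine cone_ext D.Ψ rfl ?_
        change D.XG (c • D.s2 x) = c • D.XG (D.s2 x)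
        exact D.XG_smul _ _ }
  map_one := by
    refine cone_ext D.Ψ rfl ?_
    change D.XG (0 : D.MM (0 + 1)) = 0
    have := D.XG_smul 0 (0 : D.MM (0 + 1))
    rwa [zero_smul, zero_smul] at this
  map_mul {i j k} h x y := by
    refine cone_ext D.Ψ rfl ?_
    change D.XG (D.s2 ((cone D.PG).mul h x y)) =
      sgn i • (shiftedDual D.Q n).act (show i + (j + 1) = k + 1 by omega)
        (qmk D.N (c1 D.PG x) : D.Q.A i) (D.XG (D.s2 y)) +
      sgn (i * j) • sgn j • (shiftedDual D.Q n).act (show j + (i + 1) = k + 1 by omega)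
        (qmk D.N (c1 D.PG y) : D.Q.A j) (D.XG (D.s2 x))
    rw [s2_mulG, XG_add, XG_smul, XG_smul, XG_smul, XG_act, XG_act]
  map_d {i j} h x := by
    subst h
    refine cone_ext D.Ψ ?_ ?_
    · change (qmk D.N (c1 D.PG ((cone D.PG).d rfl x)) : D.Q.A (i + 1)) =
        D.Q.d rfl (qmk D.N (c1 D.PG x) : D.Q.A i) + D.Ψ.Ψ rfl (D.XG (D.s2 x))
      rw [D.Ψ_eq rfl (D.XG_Rep (D.s2 x)), c1_dG]
      rfl
    · change D.XG (D.s2 ((cone D.PG).d rfl x)) =
        -(shiftedDual D.Q n).d (show i + 1 + 1 = i + 1 + 1 by omega) (D.XG (D.s2 x))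
      rw [s2_dG, ← neg_one_smul ℚ (D.dM _ _), XG_smul, XG_d, neg_one_smul]

theorem GA_apply {i : ℤ} (x : (cone D.PG).A i) :
    D.GA.f i x = D.toA.f i (c1 D.PG x) - D.uu x := rfl

theorem GC_apply {i : ℤ} (x : (cone D.PG).A i) :
    D.GC.f i x = mkC D.Ψ (qmk D.N (c1 D.PG x) : D.Q.A i) (D.XG (D.s2 x)) := rfl

theorem GA_quasiIso : D.GA.IsQuasiIso := by
  refine isQuasiIso_of_surj _ ?_ ?_
  · intro i a
    obtain ⟨t, ht⟩ := D.surj i a
    refine ⟨D.mkG t (D.mkM 0 (Submodule.zero_mem _)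
      (A.deg (show i = i + 1 - 1 by ring) (D.toA.f i t - a)) (D.J.deg_mem _ ht)), ?_⟩
    rw [GA_apply, c1_mkG]
    have h1 : D.uu (D.mkG t (D.mkM 0 (Submodule.zero_mem _)
      (A.deg (show i = i + 1 - 1 by ring) (D.toA.f i t - a)) (D.J.deg_mem _ ht))) =
      A.deg (show i + 1 - 1 = i by ring) (A.deg (show i = i + 1 - 1 by ring)
        (D.toA.f i t - a)) := rfl
    rw [h1, CDGA.deg_deg, CDGA.deg_rfl, sub_sub_cancel]
  · intro i j h x hx hd
    subst h
    rw [GA_apply, sub_eq_zero] at hx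
    have hI : c1 D.PG x ∈ D.I.I (i + 1) := by
      rw [mem_I, hx]
      exact D.uu_mem x
    have hd1 := congrArg (c1 D.PG) hd
    rw [c1_dG, CDGA.deg_rfl] at hd1
    have hd1' : T.d rfl (c1 D.PG x) + (D.s2 x).1.1 = 0 := hd1
    refine ⟨D.mkG 0 (D.mkM (c1 D.PG x) hI 0 (Submodule.zero_mem _)), ?_, ?_⟩
    · rw [GA_apply, c1_mkG, map_zero, zero_sub, neg_eq_zero]
      exact map_zero _
    · refine D.G_ext ?_ ?_
      · rw [c1_dG, c1_mkG, CDGA.d_zero, zero_add, s2_mkG]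
        rfl
      · rw [s2_dG, s2_mkG]
        refine D.MM_ext ?_ ?_
        · change -(T.d rfl (c1 D.PG x)) = (D.s2 x).1.1
          exact (eq_neg_of_add_eq_zero_right hd1').symm
        · change -(-(A.deg (show i + 1 = i + 1 + 1 - 1 by ring) (D.toA.f (i + 1) (c1 D.PG x)) +
            A.d (show (i + 1 - 1) + 1 = (i + 1 + 1) - 1 by ring) 0)) = (D.s2 x).2.1
          rw [neg_neg, CDGA.d_zero, add_zero, hx, uu, CDGA.deg_deg, CDGA.deg_rfl]

theorem GC_quasiIso (hinj : D.Inj) (hrep : D.Rpr) : D.GC.IsQuasiIso := by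
  refine isQuasiIso_of_surj _ ?_ ?_
  · intro i y
    obtain ⟨a, ha⟩ := qmk_surj D.N (c1 D.Ψ y)
    obtain ⟨z, hz⟩ := D.XG_surj hrep (c2 D.Ψ y)
    refine ⟨D.mkG a z, ?_⟩
    rw [GC_apply, c1_mkG, s2_mkG, hz]
    exact cone_ext D.Ψ ha rfl
  · intro i j h x hx hd
    subst h
    rw [GC_apply] at hx
    have hx1 : c1 D.PG x ∈ D.N.I (i + 1) := by
      have := congrArg (c1 D.Ψ) hx
      exact (Submodule.Quotient.mk_eq_zero _).1 this
    have hx2 : D.XG (D.s2 x) = 0 := congrArg (c2 D.Ψ) hx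
    have hd1 := congrArg (c1 D.PG) hd
    rw [c1_dG, CDGA.deg_rfl] at hd1
    have hd1' : T.d rfl (c1 D.PG x) + (D.s2 x).1.1 = 0 := hd1
    obtain ⟨y, hy0, hy1⟩ := D.exists_XG_zero hrep (c1 D.PG x) hx1
    refine ⟨D.mkG 0 y, ?_, ?_⟩
    · rw [GC_apply, c1_mkG, s2_mkG, hy0]
      rfl
    · refine D.G_ext ?_ ?_
      · rw [c1_dG, c1_mkG, CDGA.d_zero, zero_add, s2_mkG, CDGA.deg_rfl, hy1]
      · rw [s2_dG, s2_mkG]
        refine D.XG_inj hinj _ _ ?_ hx2 ?_
        · rw [← neg_one_smul ℚ (D.dM _ _), XG_smul, XG_d, hy0]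
          have h1 := (shiftedDual D.Q n).d_zero (show i + 1 + 1 = i + 1 + 1 from rfl)
          rw [h1, smul_zero]
        · change -(T.d _ y.1.1) = (D.s2 x).1.1
          rw [hy1]
          exact (eq_neg_of_add_eq_zero_right hd1').symm

/-- The cone is quasi-isomorphic to `A`. -/
theorem quasiIsomorphic (hGC : D.GC.IsQuasiIso) : QuasiIsomorphic A (cone D.Ψ) :=
  Relation.EqvGen.trans _ _ _ (Relation.EqvGen.symm _ _ (Relation.EqvGen.rel _ _ ⟨D.GA, D.GA_quasiIso⟩))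
    (Relation.EqvGen.rel _ _ ⟨D.GC, hGC⟩)

/-- `Q` is non-negatively graded if `T` is. -/
theorem Q_nonneg (h : T.IsNonneg) : D.Q.IsNonneg := by
  intro i hi
  have := h i hi
  refine ⟨fun a b => ?_⟩
  obtain ⟨a, rfl⟩ := qmk_surj D.N a
  obtain ⟨b, rfl⟩ := qmk_surj D.N b
  rw [Subsingleton.elim a b]

theorem Q_top (h0 : ∀ a ∈ D.I.I 0, a = 0) (hT : T.IsNonneg)
    (htop : ∀ (j : ℤ) (a : T.A j), n ≤ j → a ∈ D.I.I j) (j : ℤ) (hj : n ≤ j) :
    Subsingleton (D.Q.A j) := by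
  have h1 : ∀ a : D.Q.A j, a = 0 := by
    intro a
    obtain ⟨a, rfl⟩ := qmk_surj D.N a
    refine (Submodule.Quotient.mk_eq_zero _).2 ⟨htop j a hj, fun l hl q hq => ?_⟩
    by_cases h2 : l < 0
    · have := hT l h2
      rw [Subsingleton.elim q 0, CDGA.mul_zero, map_zero]
    · obtain rfl : l = 0 := by omega
      rw [h0 q hq, CDGA.mul_zero, map_zero]
  exact ⟨fun a b => (h1 a).trans (h1 b).symm⟩

theorem cone_nonneg (h0 : ∀ a ∈ D.I.I 0, a = 0) (hT : T.IsNonneg)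
    (htop : ∀ (j : ℤ) (a : T.A j), n ≤ j → a ∈ D.I.I j) : (cone D.Ψ).IsNonneg := by
  intro i hi
  have h1 := D.Q_nonneg hT i hi
  have h2 := D.Q_top h0 hT htop (n - (i + 1)) (by omega)
  refine ⟨fun x y => cone_ext D.Ψ (Subsingleton.elim _ _) (ev_ext fun z => ?_)⟩
  rw [Subsingleton.elim z 0, map_zero, map_zero]

end LData

end Pool.Agent.Lib.MP_43ef35_gt
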