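import Pool.Agent.Lib.MP_43ef35_gt.P4

/-!
# The CDGA `X ⊗ Λ(θ)`, `d x = d_X x + θ E x`, of a CDGA `X` with a derivation `E` of degree `0`
-/

set_option autoImplicit false

namespace Pool.Agent.Lib.MP_43ef35_gt

universe u

/-- A derivation of degree `0` that commutes with the differential. -/
structure Eul (X : CDGA.{u}) where
  E : ∀ i : ℤ, X.A i →ₗ[ℚ] X.A i
  mul : ∀ {i j k : ℤ} (h : i + j = k) (a : X.A i) (b : X.A j),
    E k (X.mul h a b) = X.mul h (E i a) b + X.mul h a (E j b)
  d : ∀ {i j : ℤ} (h : i + 1 = j) (a : X.A i), E j (X.d h a) = X.d h (E i a)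

theorem Eul.one {X : CDGA.{u}} (e : Eul X) : e.E 0 X.one = 0 := by
  have h1 := e.mul (show (0 : ℤ) + 0 = 0 by ring) X.one X.one
  rw [X.one_mul, X.one_mul, X.mul_comm (show (0 : ℤ) + 0 = 0 by ring)
    (show (0 : ℤ) + 0 = 0 by ring) (e.E 0 X.one), X.one_mul] at h1
  have h2 : sgn (0 * 0) = 1 := by norm_num [sgn]
  rw [h2, one_smul] at h1
  exact left_eq_add.1 h1

/-- elements `x + θ y` -/
abbrev TT (X : CDGA.{u}) (i : ℤ) : Type u := X.A i × X.A (i - 1)

/-- the product -/
def tmul {X : CDGA.{u}} {i j k : ℤ} (h : i + j = k) (v : TT X i) (w : TT X j) : TT X k :=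
  (X.mul h v.1 w.1, X.mul (show (i - 1) + j = k - 1 by omega) v.2 w.1 +
    sgn i • X.mul (show i + (j - 1) = k - 1 by omega) v.1 w.2)

/-- the differential -/
def td {X : CDGA.{u}} (e : Eul X) {i j : ℤ} (h : i + 1 = j) (v : TT X i) : TT X j :=
  (X.d h v.1, X.deg (show i = j - 1 by omega) (e.E i v.1) -
    X.d (show (i - 1) + 1 = j - 1 by omega) v.2)

theorem sgn_sub_one (i : ℤ) : sgn (i - 1) = -sgn i := by
  have h : sgn i = sgn (i - 1) * sgn 1 := by
    rw [← sgn_add, sub_add_cancel]
  have h1 : sgn 1 = -1 := by norm_num [sgn]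
  rw [h, h1]
  ring

theorem CDGA.d_sub {X : CDGA.{u}} {i j : ℤ} (h : i + 1 = j) (a b : X.A i) :
    X.d h (a - b) = X.d h a - X.d h b := map_sub (X.dL h) a b

theorem CDGA.sub_mul {X : CDGA.{u}} {i j k : ℤ} (h : i + j = k) (a a' : X.A i) (b : X.A j) :
    X.mul h (a - a') b = X.mul h a b - X.mul h a' b := by
  have e1 := map_sub (X.mulL h) a a'
  have e2 := congrArg (fun g => g b) e1
  simpa only [LinearMap.sub_apply, CDGA.mulL_apply] using e2

theorem CDGA.mul_sub {X : CDGA.{u}} {i j k : ℤ} (h : i + j = k) (a : X.A i) (b b' : X.A j) :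
    X.mul h a (b - b') = X.mul h a b - X.mul h a b' := map_sub (X.mulL h a) b b'

/-- The CDGA `X ⊗ Λ(θ)` with `d x = d_X x + θ E x`, `d θ = 0`. -/
def tE (X : CDGA.{u}) (e : Eul X) : CDGA.{u} where
  A := TT X
  one := (X.one, 0)
  mul := tmul
  d := td e
  add_mul {i j k} h a a' b := by
    refine Prod.ext (X.add_mul h _ _ _) ?_
    simp only [tmul, Prod.snd_add, Prod.fst_add, X.add_mul, smul_add]
    abel
  smul_mul {i j k} h c a b := by
    refine Prod.ext (X.smul_mul h _ _ _) ?_
    simp only [tmul, Prod.smul_snd, Prod.smul_fst, X.smul_mul, smul_add, smul_comm c]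
  one_mul {i} h a := by
    refine Prod.ext (X.one_mul h _) ?_
    simp only [tmul, X.zero_mul, zero_add, X.one_mul]
    simp [sgn]
  mul_assoc {i j k ij jk l} h₁ h₂ h₃ h₄ a b c := by
    refine Prod.ext (X.mul_assoc h₁ h₂ h₃ h₄ _ _ _) ?_
    simp only [tmul, X.add_mul, X.smul_mul, CDGA.mul_add, CDGA.mul_smul, smul_add, smul_smul]
    rw [X.mul_assoc (show (i - 1) + j = ij - 1 by omega) (show (ij - 1) + k = l - 1 by omega)
      h₃ (show (i - 1) + jk = l - 1 by omega),
      X.mul_assoc (show i + (j - 1) = ij - 1 by omega) (show (ij - 1) + k = l - 1 by omega)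
      (show (j - 1) + k = jk - 1 by omega) (show i + (jk - 1) = l - 1 by omega),
      X.mul_assoc h₁ (show ij + (k - 1) = l - 1 by omega)
      (show j + (k - 1) = jk - 1 by omega) (show i + (jk - 1) = l - 1 by omega), ← sgn_add, h₁]
    abel
  mul_comm {i j k} h h' a b := by
    refine Prod.ext (X.mul_comm h h' _ _) ?_
    simp only [tmul, Prod.smul_snd, smul_add, smul_smul]
    rw [X.mul_comm (show (i - 1) + j = k - 1 by omega) (show j + (i - 1) = k - 1 by omega),
      X.mul_comm (show i + (j - 1) = k - 1 by omega) (show (j - 1) + i = k - 1 by omega), smul_smul]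
    have e1 : (i - 1) * j = i * j + -j := by ring
    have e2 : i * (j - 1) = i * j + -i := by ring
    have e3 : ∀ x : ℤ, sgn (-x) = sgn x := fun x => by
      unfold sgn
      rw [zpow_neg]
      rcases sgn_cases x with h | h <;> unfold sgn at h <;> rw [h] <;> norm_num
    rw [e1, e2, sgn_add, sgn_add, e3, e3, add_comm]
    congr 1
    congr 1
    rcases sgn_cases i with h | h <;> rw [h] <;> ring
  d_add {i j} h a a' := by
    refine Prod.ext (X.d_add h _ _) ?_
    simp only [td, Prod.snd_add, Prod.fst_add, map_add, X.d_add]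
    abel
  d_smul {i j} h c a := by
    refine Prod.ext (X.d_smul h _ _) ?_
    simp only [td, Prod.smul_snd, Prod.smul_fst, map_smul, X.d_smul, smul_sub]
  d_d {i j k} h h' a := by
    refine Prod.ext (X.d_d h h' _) ?_
    simp only [td, CDGA.d_sub, X.d_d, sub_zero, Prod.snd_zero]
    rw [e.d h, CDGA.d_deg' (show i = j - 1 by omega) (show (j - 1) + 1 = k - 1 by omega) h
      (show j = k - 1 by omega), sub_self]
  leibniz {i j k i' j' k'} h hi hj hk h₁ h₂ a b := by
    refine Prod.ext (X.leibniz h hi hj hk h₁ h₂ _ _) ?_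
    simp only [td, tmul, Prod.snd_add, Prod.smul_snd, X.d_add, X.d_smul, CDGA.sub_mul,
      CDGA.mul_sub, smul_add, smul_sub, smul_smul, map_add]
    rw [X.leibniz (show (i - 1) + j = k - 1 by omega) (show (i - 1) + 1 = i' - 1 by omega) hj
      (show (k - 1) + 1 = k' - 1 by omega) (show (i' - 1) + j = k' - 1 by omega)
      (show (i - 1) + j' = k' - 1 by omega),
      X.leibniz (show i + (j - 1) = k - 1 by omega) hi (show (j - 1) + 1 = j' - 1 by omega)
      (show (k - 1) + 1 = k' - 1 by omega) (show i' + (j - 1) = k' - 1 by omega)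
      (show i + (j' - 1) = k' - 1 by omega), e.mul h, map_add,
      CDGA.deg_mul (show i = i' - 1 by omega) (show (i' - 1) + j = k' - 1 by omega) h
        (show k = k' - 1 by omega),
      CDGA.mul_deg (show j = j' - 1 by omega) (show i + (j' - 1) = k' - 1 by omega) h
        (show k = k' - 1 by omega), sgn_sub_one]
    have f4 : sgn i' = -sgn i := by
      rw [← hi, sgn_add]
      norm_num [sgn]
    have f5 : sgn i * sgn i = 1 := by rcases sgn_cases i with h | h <;> rw [h] <;> norm_num
    rw [f4]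
    simp only [smul_add, smul_smul, f5, one_smul, neg_smul]
    abel

theorem tE_mul {X : CDGA.{u}} (e : Eul X) {i j k : ℤ} (h : i + j = k) (v : (tE X e).A i)
    (w : (tE X e).A j) : (tE X e).mul h v w = tmul h v w := rfl

theorem tE_d {X : CDGA.{u}} (e : Eul X) {i j : ℤ} (h : i + 1 = j) (v : (tE X e).A i) :
    (tE X e).d h v = td e h v := rfl

/-- projection to `X` followed by a morphism -/
def tHom {X A : CDGA.{u}} (e : Eul X) (φ : Hom X A) : Hom (tE X e) A where
  f i := φ.f i ∘ₗ LinearMap.fst ℚ (X.A i) (X.A (i - 1))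
  map_one := φ.map_one
  map_mul h a b := φ.map_mul h _ _
  map_d h a := φ.map_d h _

end Pool.Agent.Lib.MP_43ef35_gt
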