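import Pool.Agent.Lib.MP_43ef35_gt.P5

/-!
# Polynomials with coefficients in a connected CDGA, of degree at most the degree of the coefficients
-/

set_option autoImplicit false

namespace Pool.Agent.Lib.MP_43ef35_gt

universe u

open Finsupp

variable {A : CDGA.{u}}

/-- polynomials with coefficients in `A^i` -/
abbrev PF (A : CDGA.{u}) (i : ℤ) : Type u := ℕ →₀ A.A i

/-- the product of a monomial with a polynomial -/
noncomputable def pm1 {i j k : ℤ} (h : i + j = k) (s : ℕ) : A.A i →ₗ[ℚ] PF A j →ₗ[ℚ] PF A k where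
  toFun a := Finsupp.lsum ℚ fun l => (Finsupp.lsingle (s + l)) ∘ₗ A.mulL h a
  map_add' a a' := by
    refine Finsupp.lhom_ext fun l b => ?_
    rw [LinearMap.add_apply, Finsupp.lsum_single, Finsupp.lsum_single, Finsupp.lsum_single]
    simp only [LinearMap.comp_apply, map_add, LinearMap.add_apply]
  map_smul' c a := by
    refine Finsupp.lhom_ext fun l b => ?_
    rw [RingHom.id_apply, LinearMap.smul_apply, Finsupp.lsum_single, Finsupp.lsum_single]
    simp only [LinearMap.comp_apply, map_smul, LinearMap.smul_apply]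

/-- the product of polynomials -/
noncomputable def pmul {i j k : ℤ} (h : i + j = k) : PF A i →ₗ[ℚ] PF A j →ₗ[ℚ] PF A k :=
  Finsupp.lsum ℚ fun s => pm1 h s

theorem pmul_single {i j k : ℤ} (h : i + j = k) (s l : ℕ) (a : A.A i) (b : A.A j) :
    pmul h (single s a) (single l b) = single (s + l) (A.mul h a b) := by
  unfold pmul
  rw [Finsupp.lsum_single]
  change (Finsupp.lsum ℚ fun l => (Finsupp.lsingle (s + l)) ∘ₗ A.mulL h a) (single l b) = _
  rw [Finsupp.lsum_single]
  rfl

/-- admissible exponents in degree `i` -/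
def Adm (i : ℤ) (s : ℕ) : Prop := (1 ≤ s ∧ (s : ℤ) ≤ i) ∨ (s = 0 ∧ i = 0)

theorem Adm.add {i j : ℤ} {s l : ℕ} (h : Adm i s) (h' : Adm j l) : Adm (i + j) (s + l) := by
  unfold Adm at *
  push_cast
  omega

/-- the polynomials with admissible exponents -/
def PP (A : CDGA.{u}) (i : ℤ) : Submodule ℚ (PF A i) where
  carrier := {f | ∀ s, f s ≠ 0 → Adm i s}
  add_mem' := fun {f g} hf hg s hs => by
    by_cases h : f s = 0
    · refine hg s fun h' => hs ?_
      rw [Finsupp.add_apply, h, h', add_zero]
    · exact hf s h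
  zero_mem' := fun s hs => absurd rfl hs
  smul_mem' := fun c f hf s hs => hf s fun h' => hs (by rw [Finsupp.smul_apply, h', smul_zero])

theorem mem_PP {i : ℤ} {f : PF A i} : f ∈ PP A i ↔ ∀ s, f s ≠ 0 → Adm i s := Iff.rfl

theorem single_mem_PP {i : ℤ} {s : ℕ} (h : Adm i s) (a : A.A i) : single s a ∈ PP A i := by
  intro t ht
  by_cases hst : s = t
  · rwa [← hst]
  · exact absurd (Finsupp.single_eq_of_ne' hst) ht

/-- induction on admissible polynomials -/
theorem PP_sum {i : ℤ} {f : PF A i} (hf : f ∈ PP A i) {M : Type*} [AddCommGroup M] [Module ℚ M]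
    (S : Submodule ℚ M) (φ : PF A i →ₗ[ℚ] M) (h : ∀ (s : ℕ) (a : A.A i), Adm i s →
      φ (single s a) ∈ S) : φ f ∈ S := by
  have h1 : f = f.sum single := (Finsupp.sum_single f).symm
  rw [h1, Finsupp.sum, map_sum]
  refine Submodule.sum_mem _ fun s hs => h s _ (hf s (Finsupp.mem_support_iff.1 hs))

theorem pmul_mem {i j k : ℤ} (h : i + j = k) {f : PF A i} {g : PF A j} (hf : f ∈ PP A i)
    (hg : g ∈ PP A j) : pmul h f g ∈ PP A k := by
  refine PP_sum hf (PP A k) ((pmul h).flip g) fun s a hs => ?_
  rw [LinearMap.flip_apply]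
  refine PP_sum hg (PP A k) (pmul h (single s a)) fun l b hl => ?_
  rw [pmul_single]
  subst h
  exact single_mem_PP (hs.add hl) _

/-- the differential on coefficients -/
noncomputable def pd {i j : ℤ} (h : i + 1 = j) : PF A i →ₗ[ℚ] PF A j :=
  Finsupp.mapRange.linearMap (A.dL h)

theorem pd_single {i j : ℤ} (h : i + 1 = j) (s : ℕ) (a : A.A i) :
    pd h (single s a) = single s (A.d h a) := by
  unfold pd
  rw [Finsupp.mapRange.linearMap_apply, Finsupp.mapRange_single]
  rfl

theorem pd_mem (h0 : ∀ a : A.A 0, ∃ c : ℚ, a = c • A.one) {i j : ℤ} (h : i + 1 = j) {f : PF A i}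
    (hf : f ∈ PP A i) : pd h f ∈ PP A j := by
  refine PP_sum hf (PP A j) (pd h) fun s a hs => ?_
  rw [pd_single]
  rcases hs with hs | ⟨hs, hi⟩
  · exact single_mem_PP (Or.inl ⟨hs.1, by omega⟩) _
  · subst hi
    obtain ⟨c, rfl⟩ := h0 a
    rw [A.d_smul, A.d_one, smul_zero, Finsupp.single_zero]
    exact Submodule.zero_mem _

/-- the Euler derivation -/
noncomputable def pE (A : CDGA.{u}) (i : ℤ) : PF A i →ₗ[ℚ] PF A i :=
  Finsupp.lsum ℚ fun s => (s : ℚ) • Finsupp.lsingle s

theorem pE_single {i : ℤ} (s : ℕ) (a : A.A i) : pE A i (single s a) = (s : ℚ) • single s a := by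
  unfold pE
  rw [Finsupp.lsum_single]
  rfl

theorem pE_mem {i : ℤ} {f : PF A i} (hf : f ∈ PP A i) : pE A i f ∈ PP A i := by
  refine PP_sum hf (PP A i) (pE A i) fun s a hs => ?_
  rw [pE_single]
  exact Submodule.smul_mem _ _ (single_mem_PP hs _)

/-- evaluation at `1` -/
noncomputable def pev (A : CDGA.{u}) (i : ℤ) : PF A i →ₗ[ℚ] A.A i :=
  Finsupp.lsum ℚ fun _ => LinearMap.id

theorem pev_single {i : ℤ} (s : ℕ) (a : A.A i) : pev A i (single s a) = a := by
  unfold pev
  rw [Finsupp.lsum_single]
  rfl

/-- equality of bilinear maps on polynomials -/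
theorem pf_ext2 {i j : ℤ} {M : Type*} [AddCommGroup M] [Module ℚ M]
    {φ ψ : PF A i →ₗ[ℚ] PF A j →ₗ[ℚ] M}
    (h : ∀ s a l b, φ (single s a) (single l b) = ψ (single s a) (single l b)) : φ = ψ :=
  Finsupp.lhom_ext fun s a => Finsupp.lhom_ext fun l b => h s a l b

theorem pmul_assoc {i j k ij jk l : ℤ} (h₁ : i + j = ij) (h₂ : ij + k = l)
    (h₃ : j + k = jk) (h₄ : i + jk = l) (f : PF A i) (g : PF A j) (q : PF A k) :
    pmul h₂ (pmul h₁ f g) q = pmul h₄ f (pmul h₃ g q) := by
  induction f using Finsupp.induction_linear with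
  | zero => simp
  | add f f' hf hf' => simp only [map_add, LinearMap.add_apply, hf, hf']
  | single s a =>
    induction g using Finsupp.induction_linear with
    | zero => simp
    | add f f' hf hf' => simp only [map_add, LinearMap.add_apply, hf, hf']
    | single t b =>
      induction q using Finsupp.induction_linear with
      | zero => simp
      | add f f' hf hf' => simp only [map_add, hf, hf']
      | single r c =>
        rw [pmul_single, pmul_single, pmul_single, pmul_single, A.mul_assoc h₁ h₂ h₃ h₄, add_assoc]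

theorem pmul_comm {i j k : ℤ} (h : i + j = k) (h' : j + i = k) (f : PF A i) (g : PF A j) :
    pmul h f g = sgn (i * j) • pmul h' g f := by
  induction f using Finsupp.induction_linear with
  | zero => simp
  | add f f' hf hf' => simp only [map_add, LinearMap.add_apply, hf, hf', smul_add]
  | single s a =>
    induction g using Finsupp.induction_linear with
    | zero => simp
    | add f f' hf hf' => simp only [map_add, LinearMap.add_apply, hf, hf', smul_add]
    | single t b =>
      rw [pmul_single, pmul_single, A.mul_comm h h', add_comm, Finsupp.smul_single]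

theorem pd_leibniz {i j k i' j' k' : ℤ} (h : i + j = k) (hi : i + 1 = i') (hj : j + 1 = j')
    (hk : k + 1 = k') (h₁ : i' + j = k') (h₂ : i + j' = k') (f : PF A i) (g : PF A j) :
    pd hk (pmul h f g) = pmul h₁ (pd hi f) g + sgn i • pmul h₂ f (pd hj g) := by
  induction f using Finsupp.induction_linear with
  | zero => simp
  | add f f' hf hf' =>
    simp only [map_add, LinearMap.add_apply, hf, hf', smul_add]
    abel
  | single s a =>
    induction g using Finsupp.induction_linear with
    | zero => simp
    | add f f' hf hf' =>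
      simp only [map_add, hf, hf', smul_add]
      abel
    | single t b =>
      rw [pmul_single, pd_single, pd_single, pd_single, pmul_single, pmul_single,
        A.leibniz h hi hj hk h₁ h₂, Finsupp.single_add, Finsupp.smul_single]

theorem pE_mul {i j k : ℤ} (h : i + j = k) (f : PF A i) (g : PF A j) :
    pE A k (pmul h f g) = pmul h (pE A i f) g + pmul h f (pE A j g) := by
  induction f using Finsupp.induction_linear with
  | zero => simp
  | add f f' hf hf' =>
    simp only [map_add, LinearMap.add_apply, hf, hf']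
    abel
  | single s a =>
    induction g using Finsupp.induction_linear with
    | zero => simp
    | add f f' hf hf' =>
      simp only [map_add, hf, hf']
      abel
    | single t b =>
      rw [pmul_single, pE_single, pE_single, pE_single, map_smul, map_smul, LinearMap.smul_apply,
        pmul_single, ← add_smul]
      push_cast
      rfl

theorem pE_d {i j : ℤ} (h : i + 1 = j) (f : PF A i) : pE A j (pd h f) = pd h (pE A i f) := by
  induction f using Finsupp.induction_linear with
  | zero => simp
  | add f f' hf hf' => simp only [map_add, hf, hf']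
  | single s a => rw [pd_single, pE_single, pE_single, map_smul, pd_single]

theorem pd_d {i j k : ℤ} (h : i + 1 = j) (h' : j + 1 = k) (f : PF A i) :
    pd h' (pd h f) = 0 := by
  induction f using Finsupp.induction_linear with
  | zero => simp
  | add f f' hf hf' => simp only [map_add, hf, hf', add_zero]
  | single s a => rw [pd_single, pd_single, A.d_d, Finsupp.single_zero]

theorem pev_mul {i j k : ℤ} (h : i + j = k) (f : PF A i) (g : PF A j) :
    pev A k (pmul h f g) = A.mul h (pev A i f) (pev A j g) := by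
  induction f using Finsupp.induction_linear with
  | zero => simp [CDGA.zero_mul]
  | add f f' hf hf' => simp only [map_add, LinearMap.add_apply, hf, hf', A.add_mul]
  | single s a =>
    induction g using Finsupp.induction_linear with
    | zero => simp [CDGA.mul_zero]
    | add f f' hf hf' => simp only [map_add, hf, hf', CDGA.mul_add]
    | single t b => rw [pmul_single, pev_single, pev_single, pev_single]

theorem pev_d {i j : ℤ} (h : i + 1 = j) (f : PF A i) : pev A j (pd h f) = A.d h (pev A i f) := by
  induction f using Finsupp.induction_linear with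
  | zero => simp [CDGA.d_zero]
  | add f f' hf hf' => simp only [map_add, hf, hf', A.d_add]
  | single s a => rw [pd_single, pev_single, pev_single]

/-- The CDGA of polynomials with admissible exponents. -/
noncomputable def Pol (A : CDGA.{u}) (h0 : ∀ a : A.A 0, ∃ c : ℚ, a = c • A.one) : CDGA.{u} where
  A i := PP A i
  one := ⟨single 0 A.one, single_mem_PP (Or.inr ⟨rfl, rfl⟩) _⟩
  mul h f g := ⟨pmul h f.1 g.1, pmul_mem h f.2 g.2⟩
  d h f := ⟨pd h f.1, pd_mem h0 h f.2⟩
  add_mul h f f' g := Subtype.ext (by
    change pmul h (f.1 + f'.1) g.1 = _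
    rw [map_add, LinearMap.add_apply]; rfl)
  smul_mul h c f g := Subtype.ext (by
    change pmul h (c • f.1) g.1 = _
    rw [map_smul, LinearMap.smul_apply]; rfl)
  one_mul {i} h f := Subtype.ext (by
    change pmul h (single 0 A.one) f.1 = f.1
    generalize f.1 = f
    induction f using Finsupp.induction_linear with
    | zero => simp
    | add f f' hf hf' => rw [map_add, hf, hf']
    | single s a => rw [pmul_single, A.one_mul, zero_add])
  mul_assoc h₁ h₂ h₃ h₄ f g q := Subtype.ext (pmul_assoc h₁ h₂ h₃ h₄ f.1 g.1 q.1)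
  mul_comm h h' f g := Subtype.ext (pmul_comm h h' f.1 g.1)
  d_add h f g := Subtype.ext (map_add (pd h) f.1 g.1)
  d_smul h c f := Subtype.ext (map_smul (pd h) c f.1)
  d_d h h' f := Subtype.ext (pd_d h h' f.1)
  leibniz h hi hj hk h₁ h₂ f g := Subtype.ext (pd_leibniz h hi hj hk h₁ h₂ f.1 g.1)

variable (h0 : ∀ a : A.A 0, ∃ c : ℚ, a = c • A.one)

/-- the Euler derivation of the CDGA of polynomials -/
noncomputable def polE : Eul (Pol A h0) where
  E i := (pE A i).restrict (fun _ hf => pE_mem hf)
  mul h f g := Subtype.ext (pE_mul h f.1 g.1)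
  d h f := Subtype.ext (pE_d h f.1)

/-- evaluation at `1` -/
noncomputable def polEv : Hom (Pol A h0) A where
  f i := pev A i ∘ₗ (PP A i).subtype
  map_one := pev_single 0 A.one
  map_mul h f g := pev_mul h f.1 g.1
  map_d h f := pev_d h f.1

theorem polEv_surj (hn : A.IsNonneg) (i : ℤ) (a : A.A i) : ∃ f, (polEv h0).f i f = a := by
  rcases lt_trichotomy i 0 with hi | hi | hi
  · have := hn i hi
    exact ⟨0, Subsingleton.elim _ _⟩
  · exact ⟨⟨single 0 a, single_mem_PP (Or.inr ⟨rfl, hi⟩) _⟩, pev_single 0 a⟩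
  · exact ⟨⟨single 1 a, single_mem_PP (Or.inl ⟨le_refl _, by push_cast; omega⟩) _⟩,
      pev_single 1 a⟩

theorem pol_fin (hf : ∀ i, Module.Finite ℚ (A.A i)) (i : ℤ) : Module.Finite ℚ (PP A i) := by
  have := hf i
  let ρ : PP A i →ₗ[ℚ] (Fin (i.toNat + 1) → A.A i) :=
    LinearMap.pi fun s => (Finsupp.lapply (s : ℕ)) ∘ₗ (PP A i).subtype
  refine Module.Finite.of_injective ρ ?_
  rw [← LinearMap.ker_eq_bot, LinearMap.ker_eq_bot']
  intro f hf0
  apply Subtype.ext
  ext1 s
  by_contra hne
  have hs := f.2 s hne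
  have hs' : s < i.toNat + 1 := by
    rcases hs with ⟨_, h2⟩ | ⟨h1, h2⟩ <;> omega
  exact hne (congrFun hf0 ⟨s, hs'⟩)

theorem pol_nonneg : (Pol A h0).IsNonneg := by
  intro i hi
  refine ⟨fun f g => ?_⟩
  have h : ∀ f : PP A i, f = 0 := by
    intro f
    apply Subtype.ext
    ext1 s
    by_contra hne
    rcases f.2 s hne with ⟨h1, h2⟩ | ⟨h1, h2⟩ <;> omega
  exact (h f).trans (h g).symm

theorem pev_inj0 {f : PF A 0} (hf : f ∈ PP A 0) (h : pev A 0 f = 0) : f = 0 := by
  have h1 : f = single 0 (f 0) := by
    ext s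
    by_cases hs : s = 0
    · rw [hs, Finsupp.single_eq_same]
    · rw [Finsupp.single_eq_of_ne hs]
      by_contra hne
      rcases hf s hne with ⟨h2, h3⟩ | ⟨h2, _⟩
      · omega
      · exact hs h2
  rw [h1, pev_single] at h
  rw [h1, h, Finsupp.single_zero]

theorem tpol_nonneg : (tE (Pol A h0) (polE h0)).IsNonneg := by
  intro i hi
  have h1 := pol_nonneg h0 i hi
  have h2 := pol_nonneg h0 (i - 1) (by omega)
  exact (inferInstance : Subsingleton ((Pol A h0).A i × (Pol A h0).A (i - 1)))

theorem tpol_ker0 (a : (tE (Pol A h0) (polE h0)).A 0)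
    (ha : (tHom (polE h0) (polEv h0)).f 0 a = 0) : a = 0 := by
  have h2 := pol_nonneg h0 (0 - 1) (by omega)
  refine Prod.ext (Subtype.ext ?_) (Subsingleton.elim _ _)
  exact pev_inj0 (Subtype.property (p := fun f => f ∈ PP A 0) a.1) ha

end Pool.Agent.Lib.MP_43ef35_gt
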