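import Pool.Agent.Lib.MP_43ef35_gt.P6
import Pool.Agent.Lib.MP_43ef35_gt.MDef

/-!
# Strict Poincaré duality CDGAs with a Lagrangian ideal are cones
-/

set_option autoImplicit false

namespace Pool.Agent.Lib.MP_43ef35_gt

universe u

/-- `J` is its own orthogonal space. -/
def IsLag {A : CDGA.{u}} {m : ℤ} (ε : A.A m →ₗ[ℚ] ℚ) (J : DGIdeal A) : Prop :=
  ∀ {i j : ℤ} (h : i + j = m) (a : A.A i), a ∈ J.I i ↔ ∀ b ∈ J.I j, ε (A.mul h a b) = 0

section

variable {A : CDGA.{u}} {m : ℤ} {ε : A.A m →ₗ[ℚ] ℚ}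

theorem eps_comm {i j : ℤ} (h : i + j = m) (a : A.A i) (b : A.A j) :
    ε (A.mul h a b) = sgn (i * j) * ε (A.mul (show j + i = m by omega) b a) := by
  rw [A.mul_comm h (show j + i = m by omega), map_smul, smul_eq_mul]

theorem StrictPD.rep (hA : StrictPD A m ε) {i j : ℤ} (h : i + j = m) (f : A.A j →ₗ[ℚ] ℚ) :
    ∃ w : A.A i, ∀ b, ε (A.mul h w b) = f b := by
  have := hA.finite i
  have := hA.finite j
  let κ : A.A i →ₗ[ℚ] Module.Dual ℚ (A.A j) :=
    { toFun := fun a => ε ∘ₗ A.mulL h a
      map_add' := fun a a' => by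
        ext b
        change ε (A.mul h (a + a') b) = ε (A.mul h a b) + ε (A.mul h a' b)
        rw [A.add_mul, map_add]
      map_smul' := fun c a => by
        ext b
        change ε (A.mul h (c • a) b) = c • ε (A.mul h a b)
        rw [A.smul_mul, map_smul] }
  have hκ : ∀ a b, κ a b = ε (A.mul h a b) := fun _ _ => rfl
  have hmem : f ∈ LinearMap.range κ := by
    rw [← Subspace.dualCoannihilator_dualAnnihilator_eq (W := LinearMap.range κ),
      Submodule.mem_dualAnnihilator]
    intro w hw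
    rw [Submodule.mem_dualCoannihilator] at hw
    have h1 : w = 0 := hA.nondeg (show j + i = m by omega) w fun b => by
      rw [eps_comm, ← hκ b w, hw _ ⟨b, rfl⟩, mul_zero]
    rw [h1, map_zero]
  obtain ⟨w, hw⟩ := hmem
  exact ⟨w, fun b => by rw [← hκ, hw]⟩

theorem StrictPD.JJ (hA : StrictPD A m ε) {J : DGIdeal A} (hJ : IsLag ε J) {i j k : ℤ}
    (h : i + j = k) {a : A.A i} {b : A.A j} (ha : a ∈ J.I i) (hb : b ∈ J.I j) :
    A.mul h a b = 0 := by
  refine hA.nondeg (show k + (m - k) = m by ring) _ fun c => ?_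
  rw [A.mul_assoc h (show k + (m - k) = m by ring) (show j + (m - k) = m - i by omega)
    (show i + (m - i) = m by ring)]
  exact (hJ _ a).1 ha _ (J.mul_mem' _ c hb)

/-- `f ↦ ∑ ε(f_s) / s` -/
noncomputable def plam (ε : A.A m →ₗ[ℚ] ℚ) : PF A m →ₗ[ℚ] ℚ :=
  Finsupp.lsum ℚ fun s => ((s : ℚ)⁻¹) • ε

theorem plam_single (s : ℕ) (a : A.A m) : plam ε (Finsupp.single s a) = (s : ℚ)⁻¹ * ε a := by
  unfold plam
  rw [Finsupp.lsum_single]
  rfl

theorem plam_E (hm : 1 ≤ m) {f : PF A m} (hf : f ∈ PP A m) : plam ε (pE A m f) = ε (pev A m f) := by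
  rw [← sub_eq_zero]
  have := PP_sum hf (⊥ : Submodule ℚ ℚ) (plam ε ∘ₗ pE A m - ε ∘ₗ pev A m) fun s a hs => by
    rw [Submodule.mem_bot, LinearMap.sub_apply, LinearMap.comp_apply, LinearMap.comp_apply,
      pE_single, map_smul, plam_single, pev_single, smul_eq_mul]
    have hs0 : (s : ℚ) ≠ 0 := by
      have : s ≠ 0 := by
        rcases hs with ⟨h1, _⟩ | ⟨_, h2⟩ <;> omega
      exact_mod_cast this
    field_simp
    ring
  exact this

theorem plam_d (hε : ∀ {i : ℤ} (h : i + 1 = m) (a : A.A i), ε (A.d h a) = 0) {i : ℤ}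
    (h : i + 1 = m) (f : PF A i) : plam ε (pd h f) = 0 := by
  induction f using Finsupp.induction_linear with
  | zero => simp
  | add f f' hf hf' => simp only [map_add, hf, hf', add_zero]
  | single s a => rw [pd_single, plam_single, hε, mul_zero]

/-- The data for a strict Poincaré duality CDGA with a Lagrangian dg ideal. -/
noncomputable def lagData (hA : StrictPD A m ε) (hm : 1 ≤ m) {J : DGIdeal A} (hJ : IsLag ε J) :
    LData A (tE (Pol A hA.connected) (polE hA.connected)) m (m + 1) where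
  hn := rfl
  ε := ε
  J := J
  JJ h _ _ ha hb := hA.JJ hJ h ha hb
  εd := hA.closed
  toA := tHom (polE hA.connected) (polEv hA.connected)
  surj i a := by
    obtain ⟨f, hf⟩ := polEv_surj hA.connected hA.nonneg i a
    refine ⟨(f, 0), ?_⟩
    have h1 : (tHom (polE hA.connected) (polEv hA.connected)).f i (f, 0) = a := hf
    rw [h1, sub_self]
    exact Submodule.zero_mem _
  lam := plam ε ∘ₗ (PP A m).subtype ∘ₗ
    ((Pol A hA.connected).deg (show m + 1 - 1 = m by ring)) ∘ₗ
    LinearMap.snd ℚ ((Pol A hA.connected).A (m + 1)) ((Pol A hA.connected).A (m + 1 - 1))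
  stokes t := by
    have h1 : (Pol A hA.connected).deg (show m + 1 - 1 = m by ring)
        ((tE (Pol A hA.connected) (polE hA.connected)).d rfl t).2 =
        ((polE hA.connected).E m t.1) - (Pol A hA.connected).d (show (m - 1) + 1 = m by ring) t.2 := by
      change (Pol A hA.connected).deg (show m + 1 - 1 = m by ring)
        ((Pol A hA.connected).deg (show m = m + 1 - 1 by ring) ((polE hA.connected).E m t.1) -
          (Pol A hA.connected).d (show (m - 1) + 1 = m + 1 - 1 by ring) t.2) = _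
      rw [map_sub, CDGA.deg_deg, CDGA.deg_rfl, CDGA.deg_d]
    change plam ε ((PP A m).subtype ((Pol A hA.connected).deg (show m + 1 - 1 = m by ring)
        ((tE (Pol A hA.connected) (polE hA.connected)).d rfl t).2)) =
      ε (pev A m ((PP A m).subtype t.1))
    rw [h1]
    change plam ε (pE A m ((PP A m).subtype t.1) -
      pd (show (m - 1) + 1 = m by ring) ((PP A (m - 1)).subtype t.2)) =
      ε (pev A m ((PP A m).subtype t.1))
    have h2 : plam ε (pE A m ((PP A m).subtype t.1)) = ε (pev A m ((PP A m).subtype t.1)) :=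
      plam_E hm (Subtype.property (p := fun f => f ∈ PP A m) t.1)
    have h3 : plam ε (pd (show (m - 1) + 1 = m by ring) ((PP A (m - 1)).subtype t.2)) = 0 :=
      plam_d hA.closed _ _
    rw [map_sub, h2, h3, sub_zero]
  fin i := by
    have h1 := pol_fin hA.finite i
    have h2 := pol_fin hA.finite (i - 1)
    exact (inferInstance : Module.Finite ℚ (PP A i × PP A (i - 1)))

/-- A strict Poincaré duality CDGA with a Lagrangian dg ideal is quasi-isomorphic to a cone. -/
theorem StrictPD.cone_of_lag (hA : StrictPD A m ε) (hm : 1 ≤ m) {J : DGIdeal A}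
    (hJ : IsLag ε J) (hJ0 : ∀ a ∈ J.I 0, a = 0)
    (hJt : ∀ (j : ℤ) (a : A.A j), m + 1 ≤ j → a ∈ J.I j) :
    ∃ (Q : CDGA.{u}) (Ψ : BalancedMap (shiftedDual Q (m + 1))),
      Q.IsNonneg ∧ (∀ i, Module.Finite ℚ (Q.A i)) ∧ (cone Ψ).IsNonneg ∧
      QuasiIsomorphic A (cone Ψ) := by
  have hinj : (lagData hA hm hJ).Inj := fun h _ _ hb => hA.nondeg h _ hb
  have hrep : (lagData hA hm hJ).Rpr := by
    intro i j h f hf
    obtain ⟨w, hw⟩ := hA.rep h f
    refine ⟨w, (hJ h w).2 fun b hb => ?_, hw⟩
    rw [hw, hf b hb]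
  refine ⟨(lagData hA hm hJ).Q, (lagData hA hm hJ).Ψ,
    (lagData hA hm hJ).Q_nonneg (tpol_nonneg hA.connected), ?_,
    (lagData hA hm hJ).cone_nonneg (fun a ha => tpol_ker0 hA.connected a (hJ0 _ ha))
      (tpol_nonneg hA.connected) (fun j a hj => hJt j _ hj),
    (lagData hA hm hJ).quasiIsomorphic ((lagData hA hm hJ).GC_quasiIso hinj hrep)⟩
  intro i
  have h1 := (lagData hA hm hJ).fin i
  exact Module.Finite.of_surjective ((lagData hA hm hJ).N.I i).mkQ
    (Submodule.mkQ_surjective _)

/-- The Lagrangian ideal given by a Lagrangian subspace of the middle degree. -/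
noncomputable def lagIdeal (hA : StrictPD A m ε) (L : ∀ i : ℤ, Submodule ℚ (A.A i)) :
    DGIdeal A := by
  classical
  exact
  { I := fun i => if m < 2 * i then ⊤ else if 2 * i = m then L i else ⊥
    mul_mem := by
      intro i j k h a b hb
      rcases lt_trichotomy i 0 with hi | hi | hi
      · have := hA.nonneg i hi
        rw [Subsingleton.elim a 0, CDGA.zero_mul]
        exact Submodule.zero_mem _
      · subst hi
        obtain rfl : j = k := by omega
        obtain ⟨c, rfl⟩ := hA.connected a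
        rw [A.smul_mul, A.one_mul]
        exact Submodule.smul_mem _ _ hb
      · by_cases h1 : m < 2 * j
        · rw [if_pos (by omega)]
          exact Submodule.mem_top
        · by_cases h2 : 2 * j = m
          · rw [if_pos (by omega)]
            exact Submodule.mem_top
          · rw [if_neg h1, if_neg h2, Submodule.mem_bot] at hb
            rw [hb, CDGA.mul_zero]
            exact Submodule.zero_mem _
    d_mem := by
      intro i j h a ha
      by_cases h1 : m < 2 * i
      · rw [if_pos (by omega)]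
        exact Submodule.mem_top
      · by_cases h2 : 2 * i = m
        · rw [if_pos (by omega)]
          exact Submodule.mem_top
        · rw [if_neg h1, if_neg h2, Submodule.mem_bot] at ha
          rw [ha, CDGA.d_zero]
          exact Submodule.zero_mem _ }

theorem mem_lagIdeal (hA : StrictPD A m ε) (L : ∀ i : ℤ, Submodule ℚ (A.A i)) (i : ℤ)
    (a : A.A i) : a ∈ (lagIdeal hA L).I i ↔ m < 2 * i ∨ (2 * i = m ∧ a ∈ L i) ∨ a = 0 := by
  classical
  change a ∈ (if m < 2 * i then ⊤ else if 2 * i = m then L i else ⊥ : Submodule ℚ (A.A i)) ↔ _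
  by_cases h1 : m < 2 * i
  · rw [if_pos h1]
    simp [h1]
  · by_cases h2 : 2 * i = m
    · rw [if_neg h1, if_pos h2]
      constructor
      · intro h
        exact Or.inr (Or.inl ⟨h2, h⟩)
      · rintro (h | ⟨_, h⟩ | h)
        · exact absurd h h1
        · exact h
        · rw [h]; exact Submodule.zero_mem _
    · rw [if_neg h1, if_neg h2]
      simp [h1, h2]

theorem isLag_lagIdeal (hA : StrictPD A m ε) (L : ∀ i : ℤ, Submodule ℚ (A.A i))
    (hL : ∀ {p : ℤ} (h : p + p = m) (a : A.A p), a ∈ L p ↔ ∀ b ∈ L p, ε (A.mul h a b) = 0) :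
    IsLag ε (lagIdeal hA L) := by
  intro i j h a
  rcases lt_trichotomy (2 * i) m with hi | hi | hi
  · constructor
    · intro ha b _
      rw [mem_lagIdeal] at ha
      rcases ha with ha | ⟨ha, _⟩ | ha
      · omega
      · omega
      · rw [ha, CDGA.zero_mul, map_zero]
    · intro hb
      have h1 := hA.nondeg h a fun b => hb b (by rw [mem_lagIdeal]; left; omega)
      rw [h1]
      exact Submodule.zero_mem _
  · obtain rfl : j = i := by omega
    constructor
    · intro ha b hb
      rw [mem_lagIdeal] at ha hb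
      rcases ha with ha | ⟨_, ha⟩ | ha
      · omega
      · rcases hb with hb | ⟨_, hb⟩ | hb
        · omega
        · exact (hL h a).1 ha b hb
        · rw [hb, CDGA.mul_zero, map_zero]
      · rw [ha, CDGA.zero_mul, map_zero]
    · intro hb
      rw [mem_lagIdeal]
      refine Or.inr (Or.inl ⟨hi, (hL h a).2 fun b hb' => hb b ?_⟩)
      rw [mem_lagIdeal]
      exact Or.inr (Or.inl ⟨hi, hb'⟩)
  · constructor
    · intro _ b hb
      rw [mem_lagIdeal] at hb
      rcases hb with hb | ⟨hb, _⟩ | hb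
      · omega
      · omega
      · rw [hb, CDGA.mul_zero, map_zero]
    · intro _
      rw [mem_lagIdeal]
      exact Or.inl hi

/-- A nondegenerate alternating middle form has a Lagrangian subspace. -/
theorem exists_lag_alt (hA : StrictPD A m ε) {p : ℤ} (h : p + p = m) (hp : Odd p) :
    ∃ L : Submodule ℚ (A.A p), ∀ a, a ∈ L ↔ ∀ b ∈ L, ε (A.mul h a b) = 0 := by
  have := hA.finite p
  have hs : ∀ a b : A.A p, ε (A.mul h a b) = -ε (A.mul h b a) := by
    intro a b
    rw [eps_comm h a b]
    have : sgn (p * p) = -1 := (hp.mul hp).neg_one_zpow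
    rw [this]
    ring
  have halt : ∀ a : A.A p, ε (A.mul h a a) = 0 := by
    intro a
    have := hs a a
    linarith
  let S : Set (Submodule ℚ (A.A p)) := {M | ∀ a ∈ M, ∀ b ∈ M, ε (A.mul h a b) = 0}
  have hne : S.Nonempty := ⟨⊥, fun a ha b hb => by
    rw [Submodule.mem_bot] at ha
    rw [ha, CDGA.zero_mul, map_zero]⟩
  obtain ⟨M, hM, hmax⟩ := WellFounded.has_min (wellFounded_gt (α := Submodule ℚ (A.A p))) S hne
  refine ⟨M, fun a => ⟨fun ha b hb => hM a ha b hb, fun hb => ?_⟩⟩
  by_contra hna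
  have h1 : M < M ⊔ Submodule.span ℚ {a} := by
    refine lt_of_le_of_ne le_sup_left fun h2 => hna ?_
    rw [h2]
    exact Submodule.mem_sup_right (Submodule.mem_span_singleton_self a)
  refine hmax _ ?_ h1
  intro x hx y hy
  obtain ⟨x1, hx1, x2, hx2, rfl⟩ := Submodule.mem_sup.1 hx
  obtain ⟨y1, hy1, y2, hy2, rfl⟩ := Submodule.mem_sup.1 hy
  obtain ⟨c, rfl⟩ := Submodule.mem_span_singleton.1 hx2
  obtain ⟨c', rfl⟩ := Submodule.mem_span_singleton.1 hy2
  rw [A.add_mul, CDGA.mul_add, CDGA.mul_add, A.smul_mul, A.smul_mul, CDGA.mul_smul, CDGA.mul_smul,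
    map_add, map_add, map_add, map_smul, map_smul, map_smul, map_smul, hM x1 hx1 y1 hy1,
    hb y1 hy1, hs x1 a, hb x1 hx1, halt a]
  simp

end

end Pool.Agent.Lib.MP_43ef35_gt
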