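import Pool.Agent.Lib.MP_43ef35_gt.P7

/-!
# Cones have metabolic middle forms; the converse for strict Poincaré duality CDGAs
-/

set_option autoImplicit false

namespace Pool.Agent.Lib.MP_43ef35_gt

universe u

/-- cocycles of `Q` are cocycles of the cone -/
theorem d_inc {Q : CDGA.{u}} {M : DGMod Q} (Ψ : BalancedMap M) {i : ℤ} {q : Q.A i}
    (hq : q ∈ Q.Z i) : (cone Ψ).d rfl (inc Ψ q) = 0 := inc_mem_Z Ψ hq

/-- The image of the cohomology of `Q` in the middle degree of a cone is its own orthogonal. -/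
theorem cone_lagrangian {Q : CDGA.{u}} {m r : ℤ} (Ψ : BalancedMap (shiftedDual Q (m + 1)))
    (h1 : (cone Ψ).one ∉ (cone Ψ).B 0)
    (hgen : ∀ x y : (cone Ψ).H m, x ≠ 0 → ∃ c : ℚ, y = c • x) (h : r + r = m) :
    ∃ L : Submodule ℚ ((cone Ψ).H r), ∀ (a : (cone Ψ).A r) (ha : (cone Ψ).d rfl a = 0),
      (cone Ψ).cls a ha ∈ L ↔ ∀ (b : (cone Ψ).A r) (hb : (cone Ψ).d rfl b = 0),
        (cone Ψ).cls b hb ∈ L →
        (cone Ψ).cls ((cone Ψ).mul h a b) (CDGA.mul_mem_Z h ha hb) = 0 := by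
  obtain ⟨p, rfl⟩ : ∃ p, r = p + 1 := ⟨r - 1, by ring⟩
  let L : Submodule ℚ ((cone Ψ).H (p + 1)) :=
    { carrier := {x | ∃ (q : Q.A (p + 1)) (hq : q ∈ Q.Z (p + 1)),
        x = (cone Ψ).cls (inc Ψ q) (d_inc Ψ hq)}
      add_mem' := by
        rintro x y ⟨q, hq, rfl⟩ ⟨q', hq', rfl⟩
        refine ⟨q + q', Submodule.add_mem _ hq hq', ?_⟩
        rw [CDGA.cls_add]
        have h0 : inc Ψ q + inc Ψ q' = inc Ψ (q + q') := by
          refine cone_ext Ψ rfl ?_
          rw [c2_add, c2_inc, c2_inc, c2_inc, add_zero]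
        simp only [h0]
      zero_mem' := ⟨0, Submodule.zero_mem _, ((cone Ψ).cls_eq_zero.2 (by
        have h0 : inc Ψ (0 : Q.A (p + 1)) = 0 := rfl
        rw [h0]
        exact Submodule.zero_mem _)).symm⟩
      smul_mem' := by
        rintro c x ⟨q, hq, rfl⟩
        refine ⟨c • q, Submodule.smul_mem _ _ hq, ?_⟩
        rw [CDGA.cls_smul]
        have h0 : c • inc Ψ q = inc Ψ (c • q) := by
          refine cone_ext Ψ rfl ?_
          rw [c2_smul, c2_inc, c2_inc, smul_zero]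
        simp only [h0] }
  have hL : ∀ x, x ∈ L ↔ ∃ (q : Q.A (p + 1)) (hq : q ∈ Q.Z (p + 1)),
        x = (cone Ψ).cls (inc Ψ q) (d_inc Ψ hq) := fun _ => Iff.rfl
  refine ⟨L, fun a ha => ⟨?_, ?_⟩⟩
  · intro haL b hb hbL
    obtain ⟨q, hq, hqa⟩ := (hL _).1 haL
    obtain ⟨q', hq', hqb⟩ := (hL _).1 hbL
    rw [CDGA.cls_mul_congr h ha hb (d_inc Ψ hq) (d_inc Ψ hq') hqa hqb, CDGA.cls_eq_zero,
      inc_mul]
    exact inc_top_mem_B Ψ rfl h1 hgen _ (CDGA.mul_mem_Z h hq hq')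
  · intro hb
    obtain ⟨q, hq, hB⟩ := exists_of_mul_mem_B Ψ rfl a ha (by
      intro i hi q hq
      obtain rfl : i = p + 1 := by omega
      exact CDGA.cls_eq_zero.1 (hb (inc Ψ q) (d_inc Ψ hq) ((hL _).2 ⟨q, hq, rfl⟩)))
    exact (hL _).2 ⟨q, hq, (CDGA.cls_eq ha _).2 hB⟩

/-- Metabolic middle forms are invariant under isomorphisms of cohomology algebras. -/
theorem Metabolic.transport {A B : CDGA.{u}} {m : ℤ} (hAB : HIso A B) (hM : Metabolic A m) :
    Metabolic B m := by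
  obtain ⟨e, he, _⟩ := hAB
  intro k h
  obtain ⟨L, hL⟩ := hM k h
  refine ⟨L.comap (e (2 * k)).symm.toLinearMap, fun a ha => ?_⟩
  obtain ⟨a', ha', haa⟩ := CDGA.cls_surj ((e (2 * k)).symm (B.cls a ha))
  have h1 : B.cls a ha ∈ L.comap (e (2 * k)).symm.toLinearMap ↔ A.cls a' ha' ∈ L := by
    rw [Submodule.mem_comap, haa]
    exact Iff.rfl
  have haa' : e (2 * k) (A.cls a' ha') = B.cls a ha := by
    rw [haa, LinearEquiv.apply_symm_apply]
  rw [h1, hL a' ha']
  constructor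
  · intro H b hb hbL
    obtain ⟨b', hb', hbb⟩ := CDGA.cls_surj ((e (2 * k)).symm (B.cls b hb))
    have hbb' : e (2 * k) (A.cls b' hb') = B.cls b hb := by
      rw [hbb, LinearEquiv.apply_symm_apply]
    have h2 : A.cls b' hb' ∈ L := by
      rw [hbb]
      exact hbL
    rw [← he h a' ha' b' hb' a ha b hb haa' hbb', H b' hb' h2, map_zero]
  · intro H b' hb' hbL
    obtain ⟨b, hb, hbb⟩ := CDGA.cls_surj (e (2 * k) (A.cls b' hb'))
    have h3 := H b hb (by
      rw [Submodule.mem_comap, hbb]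
      change (e (2 * k)).symm (e (2 * k) (A.cls b' hb')) ∈ L
      rwa [LinearEquiv.symm_apply_apply])
    rw [← he h a' ha' b' hb' a ha b hb haa' hbb.symm] at h3
    exact (LinearEquiv.map_eq_zero_iff _).1 h3

/-- The top cohomology of a CDGA with Poincaré duality is at most one-dimensional. -/
theorem PoincareDuality.gen {A : CDGA.{u}} {m : ℤ} (hA : PoincareDuality A m) (x y : A.H m)
    (hx : x ≠ 0) : ∃ c : ℚ, y = c • x := by
  obtain ⟨ε, hε⟩ := hA.duality
  have key : ∀ z : A.H m, ε z = 0 → z = 0 := by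
    intro z hz
    obtain ⟨a, ha, rfl⟩ := CDGA.cls_surj z
    refine hε (show m + 0 = m by ring) a ha fun b hb => ?_
    obtain ⟨c, hc⟩ := hA.connected (A.cls b hb)
    rw [CDGA.cls_smul] at hc
    rw [CDGA.cls_mul_congr (show m + 0 = m by ring) ha hb ha
      ((A.Z 0).smul_mem c (A.d_one rfl)) rfl hc]
    have h1 : A.mul (show m + 0 = m by ring) a (c • A.one) = c • a := by
      rw [CDGA.mul_smul, A.mul_comm (show m + 0 = m by ring) (show 0 + m = m by ring), A.one_mul]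
      simp [sgn]
    simp only [h1]
    rw [← CDGA.cls_smul c ha, map_smul, hz, smul_zero]
  have hx0 : ε x ≠ 0 := fun h => hx (key x h)
  refine ⟨ε y / ε x, sub_eq_zero.1 (key _ ?_)⟩
  rw [map_sub, map_smul, smul_eq_mul, div_mul_cancel₀ _ hx0, sub_self]

/-- Necessity: a CDGA with Poincaré duality that is quasi-isomorphic to a cone has a metabolic
middle form. -/
theorem metabolic_of_cone {A Q : CDGA.{u}} {n : ℤ} (hA : PoincareDuality A (n - 1))
    (Ψ : BalancedMap (shiftedDual Q n)) (h : QuasiIsomorphic A (cone Ψ)) :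
    Metabolic A (n - 1) := by
  obtain ⟨m, rfl⟩ : ∃ m, n = m + 1 := ⟨n - 1, by ring⟩
  have hm : m + 1 - 1 = m := by ring
  rw [hm] at hA ⊢
  have hI := HIso.of_quasiIsomorphic h
  refine Metabolic.transport hI.symm ?_
  obtain ⟨e, he, he1⟩ := hI
  intro k hk
  refine cone_lagrangian Ψ ?_ ?_ hk
  · intro hB
    apply hA.one_ne_zero
    rw [← CDGA.cls_eq_zero (ha := (cone Ψ).d_one rfl), ← he1] at hB
    exact (LinearEquiv.map_eq_zero_iff _).1 hB
  · intro x y hx
    obtain ⟨c, hc⟩ := hA.gen ((e m).symm x) ((e m).symm y)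
      (fun h => hx ((LinearEquiv.map_eq_zero_iff _).1 h))
    refine ⟨c, ?_⟩
    rw [← map_smul] at hc
    exact (e m).symm.injective hc

/-- A metabolic middle form gives a Lagrangian subspace of the cochains of a strict Poincaré duality
CDGA. -/
theorem exists_lag_met {A : CDGA.{u}} {m : ℤ} {ε : A.A m →ₗ[ℚ] ℚ} (hA : StrictPD A m ε)
    (hM : Metabolic A m) {p : ℤ} (h : p + p = m) (hp : Even p) :
    ∃ L : Submodule ℚ (A.A p), ∀ a, a ∈ L ↔ ∀ b ∈ L, ε (A.mul h a b) = 0 := by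
  obtain ⟨k, hk⟩ := hp
  obtain rfl : p = 2 * k := by rw [hk]; ring
  obtain ⟨L, hL⟩ := hM k h
  let L0 : Submodule ℚ (A.A (2 * k)) :=
    { carrier := {a | ∃ ha : A.d rfl a = 0, A.cls a ha ∈ L}
      add_mem' := by
        rintro a b ⟨ha, haL⟩ ⟨hb, hbL⟩
        exact ⟨(A.Z _).add_mem ha hb, by rw [← CDGA.cls_add ha hb]; exact L.add_mem haL hbL⟩
      zero_mem' := ⟨CDGA.d_zero _, by
        rw [CDGA.cls_eq_zero.2 (Submodule.zero_mem _)]
        exact L.zero_mem⟩
      smul_mem' := by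
        rintro c a ⟨ha, haL⟩
        exact ⟨(A.Z _).smul_mem c ha, by rw [← CDGA.cls_smul c ha]; exact L.smul_mem c haL⟩ }
  have hL0 : ∀ a, a ∈ L0 ↔ ∃ ha : A.d rfl a = 0, A.cls a ha ∈ L := fun _ => Iff.rfl
  -- a cocycle of top degree with `ε = 0` vanishes
  have htop : ∀ z : A.A m, ε z = 0 → z = 0 := by
    intro z hz
    refine hA.nondeg (show m + 0 = m by ring) z fun b => ?_
    obtain ⟨c, rfl⟩ := hA.connected b
    rw [CDGA.mul_smul, A.mul_comm (show m + 0 = m by ring) (show 0 + m = m by ring), A.one_mul,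
      map_smul, map_smul, hz, smul_zero, smul_zero]
  refine ⟨L0, fun a => ⟨?_, ?_⟩⟩
  · intro haL b hbL
    obtain ⟨ha, haL⟩ := (hL0 a).1 haL
    obtain ⟨hb, hbL⟩ := (hL0 b).1 hbL
    have h1 := (hL a ha).1 haL b hb hbL
    rw [CDGA.cls_eq_zero, CDGA.mem_B (show (m - 1) + 1 = m by ring)] at h1
    obtain ⟨y, hy⟩ := h1
    rw [← hy, hA.closed]
  · intro hb
    -- coboundaries are in `L0`
    have hBL : ∀ c : A.A (2 * k - 1), A.d (show (2 * k - 1) + 1 = 2 * k by ring) c ∈ L0 := by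
      intro c
      refine (hL0 _).2 ⟨A.d_d _ _ _, ?_⟩
      have h0 : A.cls (A.d (show (2 * k - 1) + 1 = 2 * k by ring) c) (A.d_d _ _ _) = 0 :=
        CDGA.cls_eq_zero.2 ((CDGA.mem_B (show (2 * k - 1) + 1 = 2 * k by ring)).2 ⟨c, rfl⟩)
      rw [h0]
      exact L.zero_mem
    have ha : A.d rfl a = 0 := by
      refine hA.nondeg (show (2 * k + 1) + (2 * k - 1) = m by omega) _ fun c => ?_
      have h1 := A.leibniz (show 2 * k + (2 * k - 1) = m - 1 by omega)
        (rfl : 2 * k + 1 = 2 * k + 1) (show (2 * k - 1) + 1 = 2 * k by ring)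
        (show (m - 1) + 1 = m by ring) (show (2 * k + 1) + (2 * k - 1) = m by omega) h a c
      have h2 := congrArg ε h1
      rw [hA.closed, map_add, map_smul, hb _ (hBL c), smul_zero, add_zero] at h2
      exact h2.symm
    refine (hL0 a).2 ⟨ha, (hL a ha).2 fun b hb' hbL => ?_⟩
    have h3 : A.mul h a b = 0 := htop _ (hb b ((hL0 b).2 ⟨hb', hbL⟩))
    rw [CDGA.cls_eq_zero, h3]
    exact Submodule.zero_mem _

/-- Sufficiency for strict Poincaré duality CDGAs. -/
theorem StrictPD.cone_of_metabolic {A : CDGA.{u}} {m : ℤ} {ε : A.A m →ₗ[ℚ] ℚ}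
    (hA : StrictPD A m ε) (hm : 1 ≤ m) (hM : Metabolic A m) :
    ∃ (Q : CDGA.{u}) (Ψ : BalancedMap (shiftedDual Q (m + 1))),
      Q.IsNonneg ∧ (∀ i, Module.Finite ℚ (Q.A i)) ∧ (cone Ψ).IsNonneg ∧
      QuasiIsomorphic A (cone Ψ) := by
  classical
  have hex : ∀ (p : ℤ) (h : p + p = m), ∃ L : Submodule ℚ (A.A p),
      ∀ a, a ∈ L ↔ ∀ b ∈ L, ε (A.mul h a b) = 0 := by
    intro p h
    rcases Int.even_or_odd p with hp | hp
    · exact exists_lag_met hA hM h hp
    · exact exists_lag_alt hA h hp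
  choose L hL using hex
  refine hA.cone_of_lag hm (isLag_lagIdeal hA
    (fun i => if h : i + i = m then L i h else ⊥) ?_) ?_ ?_
  · intro p h a
    simp only [dif_pos h]
    exact hL p h a
  · intro a ha
    rcases (mem_lagIdeal hA _ 0 a).1 ha with h | ⟨h, _⟩ | h
    · omega
    · omega
    · exact h
  · intro j a hj
    exact (mem_lagIdeal hA _ j a).2 (Or.inl (by omega))

end Pool.Agent.Lib.MP_43ef35_gt
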