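import Pool.Agent.Lib.MP_43ef35_gt.P8

/-!
# Transport of Poincaré duality, formal CDGAs
-/

set_option autoImplicit false

namespace Pool.Agent.Lib.MP_43ef35_gt

universe u

theorem PoincareDuality.transport {A B : CDGA.{u}} {m : ℤ} (hAB : HIso A B)
    (hA : PoincareDuality A m) : PoincareDuality B m := by
  obtain ⟨e, he, he1⟩ := hAB
  refine ⟨?_, ?_, ?_, ?_, ?_⟩
  · rw [← he1]
    intro h
    exact hA.one_ne_zero ((LinearEquiv.map_eq_zero_iff _).1 h)
  · intro x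
    obtain ⟨c, hc⟩ := hA.connected ((e 0).symm x)
    refine ⟨c, ?_⟩
    rw [← he1, ← map_smul, ← hc, LinearEquiv.apply_symm_apply]
  · intro i
    have := hA.finite i
    exact Module.Finite.equiv (e i)
  · refine hA.bounded.subset fun i hi => ?_
    have : Nontrivial (B.H i) := hi
    exact (e i).toEquiv.nontrivial
  · obtain ⟨ε, hε⟩ := hA.duality
    refine ⟨ε ∘ₗ (e m).symm.toLinearMap, ?_⟩
    intro i j h a ha H
    obtain ⟨a', ha', haa⟩ := CDGA.cls_surj ((e i).symm (B.cls a ha))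
    have haa' : e i (A.cls a' ha') = B.cls a ha := by
      rw [haa, LinearEquiv.apply_symm_apply]
    rw [← haa', LinearEquiv.map_eq_zero_iff]
    refine hε h a' ha' fun b' hb' => ?_
    obtain ⟨b, hb, hbb⟩ := CDGA.cls_surj (e j (A.cls b' hb'))
    have h1 := H b hb
    rw [← he h a' ha' b' hb' a ha b hb haa' hbb.symm] at h1
    change ε ((e m).symm (e m _)) = 0 at h1
    rwa [LinearEquiv.symm_apply_apply] at h1

/-- A CDGA with zero differential whose cohomology satisfies Poincaré duality satisfies it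
strictly. -/
theorem strictPD_of_zero {D : CDGA.{u}} {m : ℤ} (hd : ∀ {i j : ℤ} (h : i + 1 = j) (a : D.A i),
    D.d h a = 0) (hD : PoincareDuality D m) (hn : ∀ i : ℤ, i < 0 → Subsingleton (D.H i)) :
    ∃ ε : D.A m →ₗ[ℚ] ℚ, StrictPD D m ε := by
  have hinj : ∀ {i : ℤ} (a : D.A i), D.cls a (hd rfl a) = 0 → a = 0 := by
    intro i a h
    rw [CDGA.cls_eq_zero, CDGA.mem_B (show (i - 1) + 1 = i by ring)] at h
    obtain ⟨y, hy⟩ := h
    rw [← hy, hd]
  let cl : ∀ i : ℤ, D.A i →ₗ[ℚ] D.H i := fun i =>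
    { toFun := fun a => D.cls a (hd rfl a)
      map_add' := fun _ _ => rfl
      map_smul' := fun _ _ => rfl }
  have hcl : ∀ (i : ℤ) (a : D.A i), cl i a = D.cls a (hd rfl a) := fun _ _ => rfl
  have hcl_inj : ∀ i, Function.Injective (cl i) := fun i => by
    rw [injective_iff_map_eq_zero]
    intro a h
    exact hinj a h
  obtain ⟨ε, hε⟩ := hD.duality
  refine ⟨ε ∘ₗ cl m, ?_, ?_, ?_, ?_, ?_⟩
  · intro i hi
    have := hn i hi
    exact ⟨fun a b => hcl_inj i (Subsingleton.elim _ _)⟩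
  · intro a
    obtain ⟨c, hc⟩ := hD.connected (cl 0 a)
    refine ⟨c, hcl_inj 0 ?_⟩
    rw [hc, map_smul]
    rfl
  · intro i
    have := hD.finite i
    exact Module.Finite.of_injective (cl i) (hcl_inj i)
  · intro i h a
    rw [hd, map_zero]
  · intro i j h a H
    refine hinj a (hε h a (hd rfl a) fun b hb => ?_)
    exact H b

theorem not_lag_zero {A : CDGA.{u}} {r m : ℤ} (hA : PoincareDuality A m) (h : r + r = m)
    (hr : r = 0) (L : Submodule ℚ (A.H r)) (hL : ∀ (a : A.A r) (ha : A.d rfl a = 0),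
      A.cls a ha ∈ L ↔ ∀ (b : A.A r) (hb : A.d rfl b = 0), A.cls b hb ∈ L →
        A.cls (A.mul h a b) (CDGA.mul_mem_Z h ha hb) = 0) : False := by
  subst hr
  obtain rfl : m = 0 := by omega
  have h1 := hL A.one (A.d_one rfl)
  have hmul : ∀ b : A.A 0, A.mul h A.one b = b := fun b => A.one_mul h b
  by_cases h2 : A.cls A.one (A.d_one rfl) ∈ L
  · have h3 := h1.1 h2 A.one (A.d_one rfl) h2
    simp only [hmul] at h3
    exact hA.one_ne_zero h3
  · apply h2
    refine h1.2 fun b hb hbL => ?_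
    simp only [hmul]
    obtain ⟨c, hc⟩ := hA.connected (A.cls b hb)
    by_cases hc0 : c = 0
    · rw [hc, hc0, zero_smul]
    · exfalso
      apply h2
      have h4 : A.cls A.one (A.d_one rfl) = c⁻¹ • A.cls b hb := by
        rw [hc, smul_smul, inv_mul_cancel₀ hc0, one_smul]
      rw [h4]
      exact L.smul_mem _ hbL

/-- the dimension is positive -/
theorem one_le_of_metabolic {A : CDGA.{u}} {m : ℤ} (hA : PoincareDuality A m)
    (hn : ∀ i : ℤ, i < 0 → Subsingleton (A.H i)) (hM : Metabolic A m) : 1 ≤ m := by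
  by_contra hm
  rcases lt_or_eq_of_le (show m ≤ 0 by omega) with h | h
  · have := hn m h
    obtain ⟨ε, hε⟩ := hA.duality
    refine hA.one_ne_zero (hε (show 0 + m = m by ring) A.one (A.d_one rfl) fun b hb => ?_)
    rw [Subsingleton.elim (A.cls _ _) 0, map_zero]
  · obtain ⟨L, hL⟩ := hM 0 (by omega)
    exact not_lag_zero hA _ (by norm_num) L hL

/-- Sufficiency. -/
theorem cone_of_metabolic {A : CDGA.{u}} {n : ℤ} (hA : PoincareDuality A (n - 1))
    (hM : Metabolic A (n - 1))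
    (hD : (∃ (D : CDGA.{u}) (ε : D.A (n - 1) →ₗ[ℚ] ℚ), StrictPD D (n - 1) ε ∧
        QuasiIsomorphic A D) ∨
      (A.IsNonneg ∧ ∃ D : CDGA.{u}, (∀ {i j : ℤ} (h : i + 1 = j) (a : D.A i), D.d h a = 0) ∧
        QuasiIsomorphic A D)) :
    ∃ (Q : CDGA.{u}) (Ψ : BalancedMap (shiftedDual Q n)),
      Q.IsNonneg ∧ (∀ i, Module.Finite ℚ (Q.A i)) ∧ (cone Ψ).IsNonneg ∧
      QuasiIsomorphic A (cone Ψ) := by
  obtain ⟨m, rfl⟩ : ∃ m, n = m + 1 := ⟨n - 1, by ring⟩
  have hm : m + 1 - 1 = m := by ring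
  rw [hm] at hA hM
  have hD' : ∃ (D : CDGA.{u}) (ε : D.A m →ₗ[ℚ] ℚ), StrictPD D m ε ∧ QuasiIsomorphic A D := by
    rcases hD with ⟨D, ε, h1, h2⟩ | ⟨hn, D, hd, h2⟩
    · have h3 : ∀ (m' : ℤ) (e : m' = m) (ε : D.A m' →ₗ[ℚ] ℚ), StrictPD D m' ε →
          ∃ ε' : D.A m →ₗ[ℚ] ℚ, StrictPD D m ε' := by
        intro m' e ε2 h
        subst e
        exact ⟨ε2, h⟩
      obtain ⟨ε', h4⟩ := h3 _ hm ε h1
      exact ⟨D, ε', h4, h2⟩
    · have hI := HIso.of_quasiIsomorphic h2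
      have hnD : ∀ i : ℤ, i < 0 → Subsingleton (D.H i) := by
        intro i hi
        obtain ⟨e, _⟩ := hI
        have := hn i hi
        refine ⟨fun x y => (e i).symm.injective ?_⟩
        obtain ⟨a, ha, h3⟩ := CDGA.cls_surj ((e i).symm x)
        obtain ⟨b, hb, h4⟩ := CDGA.cls_surj ((e i).symm y)
        rw [← h3, ← h4]
        obtain rfl := Subsingleton.elim a b
        rfl
      obtain ⟨ε, hε⟩ := strictPD_of_zero hd (hA.transport hI) hnD
      exact ⟨D, ε, hε, h2⟩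
  obtain ⟨D, ε, h1, h2⟩ := hD'
  have hI := HIso.of_quasiIsomorphic h2
  have hMD := Metabolic.transport hI hM
  have hPD := PoincareDuality.transport hI hA
  have h1m : 1 ≤ m := one_le_of_metabolic hPD (fun i hi => by
    have := h1.nonneg i hi
    refine ⟨fun x y => ?_⟩
    obtain ⟨a, ha, h3⟩ := CDGA.cls_surj x
    obtain ⟨b, hb, h4⟩ := CDGA.cls_surj y
    rw [← h3, ← h4]
    obtain rfl := Subsingleton.elim a b
    rfl) hMD
  obtain ⟨Q, Ψ, hQ, hf, hc, h3⟩ := h1.cone_of_metabolic h1m hMD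
  exact ⟨Q, Ψ, hQ, hf, hc, Relation.EqvGen.trans _ _ _ h2 h3⟩

end Pool.Agent.Lib.MP_43ef35_gt
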