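import Pool.Agent.Lib.MP_43ef35_gt.Obstruction

/-!
# Cohomology algebras of quasi-isomorphic CDGAs are isomorphic; the anisotropic obstruction
-/

set_option autoImplicit false

namespace Pool.Agent.Lib.MP_43ef35_gt

universe u

/-- An isomorphism of cohomology algebras, seen on cocycles. -/
def HIso (A B : CDGA.{u}) : Prop :=
  ∃ e : ∀ i : ℤ, A.H i ≃ₗ[ℚ] B.H i,
    (∀ {i j k : ℤ} (h : i + j = k) (a : A.A i) (ha : A.d rfl a = 0) (b : A.A j)
      (hb : A.d rfl b = 0) (a' : B.A i) (ha' : B.d rfl a' = 0) (b' : B.A j)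
      (hb' : B.d rfl b' = 0), e i (A.cls a ha) = B.cls a' ha' → e j (A.cls b hb) = B.cls b' hb' →
      e k (A.cls (A.mul h a b) (CDGA.mul_mem_Z h ha hb)) =
        B.cls (B.mul h a' b') (CDGA.mul_mem_Z h ha' hb')) ∧
    e 0 (A.cls A.one (A.d_one rfl)) = B.cls B.one (B.d_one rfl)

theorem CDGA.cls_mul_congr {A : CDGA.{u}} {i j k : ℤ} (h : i + j = k) {a a' : A.A i}
    {b b' : A.A j} (ha : A.d rfl a = 0) (hb : A.d rfl b = 0) (ha' : A.d rfl a' = 0)
    (hb' : A.d rfl b' = 0) (h1 : A.cls a ha = A.cls a' ha') (h2 : A.cls b hb = A.cls b' hb') :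
    A.cls (A.mul h a b) (CDGA.mul_mem_Z h ha hb) =
      A.cls (A.mul h a' b') (CDGA.mul_mem_Z h ha' hb') := by
  rw [CDGA.cls_eq] at h1 h2 ⊢
  have e1 : A.mul h a b - A.mul h a' b' = A.mul h (a - a') b + A.mul h a' (b - b') := by
    rw [sub_eq_add_neg a, sub_eq_add_neg b, A.add_mul, A.mul_add, ← neg_one_smul ℚ a',
      ← neg_one_smul ℚ b', A.smul_mul, A.mul_smul, neg_one_smul, neg_one_smul]
    abel
  rw [e1]
  exact Submodule.add_mem _ (CDGA.mul_mem_B_left h h1 hb) (CDGA.mul_mem_B_right h ha' h2)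

theorem HIso.refl (A : CDGA.{u}) : HIso A A :=
  ⟨fun i => LinearEquiv.refl ℚ _, fun h _ ha _ hb _ ha' _ hb' h1 h2 =>
    CDGA.cls_mul_congr h ha hb ha' hb' h1 h2, rfl⟩

theorem HIso.symm {A B : CDGA.{u}} (h : HIso A B) : HIso B A := by
  obtain ⟨e, he, h1⟩ := h
  refine ⟨fun i => (e i).symm, ?_, ?_⟩
  · intro i j k h a ha b hb a' ha' b' hb' h2 h3
    rw [LinearEquiv.symm_apply_eq] at h2 h3 ⊢
    exact (he h a' ha' b' hb' a ha b hb h2.symm h3.symm).symm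
  · rw [LinearEquiv.symm_apply_eq, h1]

theorem HIso.trans {A B C : CDGA.{u}} (h : HIso A B) (h' : HIso B C) : HIso A C := by
  obtain ⟨e, he, h1⟩ := h
  obtain ⟨f, hf, h2⟩ := h'
  refine ⟨fun i => (e i).trans (f i), ?_, ?_⟩
  · intro i j k h a ha b hb a' ha' b' hb' h3 h4
    obtain ⟨a'', ha'', h5⟩ := CDGA.cls_surj (e i (A.cls a ha))
    obtain ⟨b'', hb'', h6⟩ := CDGA.cls_surj (e j (A.cls b hb))
    rw [LinearEquiv.trans_apply] at h3 h4 ⊢
    rw [he h a ha b hb a'' ha'' b'' hb'' h5.symm h6.symm]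
    rw [← h5] at h3
    rw [← h6] at h4
    exact hf h a'' ha'' b'' hb'' a' ha' b' hb' h3 h4
  · rw [LinearEquiv.trans_apply, h1, h2]

theorem Hom.map_mem_Z {A B : CDGA.{u}} (φ : Hom A B) {i : ℤ} {a : A.A i} (ha : a ∈ A.Z i) :
    φ.f i a ∈ B.Z i := by
  rw [CDGA.mem_Z rfl, ← φ.map_d, (CDGA.mem_Z rfl).1 ha, map_zero]

theorem Hom.map_mem_B {A B : CDGA.{u}} (φ : Hom A B) {i : ℤ} {a : A.A i} (ha : a ∈ A.B i) :
    φ.f i a ∈ B.B i := by
  obtain ⟨y, rfl⟩ := (CDGA.mem_B (show (i - 1) + 1 = i by ring)).1 ha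
  exact (CDGA.mem_B (show (i - 1) + 1 = i by ring)).2 ⟨φ.f _ y, (φ.map_d _ y).symm⟩

/-- The map induced on cohomology. -/
def Hom.mapH {A B : CDGA.{u}} (φ : Hom A B) (i : ℤ) : A.H i →ₗ[ℚ] B.H i :=
  Submodule.mapQ _ _ ((φ.f i).restrict (fun _ ha => φ.map_mem_Z ha)) (fun _ ha => φ.map_mem_B ha)

theorem Hom.mapH_cls {A B : CDGA.{u}} (φ : Hom A B) {i : ℤ} (a : A.A i) (ha : A.d rfl a = 0) :
    φ.mapH i (A.cls a ha) = B.cls (φ.f i a) (φ.map_mem_Z ha) := rfl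

theorem Hom.mapH_bijective {A B : CDGA.{u}} (φ : Hom A B) (h : φ.IsQuasiIso) (i : ℤ) :
    Function.Bijective (φ.mapH i) := by
  constructor
  · rw [injective_iff_map_eq_zero]
    intro x hx
    obtain ⟨a, ha, rfl⟩ := CDGA.cls_surj x
    rw [φ.mapH_cls, CDGA.cls_eq_zero] at hx
    exact CDGA.cls_eq_zero.2 ((h i).1 a ha hx)
  · intro y
    obtain ⟨b, hb, rfl⟩ := CDGA.cls_surj y
    obtain ⟨a, ha, h2⟩ := (h i).2 b hb
    refine ⟨A.cls a ha, ?_⟩
    rw [φ.mapH_cls]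
    exact ((CDGA.cls_eq hb _).2 h2).symm

theorem HIso.of_quasiIso {A B : CDGA.{u}} (φ : Hom A B) (h : φ.IsQuasiIso) : HIso A B := by
  refine ⟨fun i => LinearEquiv.ofBijective (φ.mapH i) (φ.mapH_bijective h i), ?_, ?_⟩
  · intro i j k hij a ha b hb a' ha' b' hb' h1 h2
    rw [LinearEquiv.ofBijective_apply, φ.mapH_cls] at h1 h2 ⊢
    rw [← CDGA.cls_mul_congr hij _ _ ha' hb' h1 h2]
    have := φ.map_mul hij a b
    simp only [this]
  · rw [LinearEquiv.ofBijective_apply, φ.mapH_cls]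
    have := φ.map_one
    simp only [this]

theorem HIso.of_quasiIsomorphic {A B : CDGA.{u}} (h : QuasiIsomorphic A B) : HIso A B := by
  induction h with
  | rel X Y h =>
    obtain ⟨φ, hφ⟩ := h
    exact HIso.of_quasiIso φ hφ
  | refl X => exact HIso.refl X
  | symm X Y _ ih => exact ih.symm
  | trans X Y Z _ _ ih ih' => exact ih.trans ih'

/-- The cohomology of a semi-trivial mapping cone with one-dimensional top cohomology `H^m` has no
nonzero anisotropic middle form. -/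
theorem cone_mid_eq_zero {Q : CDGA.{u}} {m p : ℤ}
    (Ψ : BalancedMap (shiftedDual Q (m + 1))) (h1 : (cone Ψ).one ∉ (cone Ψ).B 0)
    (hgen : ∀ x y : (cone Ψ).H m, x ≠ 0 → ∃ c : ℚ, y = c • x) (hp : p + p = m)
    (haniso : ∀ x ∈ (cone Ψ).Z p, (cone Ψ).mul hp x x ∈ (cone Ψ).B m → x ∈ (cone Ψ).B p)
    (x : (cone Ψ).A p) (hx : x ∈ (cone Ψ).Z p) : x ∈ (cone Ψ).B p := by
  -- classes coming from `Q` vanish
  have key : ∀ {i : ℤ} (hi : i = p) (q : Q.A i), q ∈ Q.Z i → inc Ψ q ∈ (cone Ψ).B i := by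
    intro i hi q hq
    subst hi
    apply haniso _ (inc_mem_Z Ψ hq)
    rw [inc_mul]
    exact inc_top_mem_B Ψ rfl h1 hgen (Q.mul hp q q) (CDGA.mul_mem_Z hp hq hq)
  obtain ⟨p', rfl⟩ : ∃ p', p = p' + 1 := ⟨p - 1, by ring⟩
  obtain ⟨q, hq, hB⟩ := exists_of_mul_mem_B Ψ rfl x hx (by
    intro i hi q hq
    exact CDGA.mul_mem_B_right hi hx (key (by omega) q hq))
  have := Submodule.add_mem _ hB (key rfl q hq)
  rwa [sub_add_cancel] at this

/-- The anisotropic obstruction. -/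
theorem not_quasiIsomorphic_cone {A Q : CDGA.{u}} {m p : ℤ}
    (Ψ : BalancedMap (shiftedDual Q (m + 1))) (h1 : A.cls A.one (A.d_one rfl) ≠ 0)
    (hgen : ∀ x y : A.H m, x ≠ 0 → ∃ c : ℚ, y = c • x) (hp : p + p = m)
    (haniso : ∀ (x : A.A p) (hx : A.d rfl x = 0),
      A.cls (A.mul hp x x) (CDGA.mul_mem_Z hp hx hx) = 0 → A.cls x hx = 0)
    (hne : ∃ (x : A.A p) (hx : A.d rfl x = 0), A.cls x hx ≠ 0) :
    ¬ QuasiIsomorphic A (cone Ψ) := by
  intro h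
  obtain ⟨e, he, he1⟩ := HIso.of_quasiIsomorphic h
  obtain ⟨x, hx, hx0⟩ := hne
  apply hx0
  obtain ⟨y, hy, hxy⟩ := CDGA.cls_surj (e p (A.cls x hx))
  have : (cone Ψ).cls y hy = 0 := by
    rw [CDGA.cls_eq_zero]
    refine cone_mid_eq_zero Ψ ?_ ?_ hp ?_ y hy
    · intro hB
      apply h1
      rw [← CDGA.cls_eq_zero (ha := (cone Ψ).d_one rfl), ← he1] at hB
      exact (LinearEquiv.map_eq_zero_iff _).1 hB
    · intro x y hx
      obtain ⟨c, hc⟩ := hgen ((e m).symm x) ((e m).symm y)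
        (fun h => hx ((LinearEquiv.map_eq_zero_iff _).1 h))
      refine ⟨c, ?_⟩
      rw [← map_smul] at hc
      exact (e m).symm.injective hc
    · intro z hz hzz
      obtain ⟨a, ha, haz⟩ := CDGA.cls_surj ((e p).symm ((cone Ψ).cls z hz))
      rw [LinearEquiv.eq_symm_apply] at haz
      have h3 := he hp a ha a ha z hz z hz haz haz
      rw [CDGA.cls_eq_zero.2 hzz, LinearEquiv.map_eq_zero_iff] at h3
      have h4 := haniso a ha h3
      rw [h4, map_zero] at haz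
      exact CDGA.cls_eq_zero.1 haz.symm
  rw [this] at hxy
  exact (LinearEquiv.map_eq_zero_iff _).1 hxy.symm

end Pool.Agent.Lib.MP_43ef35_gt
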